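import Pool.Agent.SQT.Step
import Pool.Agent.Helper85.SC3.Coef

/-!
The step over a rational function field in one variable over an algebraically closed field (the
field is `C₁`): `m` power sums can be killed when `m * (m + 1) / 2 < n`.
-/

namespace Pool.Agent.SQT

open Pool.Agent.Helper85.SC IntermediateField

variable {k : Type*} {K : Type*} [Field k] [Field K] [Algebra k K]

theorem mem_of_isAlgebraic (F₀ : IntermediateField k K) [IsAlgClosed F₀] {x : K}
    (h : IsAlgebraic F₀ x) : x ∈ F₀ := by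
  have h1 := IsAlgClosed.degree_eq_one_of_irreducible F₀ (minpoly.irreducible h.isIntegral)
  obtain ⟨y, hy⟩ := minpoly.mem_range_of_degree_eq_one F₀ x h1
  rw [← hy]
  exact y.2

/-- Newton: elementary symmetric functions from power sums -/
theorem esymm_mem [CharZero K] (F₀ : IntermediateField k K) {n N : ℕ} (w : Fin n → K)
    (hw : ∀ l, l ≤ N → ∑ i, w i ^ l ∈ F₀) (l : ℕ) (hl : l ≤ N) :
    MvPolynomial.aeval w (MvPolynomial.esymm (Fin n) K l) ∈ F₀ := by
  induction l using Nat.strong_induction_on with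
  | _ l ih =>
    rcases Nat.eq_zero_or_pos l with rfl | hl0
    · rw [MvPolynomial.esymm_zero, map_one]
      exact one_mem _
    · have h := congrArg (MvPolynomial.aeval w) (MvPolynomial.mul_esymm_eq_sum (Fin n) K l)
      rw [map_mul, map_mul, map_sum, map_natCast] at h
      have h1 : MvPolynomial.aeval w (MvPolynomial.esymm (Fin n) K l) =
          (l : K)⁻¹ * ((l : K) * MvPolynomial.aeval w (MvPolynomial.esymm (Fin n) K l)) := by
        rw [← mul_assoc, inv_mul_cancel₀ (Nat.cast_ne_zero.2 (by omega)), one_mul]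
      rw [h1, h]
      refine mul_mem (inv_mem (_root_.natCast_mem _ l)) (mul_mem ?_ (sum_mem fun a ha => ?_))
      · rw [map_pow, map_neg, map_one]
        exact pow_mem (neg_mem (one_mem _)) _
      · rw [Finset.mem_filter, Finset.HasAntidiagonal.mem_antidiagonal] at ha
        rw [map_mul, map_mul, map_pow, map_neg, map_one]
        refine mul_mem (mul_mem (pow_mem (neg_mem (one_mem _)) _) (ih _ ha.2 (by omega))) ?_
        have h2 : MvPolynomial.aeval w (MvPolynomial.psum (Fin n) K a.2) = ∑ i, w i ^ a.2 := by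
          rw [MvPolynomial.psum, map_sum]
          simp only [map_pow, MvPolynomial.aeval_X]
        rw [h2]
        exact hw _ (by omega)

/-- coefficients of `∏ (X - w_j)` but the last one -/
theorem coeff_mem_of_psum [CharZero K] (F₀ : IntermediateField k K) {n : ℕ} (w : Fin n → K)
    (hw : ∀ l, l ≤ n - 1 → ∑ i, w i ^ l ∈ F₀) (s : ℕ) (hs1 : 1 ≤ s) (hs : s ≤ n) :
    (∏ j, (Polynomial.X - Polynomial.C (w j))).coeff s ∈ F₀ := by
  have h1 : s = n - (n - s) := by omega
  rw [h1, coef_coeff_prod w (by omega)]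
  exact mul_mem (pow_mem (neg_mem (one_mem _)) _) (esymm_mem F₀ w hw _ (by omega))

/-- the recurrence of the power sums -/
theorem psum_rec {n : ℕ} (w : Fin n → K) (q : ℕ) :
    ∑ i, w i ^ (n + q) = - ∑ s ∈ Finset.range n,
      (∏ j, (Polynomial.X - Polynomial.C (w j))).coeff s * ∑ i, w i ^ (s + q) := by
  classical
  have hmon : (∏ j, (Polynomial.X - Polynomial.C (w j))).Monic :=
    Polynomial.monic_prod_of_monic _ _ fun j _ => Polynomial.monic_X_sub_C _
  have hdeg : (∏ j, (Polynomial.X - Polynomial.C (w j))).natDegree = n := by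
    rw [Polynomial.natDegree_prod_of_monic _ _ fun j _ => Polynomial.monic_X_sub_C _]
    simp
  have h1 : ∀ i, w i ^ n = - ∑ s ∈ Finset.range n,
      (∏ j, (Polynomial.X - Polynomial.C (w j))).coeff s * w i ^ s := by
    intro i
    have h2 : (∏ j, (Polynomial.X - Polynomial.C (w j))).eval (w i) = 0 := by
      rw [Polynomial.eval_prod]
      exact Finset.prod_eq_zero (Finset.mem_univ i) (by simp)
    rw [Polynomial.eval_eq_sum_range, hdeg, Finset.sum_range_succ] at h2
    have h3 : (∏ j, (Polynomial.X - Polynomial.C (w j))).coeff n = 1 := by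
      have h9 := hmon.coeff_natDegree
      rw [hdeg] at h9
      exact h9
    rw [h3, one_mul] at h2
    exact eq_neg_of_add_eq_zero_right h2
  have h4 : ∀ i, w i ^ (n + q) = - ∑ s ∈ Finset.range n,
      (∏ j, (Polynomial.X - Polynomial.C (w j))).coeff s * w i ^ (s + q) := by
    intro i
    rw [pow_add, h1 i, neg_mul, Finset.sum_mul]
    congr 1
    refine Finset.sum_congr rfl fun s _ => ?_
    rw [pow_add, mul_assoc]
  rw [Finset.sum_congr rfl fun i _ => h4 i, Finset.sum_neg_distrib, Finset.sum_comm]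
  congr 1
  refine Finset.sum_congr rfl fun s _ => ?_
  rw [Finset.mul_sum]

/-- The power sums as polynomials in the last coefficient. -/
theorem psum_poly [CharZero K] (F₀ : IntermediateField k K) {n : ℕ} (hn : 0 < n) (w : Fin n → K)
    (hw : ∀ l, l ≤ n - 1 → ∑ i, w i ^ l ∈ F₀) (l : ℕ) :
    ∃ S : Polynomial F₀, S.natDegree ≤ l / n ∧
      Polynomial.aeval ((∏ j, (Polynomial.X - Polynomial.C (w j))).coeff 0) S = ∑ i, w i ^ l := by
  classical
  induction l using Nat.strong_induction_on with
  | _ l ih =>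
    rcases Nat.lt_or_ge l n with h | h
    · refine ⟨Polynomial.C ⟨∑ i, w i ^ l, hw l (by omega)⟩, by simp, ?_⟩
      rw [Polynomial.aeval_C]
      rfl
    · obtain ⟨q, rfl⟩ : ∃ q, l = n + q := ⟨l - n, by omega⟩
      choose! S hS1 hS2 using ih
      refine ⟨- (∑ s ∈ (Finset.range n).attach,
        if h0 : (s : ℕ) = 0 then Polynomial.X * S (s + q) else
          Polynomial.C ⟨_, coeff_mem_of_psum F₀ w hw s (by omega)
            (Finset.mem_range.1 s.2).le⟩ * S (s + q)), ?_, ?_⟩
      · rw [Polynomial.natDegree_neg]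
        refine Polynomial.natDegree_sum_le_of_forall_le _ _ fun s _ => ?_
        have hs := Finset.mem_range.1 s.2
        split_ifs with h0
        · refine Polynomial.natDegree_mul_le.trans ?_
          have h1 := hS1 (s + q) (by omega)
          have h2 := Polynomial.natDegree_X_le (R := F₀)
          rw [h0, zero_add] at h1
          rw [h0, zero_add, Nat.add_div_left _ hn]
          omega
        · refine (Polynomial.natDegree_C_mul_le _ _).trans ?_
          exact (hS1 (s + q) (by omega)).trans (Nat.div_le_div_right (by omega))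
      · rw [psum_rec, map_neg, map_sum, ← Finset.sum_attach (Finset.range n)]
        congr 1
        refine Finset.sum_congr rfl fun s _ => ?_
        have hs := Finset.mem_range.1 s.2
        split_ifs with h0
        · rw [map_mul, Polynomial.aeval_X, hS2 (s + q) (by omega), h0]
        · rw [map_mul, Polynomial.aeval_C, hS2 (s + q) (by omega)]
          rfl

/-- The transformation with coefficients in the algebraically closed field. -/
theorem exists_c1 (F₀ : IntermediateField k K) [IsAlgClosed F₀] {n m D : ℕ}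
    (hD : ∑ l : Fin m, (((l : ℕ) + 1) * D / n + 1) ≤ D) (w : Fin n → K) (c : K)
    (S : ℕ → Polynomial F₀) (hS1 : ∀ l, (S l).natDegree ≤ l / n)
    (hS2 : ∀ l, Polynomial.aeval c (S l) = ∑ i, w i ^ l) :
    ∃ a : Fin (D + 1) → K, a ≠ 0 ∧ (∀ j, a j ∈ F₀) ∧
      ∀ l, 1 ≤ l → l ≤ m → ∑ i, (∑ j, a j * w i ^ (j : ℕ)) ^ l = 0 := by
  classical
  let I := Σ l : Fin m, Fin (((l : ℕ) + 1) * D / n + 1)
  have hcard : Fintype.card I ≤ Fintype.card (Fin D) := by
    simp only [I, Fintype.card_sigma, Fintype.card_fin]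
    exact hD
  obtain ⟨e⟩ := Function.Embedding.nonempty_of_card_le hcard
  let P : I → MvPolynomial (Fin (D + 1)) F₀ := fun p =>
    ∑ f : Fin ((p.1 : ℕ) + 1) → Fin (D + 1),
      MvPolynomial.C ((S (∑ a, (f a : ℕ))).coeff (p.2 : ℕ)) * ∏ a, MvPolynomial.X (f a)
  have hP : ∀ p : I, (P p).IsHomogeneous ((p.1 : ℕ) + 1) := by
    intro p
    refine MvPolynomial.IsHomogeneous.sum _ _ _ fun f _ => ?_
    have h1 : (∏ a, (MvPolynomial.X (f a) : MvPolynomial (Fin (D + 1)) F₀)).IsHomogeneous
        (∑ _a : Fin ((p.1 : ℕ) + 1), 1) :=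
      MvPolynomial.IsHomogeneous.prod _ _ _ fun a _ => MvPolynomial.isHomogeneous_X _ _
    have h2 := (MvPolynomial.isHomogeneous_C (Fin (D + 1))
      ((S (∑ a, (f a : ℕ))).coeff (p.2 : ℕ))).mul h1
    simpa using h2
  obtain ⟨a, ha0, haF, ha⟩ := exists_zero_field F₀
    (fun j : Fin D => if h : ∃ p, e p = j then P h.choose else 0)
    (fun j : Fin D => if h : ∃ p, e p = j then (h.choose.1 : ℕ) + 1 else 1)
    (fun j => by
      split_ifs
      · exact Nat.succ_pos _
      · exact Nat.one_pos)
    (fun j => by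
      split_ifs with h
      · exact hP _
      · exact MvPolynomial.isHomogeneous_zero _ _ _)
  have hPa : ∀ p : I, MvPolynomial.eval a ((P p).map (algebraMap F₀ K)) = 0 := by
    intro p
    have h1 := ha (e p)
    have h2 : ∃ p', e p' = e p := ⟨p, rfl⟩
    rw [dif_pos h2] at h1
    have h3 : h2.choose = p := e.injective h2.choose_spec
    rwa [h3] at h1
  refine ⟨a, ha0, haF, fun l hl1 hl2 => ?_⟩
  obtain ⟨l', rfl⟩ : ∃ l', l = l' + 1 := ⟨l - 1, by omega⟩
  rw [sum_pow_expand]
  have h4 : ∀ f : Fin (l' + 1) → Fin (D + 1), ∑ i, w i ^ (∑ b, (f b : ℕ)) =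
      ∑ q ∈ Finset.range ((l' + 1) * D / n + 1),
        algebraMap F₀ K ((S (∑ b, (f b : ℕ))).coeff q) * c ^ q := by
    intro f
    rw [← hS2, Polynomial.aeval_eq_sum_range' (n := (l' + 1) * D / n + 1)]
    · refine Finset.sum_congr rfl fun q _ => ?_
      rw [Algebra.smul_def]
    · refine Nat.lt_succ_of_le ((hS1 _).trans (Nat.div_le_div_right ?_))
      calc ∑ b, (f b : ℕ) ≤ ∑ _b : Fin (l' + 1), D :=
            Finset.sum_le_sum fun b _ => Nat.lt_succ_iff.1 (f b).2
        _ = (l' + 1) * D := by simp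
  simp_rw [h4, Finset.mul_sum]
  rw [Finset.sum_comm]
  refine Finset.sum_eq_zero fun q hq => ?_
  have h5 := hPa ⟨⟨l', by omega⟩, ⟨q, Finset.mem_range.1 hq⟩⟩
  simp only [P, map_sum, map_mul, MvPolynomial.map_C, map_prod, MvPolynomial.map_X,
    MvPolynomial.eval_C, MvPolynomial.eval_X] at h5
  calc ∑ f : Fin (l' + 1) → Fin (D + 1), (∏ b, a (f b)) *
        (algebraMap F₀ K ((S (∑ b, (f b : ℕ))).coeff q) * c ^ q)
      = c ^ q * ∑ f : Fin (l' + 1) → Fin (D + 1),
          algebraMap F₀ K ((S (∑ b, (f b : ℕ))).coeff q) * ∏ b, a (f b) := by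
        rw [Finset.mul_sum]
        refine Finset.sum_congr rfl fun f _ => ?_
        ring
    _ = 0 := by
        rw [h5, mul_zero]

/-- The `C₁` step. -/
theorem stepOne [CharZero K] [IsAlgClosed K] {E : IntermediateField k K} {n m r : ℕ}
    (hr1 : 1 ≤ r) (hm : 1 ≤ m) (hr : n ≤ r + m + 1) (hmn : m * (m + 1) < 2 * n) (z : Fin n → K)
    (hE : ∀ l, ∑ i, z i ^ l ∈ E) (hp : ∀ l, 1 ≤ l → l ≤ m - 1 → ∑ i, z i ^ l = 0) :
    (∃ i, z i ∈ next k r E) ∨ ∃ (N : ℕ) (c : Fin N → K), (∀ j, c j ∈ next k r E) ∧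
      (∀ l, 1 ≤ l → l ≤ m → ∑ i, (∑ j, c j * z i ^ (j : ℕ)) ^ l = 0) ∧
      ∀ i, ∑ j, c j * z i ^ (j : ℕ) ≠ 0 := by
  have hn : 0 < n := by
    rcases Nat.eq_zero_or_pos n with rfl | h
    · omega
    · exact h
  obtain ⟨a, t, ha0, ha, ht, hat⟩ := exists_scale (κ := m - 1) (N := n - 1) hr1 (by omega)
    (fun l => ∑ i, z i ^ l)
    (by
      simp only [pow_zero, Finset.sum_const, Finset.card_univ, Fintype.card_fin, nsmul_eq_mul,
        mul_one]
      exact _root_.natCast_mem _ n) hE hp
  have hcl : IsAlgClosed (br k t) := isAlgClosed_br t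
  have hps : ∀ l, l ≤ n - 1 → ∑ i, (a * z i) ^ l ∈ br k t := by
    intro l hl
    have h1 : ∑ i, (a * z i) ^ l = a ^ l * ∑ i, z i ^ l := by
      rw [Finset.mul_sum]
      exact Finset.sum_congr rfl fun i _ => mul_pow _ _ _
    rw [h1]
    exact hat l hl
  by_cases hw : ∃ i, a * z i ∈ br k t
  · left
    obtain ⟨i, hi⟩ := hw
    refine ⟨i, ?_⟩
    have h1 : z i = a⁻¹ * (a * z i) := by
      rw [← mul_assoc, inv_mul_cancel₀ ha0, one_mul]
    rw [h1]
    exact mul_mem (inv_mem ha) (br_le_next t ht hi)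
  · right
    push Not at hw
    choose S hS1 hS2 using psum_poly (br k t) hn (fun i => a * z i) hps
    have hD : ∑ l : Fin m, (((l : ℕ) + 1) * (n * m) / n + 1) ≤ n * m := by
      have h1 : ∀ l : Fin m, ((l : ℕ) + 1) * (n * m) / n + 1 = ((l : ℕ) + 1) * m + 1 := by
        intro l
        have h2 : ((l : ℕ) + 1) * (n * m) = n * (((l : ℕ) + 1) * m) := by ring
        rw [h2, Nat.mul_div_cancel_left _ hn]
      rw [Finset.sum_congr rfl fun l _ => h1 l, Finset.sum_add_distrib, ← Finset.sum_mul]
      have h3 : ∑ l : Fin m, ((l : ℕ) + 1) = m * (m + 1) / 2 := by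
        rw [Fin.sum_univ_eq_sum_range (fun j => j + 1) m]
        have h2 : ∑ j ∈ Finset.range (m + 1), j = ∑ j ∈ Finset.range m, (j + 1) := by
          rw [Finset.sum_range_succ']
          simp
        rw [← h2, Finset.sum_range_id, Nat.add_sub_cancel, mul_comm]
      rw [h3]
      simp only [Finset.sum_const, Finset.card_univ, Fintype.card_fin, smul_eq_mul, mul_one]
      have h4 : m * (m + 1) / 2 + 1 ≤ n := by omega
      calc m * (m + 1) / 2 * m + m = (m * (m + 1) / 2 + 1) * m := by ring
        _ ≤ n * m := Nat.mul_le_mul_right _ h4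
    obtain ⟨c, hc0, hcF, hc⟩ := exists_c1 (br k t) hD (fun i => a * z i) _ S hS1 hS2
    refine ⟨n * m + 1, fun j => c j * a ^ (j : ℕ), fun j => ?_, fun l hl1 hl2 => ?_, fun i h0 => ?_⟩
    · exact mul_mem (br_le_next t ht (hcF j)) (pow_mem ha _)
    · rw [← hc l hl1 hl2]
      refine Finset.sum_congr rfl fun i _ => ?_
      congr 1
      refine Finset.sum_congr rfl fun j _ => ?_
      rw [mul_pow, mul_assoc]
    · apply hw i
      -- `a * z i` is algebraic over the relatively algebraically closed field `br k t`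
      have h1 : IsAlgebraic (br k t) (a * z i) := by
        refine ⟨∑ j : Fin (n * m + 1), Polynomial.C ⟨c j, hcF j⟩ * Polynomial.X ^ (j : ℕ), ?_, ?_⟩
        · intro h2
          apply hc0
          funext j
          have h3 := congrArg (fun p => Polynomial.coeff p (j : ℕ)) h2
          simp only [Polynomial.finsetSum_coeff, Polynomial.coeff_C_mul, Polynomial.coeff_X_pow,
            Polynomial.coeff_zero] at h3
          rw [Finset.sum_eq_single j] at h3
          · rw [if_pos rfl, mul_one] at h3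
            exact congrArg Subtype.val h3
          · intro b _ hb
            rw [if_neg, mul_zero]
            intro h
            exact hb (Fin.ext h.symm)
          · intro h
            exact absurd (Finset.mem_univ _) h
        · rw [map_sum, ← h0]
          refine Finset.sum_congr rfl fun j _ => ?_
          rw [map_mul, map_pow, Polynomial.aeval_X, Polynomial.aeval_C, mul_pow, mul_assoc]
          rfl
      exact mem_of_isAlgebraic _ h1

end Pool.Agent.SQT
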