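import Pool.Agent.SQT.Fam
import Pool.Agent.SQT.COne
import Pool.Agent.Helper85.SC3.Third

/-!
The number of layers for `r ≥ n - m - 1`.
-/

namespace Pool.Agent.SQT

open Pool.Agent.Helper85.SC IntermediateField

variable {k : Type*} {K : Type*} [Field k] [Field K] [Algebra k K] [CharZero k] [IsAlgClosed K]

/-- `κ` power sums are killed over `E` (or `y` is already in `E`) -/
def Good (F E : IntermediateField k K) {n : ℕ} (y : Fin n → K) (κ : ℕ) : Prop :=
  F ≤ E ∧ Stab F E ∧ ((∀ i, y i ∈ E) ∨ ∃ z : Fin n → K, Equi F E y z ∧ Function.Injective z ∧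
    ∀ l, 1 ≤ l → l ≤ κ → ∑ i, z i ^ l = 0)

theorem all_mem {F E : IntermediateField k K} {n : ℕ} {y : Fin n → K} (hG : Gen F y)
    (hFE : F ≤ E) (hst : Stab F E) {i₀ : Fin n} (h : y i₀ ∈ E) (i : Fin n) : y i ∈ E := by
  obtain ⟨g, hg⟩ := hG.lift (Equiv.swap i₀ i)
  have h1 := hg i₀
  rw [Equiv.swap_apply_left] at h1
  rw [← h1]
  exact hst g _ h

theorem good_start {F : IntermediateField k K} {n : ℕ} {y : Fin n → K} (hG : Gen F y)
    (hn : 0 < n) : Good F F y 1 := by
  have hCK : CharZero K := charZero_of_injective_algebraMap (algebraMap k K).injective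
  have hn0 : (n : K) ≠ 0 := Nat.cast_ne_zero.2 (by omega)
  refine ⟨le_rfl, stab_self F, Or.inr ⟨fun i => y i - (∑ j, y j) / n, ?_, ?_, ?_⟩⟩
  · intro g hg σ hσ i
    rw [map_sub, map_div₀, map_sum, map_natCast, hσ i]
    congr 2
    rw [← Equiv.sum_comp σ y]
    exact Finset.sum_congr rfl fun j _ => hσ j
  · intro a b hab
    exact hG.ind.injective (sub_left_injective hab)
  · intro l hl1 hl2
    have : l = 1 := by omega
    subst this
    simp only [pow_one]
    rw [Finset.sum_sub_distrib, Finset.sum_const, Finset.card_univ, Fintype.card_fin,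
      nsmul_eq_mul, mul_div_cancel₀ _ hn0, sub_self]

theorem good_step {F E : IntermediateField k K} {n κ m r : ℕ} {y : Fin n → K} (hG : Gen F y)
    (hn : 5 ≤ n) (h : Good F E y κ) (hr1 : 1 ≤ r) (hm : 1 ≤ m) (hmn : m < n)
    (hr : m * m ≤ r + κ + 1) : Good F (next k r E) y m := by
  have hCK : CharZero K := charZero_of_injective_algebraMap (algebraMap k K).injective
  obtain ⟨hFE, hst, h⟩ := h
  have hE : E ≤ next k r E := le_next hr1 E
  refine ⟨hFE.trans hE, stab_next hst, ?_⟩
  rcases h with h | ⟨z, hz, hinj, hp⟩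
  · exact Or.inl fun i => hE (h i)
  · by_cases hy : ∀ i, y i ∈ next k r E
    · exact Or.inl hy
    · right
      push Not at hy
      obtain ⟨i₀, hy⟩ := hy
      obtain ⟨c, hc0, hcE, hc⟩ := step hr1 hr z (fun l => psum_mem' hG hFE hz l) hp
      refine ⟨_, hz.transform hE c hcE, ?_, hc⟩
      refine (hz.transform hE c hcE).injective hG hn (hFE.trans hE) (stab_next hst) hy ?_
      refine transform_ne (by omega) _ ?_ (exists_ne_zero_of_inj (by omega) hinj c hc0)
      have := hc 1 le_rfl hm
      simpa using this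

theorem good_one {F E : IntermediateField k K} {n m r : ℕ} {y : Fin n → K} (hG : Gen F y)
    (hn : 5 ≤ n) (h : Good F E y (m - 1)) (hr1 : 1 ≤ r) (hm : 1 ≤ m) (hr : n ≤ r + m + 1)
    (hmn : m * (m + 1) < 2 * n) : Good F (next k r E) y m := by
  have hCK : CharZero K := charZero_of_injective_algebraMap (algebraMap k K).injective
  obtain ⟨hFE, hst, h⟩ := h
  have hE : E ≤ next k r E := le_next hr1 E
  refine ⟨hFE.trans hE, stab_next hst, ?_⟩
  rcases h with h | ⟨z, hz, hinj, hp⟩
  · exact Or.inl fun i => hE (h i)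
  · by_cases hy : ∀ i, y i ∈ next k r E
    · exact Or.inl hy
    · right
      push Not at hy
      obtain ⟨i₀, hy⟩ := hy
      rcases stepOne hr1 hm hr hmn z (fun l => psum_mem' hG hFE hz l) hp with
        ⟨i, hi⟩ | ⟨N, c, hcE, hc, hne⟩
      · exfalso
        have hact : ∀ j, z j = z i := by
          -- all conjugates of an element of the field are equal
          have h1 := const_of_act (n := n) (z := z) (by omega)
          intro j
          by_contra hij
          have hij' : j ≠ i := fun h => hij (by rw [h])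
          obtain ⟨l, hl⟩ : ∃ l : Fin n, l ∉ ({i, j} : Finset (Fin n)) := by
            by_contra hcon
            push Not at hcon
            have h1 : (Finset.univ : Finset (Fin n)) ⊆ {i, j} := fun m _ => hcon m
            have h2 := Finset.card_le_card h1
            have h3 : ({i, j} : Finset (Fin n)).card ≤ 2 := Finset.card_le_two
            rw [Finset.card_univ, Fintype.card_fin] at h2
            omega
          simp only [Finset.mem_insert, Finset.mem_singleton, not_or] at hl
          obtain ⟨hl1, hl2⟩ := hl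
          have hσ : (Equiv.swap j l * Equiv.swap i j) ∈ alternatingGroup (Fin n) := by
            rw [Equiv.Perm.mem_alternatingGroup, map_mul, Equiv.Perm.sign_swap (Ne.symm hl2),
              Equiv.Perm.sign_swap (Ne.symm hij')]
            decide
          obtain ⟨g, hg, hgσ⟩ := exists_lift_even hG hn (hFE.trans hE) (stab_next hst) hy _ hσ
          have h4 := hz.mono hE g hg _ (fun i => by rw [piHom_spec hG g, hgσ]) i
          rw [hg _ hi] at h4
          have e1 : (Equiv.swap j l * Equiv.swap i j) i = l := by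
            rw [Equiv.Perm.mul_apply, Equiv.swap_apply_left, Equiv.swap_apply_left]
          rw [e1] at h4
          exact hl1 (hinj h4).symm
        have h5 : ∃ j : Fin n, j ≠ i := by
          have : Nontrivial (Fin n) := Fin.nontrivial_iff_two_le.2 (by omega)
          exact exists_ne i
        obtain ⟨j, hj⟩ := h5
        exact hj (hinj (hact j))
      · refine ⟨_, hz.transform hE c hcE, ?_, hc⟩
        refine (hz.transform hE c hcE).injective hG hn (hFE.trans hE) (stab_next hst) hy ?_
        refine transform_ne (by omega) _ ?_ ⟨i₀, hne i₀⟩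
        have := hc 1 le_rfl hm
        simpa using this

theorem good_finish {F E : IntermediateField k K} {n m : ℕ} {y : Fin n → K} (hG : Gen F y)
    (hn : 5 ≤ n) (h : Good F E y m) (hm : m + 2 ≤ n) (i₀ : Fin n) :
    y i₀ ∈ next k (n - m - 1) E := by
  obtain ⟨hFE, hst, h⟩ := h
  rcases h with h | ⟨z, hz, hinj, hp⟩
  · exact le_next (by omega) E (h i₀)
  · exact finish hG hn hFE hst hz hinj hm hp i₀

/-- three layers -/
theorem three {F : IntermediateField k K} {n m : ℕ} {y : Fin n → K} (hG : Gen F y)
    (hm : 3 ≤ m) (hn : m ^ 2 + m - 1 ≤ n) (i₀ : Fin n) :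
    y i₀ ∈ next k (n - m - 1) (next k (n - m - 1) F) := by
  have h1 : m ^ 2 = m * m := sq m
  have h2 : 3 * m ≤ m * m := Nat.mul_le_mul_right _ hm
  exact good_finish hG (by omega) (good_step hG (by omega) (good_start hG (by omega)) (by omega)
    (by omega) (by omega) (by omega)) (by omega) i₀

/-- four layers -/
theorem four {F : IntermediateField k K} {n m : ℕ} {y : Fin n → K} (hG : Gen F y)
    (hm : 4 ≤ m) (hn : m ^ 2 ≤ n + m) (i₀ : Fin n) :
    y i₀ ∈ next k (n - m - 1) (next k (n - m - 1) (next k (n - m - 1) F)) := by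
  have h1 : m ^ 2 = m * m := sq m
  have h2 : 4 * m ≤ m * m := Nat.mul_le_mul_right _ hm
  have h3 : (m - 1) * (m - 1) = m * m + 1 - 2 * m := by
    obtain ⟨q, rfl⟩ : ∃ q, m = q + 1 := ⟨m - 1, by omega⟩
    have : (q + 1) * (q + 1) = q * q + 2 * q + 1 := by ring
    rw [Nat.add_sub_cancel]
    omega
  have h4 : m * (m + 1) = m * m + m := by ring
  have g1 := good_step (r := n - m - 1) (m := m - 1) hG (by omega) (good_start hG (by omega))
    (by omega) (by omega) (by omega) (by omega)
  have g2 := good_one (r := n - m - 1) (m := m) hG (by omega) g1 (by omega) (by omega) (by omega) (by omega)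
  exact good_finish hG (by omega) g2 (by omega) i₀

/-- five layers -/
theorem five {F : IntermediateField k K} {n m : ℕ} {y : Fin n → K} (hG : Gen F y)
    (hm : 4 ≤ m) (hn : m ^ 2 + 3 ≤ n + 2 * m) (i₀ : Fin n) :
    y i₀ ∈ next k (n - m - 1) (next k (n - m - 1) (next k (n - m - 1)
      (next k (n - m - 1) F))) := by
  have h1 : m ^ 2 = m * m := sq m
  have h2 : 4 * m ≤ m * m := Nat.mul_le_mul_right _ hm
  have h3 : (m - 1) * (m - 1) = m * m + 1 - 2 * m := by
    obtain ⟨q, rfl⟩ : ∃ q, m = q + 1 := ⟨m - 1, by omega⟩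
    have : (q + 1) * (q + 1) = q * q + 2 * q + 1 := by ring
    rw [Nat.add_sub_cancel]
    omega
  have h5 : (m - 2) * (m - 2) = m * m + 4 - 4 * m := by
    obtain ⟨q, rfl⟩ : ∃ q, m = q + 2 := ⟨m - 2, by omega⟩
    have : (q + 2) * (q + 2) = q * q + 4 * q + 4 := by ring
    rw [Nat.add_sub_cancel]
    omega
  have h4 : m * (m + 1) = m * m + m := by ring
  have g1 := good_step (r := n - m - 1) (m := m - 2) hG (by omega) (good_start hG (by omega))
    (by omega) (by omega) (by omega) (by omega)
  have g2 := good_step (r := n - m - 1) (m := m - 1) hG (by omega) g1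
    (by omega) (by omega) (by omega) (by omega)
  have h6 : m * m > 5 * m - 6 := by
    obtain ⟨q, rfl⟩ : ∃ q, m = q + 4 := ⟨m - 4, by omega⟩
    have : (q + 4) * (q + 4) = q * q + 8 * q + 16 := by ring
    omega
  have g3 := good_one (r := n - m - 1) (m := m) hG (by omega) g2 (by omega) (by omega) (by omega) (by omega)
  exact good_finish hG (by omega) g3 (by omega) i₀

end Pool.Agent.SQT
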