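import Pool.Agent.Helper85.SC6.Sextic
import Pool.Agent.Helper85.SC3.Coef

/-!
Equivariant families over a stable field.
-/

namespace Pool.Agent.SQT

open Pool.Agent.Helper85.SC IntermediateField

variable {k : Type*} {K : Type*} [Field k] [Field K] [Algebra k K]

/-- `z` is an equivariant family over `E`: automorphisms over `E` permute the `z i` as they
permute the `y i`. -/
def Equi (F E : IntermediateField k K) {n : ℕ} (y z : Fin n → K) : Prop :=
  ∀ g : K ≃ₐ[F] K, (∀ w ∈ E, g w = w) → ∀ σ : Equiv.Perm (Fin n), (∀ i, g (y i) = y (σ i)) →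
    ∀ i, g (z i) = z (σ i)

/-- `E` is stable under the automorphisms over `F`. -/
def Stab (F E : IntermediateField k K) : Prop := ∀ g : K ≃ₐ[F] K, ∀ w ∈ E, g w ∈ E

theorem stab_self (F : IntermediateField k K) : Stab F F := fun g w hw => by
  have : g w = w := g.commutes ⟨w, hw⟩
  rwa [this]

theorem stab_next {F E : IntermediateField k K} {r : ℕ} (h : Stab F E) :
    Stab F (next k r E) := fun g _ hz =>
  next_stable' (g.restrictScalars k) (fun w hw => h g w hw) hz

theorem equi_self (F : IntermediateField k K) {n : ℕ} (y : Fin n → K) : Equi F F y y :=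
  fun _ _ _ hσ i => hσ i

theorem Equi.mono {F E E' : IntermediateField k K} {n : ℕ} {y z : Fin n → K}
    (h : Equi F E y z) (hE : E ≤ E') : Equi F E' y z :=
  fun g hg σ hσ i => h g (fun w hw => hg w (hE hw)) σ hσ i

theorem Equi.transform {F E E' : IntermediateField k K} {n N : ℕ} {y z : Fin n → K}
    (h : Equi F E y z) (hE : E ≤ E') (c : Fin N → K) (hc : ∀ j, c j ∈ E') :
    Equi F E' y (fun i => ∑ j, c j * z i ^ (j : ℕ)) := by
  intro g hg σ hσ i
  rw [map_sum]
  refine Finset.sum_congr rfl fun j _ => ?_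
  rw [map_mul, map_pow, hg _ (hc j), h.mono hE g hg σ hσ i]

theorem const_of_act {α : Type*} {n : ℕ} {z : Fin n → α} (hn : 4 ≤ n)
    (hact : ∀ σ ∈ alternatingGroup (Fin n), ∃ g : α → α, ∀ i, g (z i) = z (σ i))
    (h : ¬ Function.Injective z) : ∀ i j, z i = z j := by
  classical
  have h' : ∃ i i', z i = z i' ∧ i ≠ i' := by
    by_contra hcon
    push Not at hcon
    exact h fun a b hab => hcon a b hab
  obtain ⟨i, i', hii', hne⟩ := h'
  have hconst : ∀ j, z j = z i := by
    intro j
    by_cases hj : j = i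
    · rw [hj]
    by_cases hj' : j = i'
    · rw [hj', hii']
    obtain ⟨m, hm⟩ : ∃ m : Fin n, m ∉ ({i, i', j} : Finset (Fin n)) := by
      by_contra hcon
      push Not at hcon
      have h1 : (Finset.univ : Finset (Fin n)) ⊆ {i, i', j} := fun m _ => hcon m
      have h2 := Finset.card_le_card h1
      have h3 : ({i, i', j} : Finset (Fin n)).card ≤ 3 := Finset.card_le_three
      rw [Finset.card_univ, Fintype.card_fin] at h2
      omega
    simp only [Finset.mem_insert, Finset.mem_singleton, not_or] at hm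
    obtain ⟨hm1, hm2, hm3⟩ := hm
    have hσ : (Equiv.swap i' m * Equiv.swap i' j) ∈ alternatingGroup (Fin n) := by
      rw [Equiv.Perm.mem_alternatingGroup, map_mul, Equiv.Perm.sign_swap (Ne.symm hm2),
        Equiv.Perm.sign_swap (Ne.symm hj')]
      decide
    obtain ⟨g, hg⟩ := hact _ hσ
    have e1 : (Equiv.swap i' m * Equiv.swap i' j) i' = j := by
      rw [Equiv.Perm.mul_apply, Equiv.swap_apply_left,
        Equiv.swap_apply_of_ne_of_ne hj' (Ne.symm hm3)]
    have e2 : (Equiv.swap i' m * Equiv.swap i' j) i = i := by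
      rw [Equiv.Perm.mul_apply, Equiv.swap_apply_of_ne_of_ne hne (Ne.symm hj),
        Equiv.swap_apply_of_ne_of_ne hne (Ne.symm hm1)]
    have h1 := hg i
    have h2 := hg i'
    rw [e1] at h2
    rw [e2] at h1
    rw [← h1, ← h2, hii']
  intro a b
  rw [hconst a, hconst b]

section charZero

variable [CharZero k] [IsAlgClosed K]

/-- symmetric expressions of an equivariant family lie in `E` -/
theorem psum_mem' {F E : IntermediateField k K} {n : ℕ} {y z : Fin n → K} (hG : Gen F y)
    (hFE : F ≤ E) (hz : Equi F E y z) (l : ℕ) : ∑ i, z i ^ l ∈ E := by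
  refine mem_of_fixed hG.alg hFE fun g hg => ?_
  rw [map_sum, ← Equiv.sum_comp (piHom hG g) (fun i => z i ^ l)]
  refine Finset.sum_congr rfl fun i _ => ?_
  rw [map_pow, hz g hg _ (piHom_spec hG g) i]

theorem coeff_mem' {F E : IntermediateField k K} {n : ℕ} {y z : Fin n → K} (hG : Gen F y)
    (hFE : F ≤ E) (hz : Equi F E y z) (s : ℕ) :
    (∏ j, (Polynomial.X - Polynomial.C (z j))).coeff s ∈ E := by
  refine mem_of_fixed hG.alg hFE fun g hg => ?_
  have h1 : (∏ j, (Polynomial.X - Polynomial.C (z j))).map (g : K →+* K) =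
      ∏ j, (Polynomial.X - Polynomial.C (z j)) := by
    rw [Polynomial.map_prod,
      ← Equiv.prod_comp (piHom hG g) (fun j => Polynomial.X - Polynomial.C (z j))]
    refine Finset.prod_congr rfl fun j _ => ?_
    rw [Polynomial.map_sub, Polynomial.map_X, Polynomial.map_C]
    congr 2
    exact hz g hg _ (piHom_spec hG g) j
  have h2 := congrArg (fun p => Polynomial.coeff p s) h1
  simp only [Polynomial.coeff_map] at h2
  exact h2

/-- a family which is not constant is injective -/
theorem Equi.injective {F E : IntermediateField k K} {n : ℕ} {y z : Fin n → K} (hG : Gen F y)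
    (hn : 5 ≤ n) (hFE : F ≤ E) (hst : Stab F E) (hz : Equi F E y z) {i₀ : Fin n}
    (hy : y i₀ ∉ E) (h : ∃ i j, z i ≠ z j) : Function.Injective z := by
  by_contra hcon
  obtain ⟨i, j, hij⟩ := h
  refine hij (const_of_act (by omega) (fun σ hσ => ?_) hcon i j)
  obtain ⟨g, hg, hgσ⟩ := exists_lift_even hG hn hFE hst hy σ hσ
  exact ⟨g, fun i => hz g hg σ (fun i => by rw [piHom_spec hG g, hgσ]) i⟩

/-- if an injective equivariant family lies in `E` then so does `y` -/
theorem mem_of_family {F E : IntermediateField k K} {n : ℕ} {y z : Fin n → K} (hG : Gen F y)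
    (hn : 5 ≤ n) (hFE : F ≤ E) (hst : Stab F E) (hz : Equi F E y z)
    (hinj : Function.Injective z) (hzE : ∀ i, z i ∈ E) (i₀ : Fin n) : y i₀ ∈ E := by
  by_contra hy
  have hnt : Nontrivial (alternatingGroup (Fin n)) := by
    apply alternatingGroup.nontrivial_of_three_le_card
    simp
    omega
  obtain ⟨σ, hσ⟩ := exists_ne (1 : alternatingGroup (Fin n))
  obtain ⟨g, hg, hgσ⟩ := exists_lift_even hG hn hFE hst hy σ.1 σ.2
  apply hσ
  apply Subtype.ext
  ext i
  have h1 := hz g hg σ.1 (fun i => by rw [piHom_spec hG g, hgσ]) i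
  rw [hg _ (hzE i)] at h1
  exact congrArg Fin.val (hinj h1).symm

/-- the last step -/
theorem finish {F E : IntermediateField k K} {n m : ℕ} {y z : Fin n → K} (hG : Gen F y)
    (hn : 5 ≤ n) (hFE : F ≤ E) (hst : Stab F E) (hz : Equi F E y z)
    (hinj : Function.Injective z) (hm : m + 2 ≤ n)
    (hp : ∀ l, 1 ≤ l → l ≤ m → ∑ i, z i ^ l = 0) (i₀ : Fin n) :
    y i₀ ∈ next k (n - m - 1) E := by
  have hE : E ≤ next k (n - m - 1) E := le_next (by omega) E
  exact mem_of_family hG hn (hFE.trans hE) (stab_next hst) (hz.mono hE) hinj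
    (fun i => mem_next_of_psum hm z (fun s => coeff_mem' hG hFE hz s) hp i) i₀

end charZero

/-- a nontrivial transformation of trace zero is not constant -/
theorem transform_ne [CharZero K] {n : ℕ} (hn : 0 < n) (x : Fin n → K)
    (hsum : ∑ i, x i = 0) (h0 : ∃ i, x i ≠ 0) : ∃ i j, x i ≠ x j := by
  by_contra hcon
  push Not at hcon
  obtain ⟨i, hi⟩ := h0
  have h1 : (n : K) * x i = 0 := by
    rw [← hsum, Finset.sum_congr rfl fun j _ => hcon j i, Finset.sum_const, Finset.card_univ,
      Fintype.card_fin, nsmul_eq_mul]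
  rcases mul_eq_zero.1 h1 with h | h
  · exact absurd (Nat.cast_eq_zero.1 h) (by omega)
  · exact hi h

/-- a nontrivial polynomial of degree less than `n` does not vanish at `n` points -/
theorem exists_ne_zero_of_inj {n N : ℕ} (hN : N ≤ n) {z : Fin n → K}
    (hinj : Function.Injective z) (c : Fin N → K) (hc : c ≠ 0) :
    ∃ i, ∑ j, c j * z i ^ (j : ℕ) ≠ 0 := by
  classical
  by_contra hcon
  push Not at hcon
  let q : Polynomial K := ∑ j : Fin N, Polynomial.C (c j) * Polynomial.X ^ (j : ℕ)
  have hq : ∀ i, q.eval (z i) = 0 := by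
    intro i
    rw [← hcon i]
    simp [q, Polynomial.eval_finsetSum]
  have hqd : q.degree < n := by
    refine (Polynomial.degree_sum_le _ _).trans_lt ?_
    refine (Finset.sup_lt_iff (WithBot.bot_lt_coe n)).2 ?_
    intro j _
    refine (Polynomial.degree_C_mul_X_pow_le _ _).trans_lt ?_
    have h9 : (j : ℕ) < n := lt_of_lt_of_le j.2 hN
    exact WithBot.coe_lt_coe.2 h9
  have hq0 : q = 0 := by
    refine Polynomial.eq_zero_of_degree_lt_of_eval_finset_eq_zero
      (Finset.univ.image z) ?_ ?_
    · rw [Finset.card_image_of_injective _ hinj, Finset.card_univ, Fintype.card_fin]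
      exact hqd
    · intro w hw
      obtain ⟨i, -, rfl⟩ := Finset.mem_image.1 hw
      exact hq i
  apply hc
  funext j
  have h1 := congrArg (fun p => Polynomial.coeff p (j : ℕ)) hq0
  simp only [q, Polynomial.finsetSum_coeff, Polynomial.coeff_C_mul, Polynomial.coeff_X_pow,
    Polynomial.coeff_zero] at h1
  rw [Finset.sum_eq_single j] at h1
  · simpa using h1
  · intro b _ hb
    rw [if_neg, mul_zero]
    intro h
    exact hb (Fin.ext h.symm)
  · intro h
    exact absurd (Finset.mem_univ _) h

end Pool.Agent.SQT
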