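import Pool.Agent.SQT.Mu

/-!
# SQT-ClsA: class group and units

The elements `x ≠ 0` of `𝓞 K` with `(x) = b c^2` for a fixed ideal `b` are coloured by the ideal class of `c` and the class modulo squares of a
unit; two elements with the same colour have a product which is a square.  The number of colours (the class number times the index of the squares
in the unit group) does not depend on `b`.
-/

set_option autoImplicit false

namespace Pool.Agent.SQT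

open NumberField

private theorem clsA_fin (K : Type) [Field K] [NumberField K] :
    Finite ((𝓞 K)ˣ ⧸ (powMonoidHom 2 : (𝓞 K)ˣ →* (𝓞 K)ˣ).range) := by
  haveI : Group.FG (𝓞 K)ˣ := (Group.fg_iff_monoid_fg).2 inferInstance
  apply CommGroup.finite_of_fg_isMulTorsion
  intro g
  rw [isOfFinOrder_iff_pow_eq_one]
  refine ⟨2, by norm_num, ?_⟩
  induction g using QuotientGroup.induction_on with
  | H z =>
    rw [← QuotientGroup.mk_pow, QuotientGroup.eq_one_iff]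
    exact ⟨z, rfl⟩

private theorem clsA_rel {K : Type} [Field K] [NumberField K] {b c c' : Ideal (𝓞 K)} {x x' : 𝓞 K}
    (hc : c ∈ nonZeroDivisors (Ideal (𝓞 K))) (hc' : c' ∈ nonZeroDivisors (Ideal (𝓞 K)))
    (hx : Ideal.span {x} = b * c ^ 2) (hx' : Ideal.span {x'} = b * c' ^ 2)
    (h : ClassGroup.mk0 ⟨c, hc⟩ = ClassGroup.mk0 ⟨c', hc'⟩) :
    ∃ (u v : 𝓞 K) (e : (𝓞 K)ˣ), u ≠ 0 ∧ v ≠ 0 ∧ u ^ 2 * x * (e : 𝓞 K) = v ^ 2 * x' := by
  rw [ClassGroup.mk0_eq_mk0_iff] at h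
  obtain ⟨u, v, hu, hv, huv⟩ := h
  have h1 : Ideal.span {u ^ 2 * x} = Ideal.span {v ^ 2 * x'} := by
    rw [← Ideal.span_singleton_mul_span_singleton, ← Ideal.span_singleton_mul_span_singleton,
      ← Ideal.span_singleton_pow, ← Ideal.span_singleton_pow, hx, hx']
    have h2 : Ideal.span {u} * c = Ideal.span {v} * c' := huv
    calc Ideal.span {u} ^ 2 * (b * c ^ 2) = b * (Ideal.span {u} * c) ^ 2 := by ring
      _ = b * (Ideal.span {v} * c') ^ 2 := by rw [h2]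
      _ = _ := by ring
  rw [Ideal.span_singleton_eq_span_singleton] at h1
  obtain ⟨e, he⟩ := h1
  exact ⟨u, v, e, hu, hv, he⟩

private theorem clsA_sq {K : Type} [Field K] [NumberField K] {z w a : 𝓞 K} (ha : a ≠ 0)
    (h : a ^ 2 * z = w ^ 2) : IsSquare z := by
  have h1 : a ^ 2 ∣ w ^ 2 := ⟨z, h.symm⟩
  rw [IsIntegrallyClosed.pow_dvd_pow_iff (by norm_num)] at h1
  obtain ⟨t, rfl⟩ := h1
  refine ⟨t, ?_⟩
  have h2 : a ^ 2 * z = a ^ 2 * (t * t) := by rw [h]; ring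
  exact mul_left_cancel₀ (pow_ne_zero 2 ha) h2

theorem clsA (K : Type) [Field K] [NumberField K] :
    ∃ C : ℕ, ∀ b : Ideal (𝓞 K), ∃ col : 𝓞 K → ℕ, (∀ x, col x < C) ∧
      ∀ x y : 𝓞 K, x ≠ 0 → y ≠ 0 → (∃ c : Ideal (𝓞 K), Ideal.span {x} = b * c ^ 2) →
        (∃ c : Ideal (𝓞 K), Ideal.span {y} = b * c ^ 2) → col x = col y → IsSquare (x * y) := by
  classical
  haveI := clsA_fin K
  set Q := (𝓞 K)ˣ ⧸ (powMonoidHom 2 : (𝓞 K)ˣ →* (𝓞 K)ˣ).range with hQ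
  haveI : Fintype Q := Fintype.ofFinite Q
  refine ⟨Fintype.card (ClassGroup (𝓞 K) × Q), fun b => ?_⟩
  set E := Fintype.equivFin (ClassGroup (𝓞 K) × Q) with hE
  -- the class of an element
  have hcls : ∀ x : 𝓞 K, ∃ k : ClassGroup (𝓞 K), x ≠ 0 → (∃ c : Ideal (𝓞 K), Ideal.span {x} = b * c ^ 2) →
      ∃ (c : Ideal (𝓞 K)) (hc : c ∈ nonZeroDivisors (Ideal (𝓞 K))),
        Ideal.span {x} = b * c ^ 2 ∧ ClassGroup.mk0 ⟨c, hc⟩ = k := by
    intro x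
    by_cases hx : x ≠ 0 ∧ ∃ c : Ideal (𝓞 K), Ideal.span {x} = b * c ^ 2
    · obtain ⟨hx0, c, hc⟩ := hx
      have hc0 : c ≠ 0 := by
        rintro rfl
        apply hx0
        rw [← Ideal.span_singleton_eq_bot, hc]
        simp
      have hcm : c ∈ nonZeroDivisors (Ideal (𝓞 K)) := mem_nonZeroDivisors_of_ne_zero hc0
      exact ⟨ClassGroup.mk0 ⟨c, hcm⟩, fun _ _ => ⟨c, hcm, hc, rfl⟩⟩
    · exact ⟨1, fun h1 h2 => absurd ⟨h1, h2⟩ hx⟩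
  choose cls hcls using hcls
  -- the reference elements
  have href : ∀ k : ClassGroup (𝓞 K), ∃ x0 : 𝓞 K, ∀ x : 𝓞 K, x ≠ 0 →
      (∃ c : Ideal (𝓞 K), Ideal.span {x} = b * c ^ 2) → cls x = k →
      ∃ (u v : 𝓞 K) (e : (𝓞 K)ˣ), u ≠ 0 ∧ v ≠ 0 ∧ u ^ 2 * x * (e : 𝓞 K) = v ^ 2 * x0 := by
    intro k
    by_cases hk : ∃ x0 : 𝓞 K, x0 ≠ 0 ∧ (∃ c : Ideal (𝓞 K), Ideal.span {x0} = b * c ^ 2) ∧ cls x0 = k
    · obtain ⟨x0, hx0, hc0, hk0⟩ := hk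
      refine ⟨x0, fun x hx hc hk => ?_⟩
      obtain ⟨c, hcm, h1, h2⟩ := hcls x hx hc
      obtain ⟨c', hcm', h1', h2'⟩ := hcls x0 hx0 hc0
      exact clsA_rel hcm hcm' h1 h1' (by rw [h2, h2', hk, hk0])
    · exact ⟨0, fun x hx hc hk' => absurd ⟨x, hx, hc, hk'⟩ hk⟩
  choose ref href using href
  -- the unit of an element
  have huni : ∀ x : 𝓞 K, ∃ e : (𝓞 K)ˣ, x ≠ 0 → (∃ c : Ideal (𝓞 K), Ideal.span {x} = b * c ^ 2) →
      ∃ (u v : 𝓞 K), u ≠ 0 ∧ v ≠ 0 ∧ u ^ 2 * x * (e : 𝓞 K) = v ^ 2 * ref (cls x) := by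
    intro x
    by_cases hx : x ≠ 0 ∧ ∃ c : Ideal (𝓞 K), Ideal.span {x} = b * c ^ 2
    · obtain ⟨u, v, e, h1, h2, h3⟩ := href (cls x) x hx.1 hx.2 rfl
      exact ⟨e, fun _ _ => ⟨u, v, h1, h2, h3⟩⟩
    · exact ⟨1, fun h1 h2 => absurd ⟨h1, h2⟩ hx⟩
  choose uni huni using huni
  refine ⟨fun x => (E (cls x, ((uni x : (𝓞 K)ˣ) : Q))).val, fun x => (E _).isLt, ?_⟩
  intro x y hx hy hcx hcy hxy
  have h1 : (cls x, ((uni x : (𝓞 K)ˣ) : Q)) = (cls y, ((uni y : (𝓞 K)ˣ) : Q)) :=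
    E.injective (Fin.ext hxy)
  rw [Prod.mk.injEq] at h1
  obtain ⟨h1, h2⟩ := h1
  rw [QuotientGroup.eq] at h2
  obtain ⟨η, hη⟩ := h2
  obtain ⟨u, v, hu, hv, e1⟩ := huni x hx hcx
  obtain ⟨u', v', hu', hv', e2⟩ := huni y hy hcy
  rw [← h1] at e2
  have hη' : (uni y : (𝓞 K)) = (uni x : 𝓞 K) * (η : 𝓞 K) ^ 2 := by
    have h3 : uni y = uni x * η ^ 2 := by
      have h4 : η ^ 2 = (uni x)⁻¹ * uni y := hη
      rw [h4]
      group
    rw [h3]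
    simp
  refine clsA_sq (a := u * u' * (uni x : 𝓞 K) * (η : 𝓞 K)) (w := v * v' * ref (cls x)) ?_ ?_
  · exact mul_ne_zero (mul_ne_zero (mul_ne_zero hu hu') (Units.ne_zero _)) (Units.ne_zero _)
  · rw [hη'] at e2
    calc (u * u' * (uni x : 𝓞 K) * (η : 𝓞 K)) ^ 2 * (x * y)
        = (u ^ 2 * x * (uni x : 𝓞 K)) * (u' ^ 2 * y * ((uni x : 𝓞 K) * (η : 𝓞 K) ^ 2)) := by ring
      _ = (v ^ 2 * ref (cls x)) * (v' ^ 2 * ref (cls x)) := by rw [e1, e2]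
      _ = _ := by ring

end Pool.Agent.SQT
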