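import Pool.Agent.SQT.ClsA

/-!
# SQT-ClsB: few square classes

PLAN.  Let `w ≥ 1` and `Pw` the finite set of prime ideals containing `w` (the prime factors of the ideal `(w) ≠ 0`).  The product of these
distinct prime ideals divides `(w)`, each has `absNorm ≥ 2`, and `absNorm (w) = w^n` with `n = finrank ℚ K` (`Ideal.absNorm_span_singleton`, `Algebra.norm_algebraMap`), so
`2^(card Pw) ≤ w^n`.  For `x ≠ 0` whose multiplicities outside `Pw` are even let `O x ⊆ Pw` be the set of prime ideals with odd multiplicity and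
`b_x = ∏ q ∈ O x, q`; then `(x) = b_x c^2` (`c = ∏ q^(mu q x / 2)`, from the factorization of the ideal `(x)`; all prime factors are maximal, so normalized).  Colour `x` by the pair
(`O x ∩ Pw` as an element of the powerset of `Pw`, i.e. a number `< 2^(card Pw) ≤ w^n`; the colour of `clsA` for `b_x`), coded as a number `< C w^n`
(e.g. with `Finset.equivFin` and `Nat` arithmetic, or `Fintype.card` of a product and `Fintype.equivFin`).
-/

set_option autoImplicit false

namespace Pool.Agent.SQT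

open NumberField

section aux

open UniqueFactorizationMonoid

variable {K : Type} [Field K] [NumberField K]

open Classical in
/-- the prime ideals which contain `w` -/
private noncomputable def Pw (K : Type) [Field K] [NumberField K] (w : ℕ) :
    Finset (Ideal (𝓞 K)) :=
  (normalizedFactors (Ideal.span {(w : 𝓞 K)})).toFinset

private theorem mem_Pw {w : ℕ} (hw : 1 ≤ w) {q : Ideal (𝓞 K)} :
    q ∈ Pw K w ↔ q.IsPrime ∧ q ≠ ⊥ ∧ (w : 𝓞 K) ∈ q := by
  have h0 : Ideal.span {(w : 𝓞 K)} ≠ ⊥ := by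
    rw [Ne, Ideal.span_singleton_eq_bot]
    have : w ≠ 0 := by omega
    exact_mod_cast this
  unfold Pw
  rw [Multiset.mem_toFinset, Ideal.mem_normalizedFactors_iff h0]
  constructor
  · rintro ⟨h1, h2⟩
    refine ⟨h1, ?_, h2 (Ideal.mem_span_singleton_self _)⟩
    rintro rfl
    exact h0 (le_bot_iff.1 h2)
  · rintro ⟨h1, -, h2⟩
    exact ⟨h1, (Ideal.span_singleton_le_iff_mem _).2 h2⟩

private theorem two_le_norm {q : Ideal (𝓞 K)} (hq : q.IsPrime) (h0 : q ≠ ⊥) :
    2 ≤ Ideal.absNorm q := by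
  have h1 : Ideal.absNorm q ≠ 0 := fun h => h0 (Ideal.absNorm_eq_zero_iff.1 h)
  have h2 : Ideal.absNorm q ≠ 1 := fun h => hq.ne_top (Ideal.absNorm_eq_one_iff.1 h)
  omega

private theorem card_Pw {w : ℕ} (hw : 1 ≤ w) :
    2 ^ (Pw K w).card ≤ w ^ Module.finrank ℚ K := by
  classical
  have h0 : Ideal.span {(w : 𝓞 K)} ≠ ⊥ := by
    rw [Ne, Ideal.span_singleton_eq_bot]
    have : w ≠ 0 := by omega
    exact_mod_cast this
  have h1 : ∏ q ∈ Pw K w, q ∣ Ideal.span {(w : 𝓞 K)} := by
    have h2 := Ideal.prod_normalizedFactors_eq_self h0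
    have h3 : (Pw K w).val ≤ normalizedFactors (Ideal.span {(w : 𝓞 K)}) := by
      unfold Pw
      rw [Multiset.toFinset_val]
      exact Multiset.dedup_le _
    have h4 := Multiset.prod_dvd_prod_of_le h3
    rw [h2] at h4
    have h5 : ∏ q ∈ Pw K w, q = (Pw K w).val.prod := by
      rw [Finset.prod, Multiset.map_id']
    rw [h5]
    exact h4
  have h2 : Ideal.absNorm (∏ q ∈ Pw K w, q) ≤ w ^ Module.finrank ℚ K := by
    have h3 := Ideal.absNorm_dvd_absNorm_of_le (Ideal.le_of_dvd h1)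
    rw [Ideal.absNorm_span_natCast, RingOfIntegers.rank] at h3
    exact Nat.le_of_dvd (by positivity) h3
  refine le_trans ?_ h2
  rw [map_prod, ← Finset.prod_const]
  refine Finset.prod_le_prod' fun q hq => ?_
  obtain ⟨h3, h4, -⟩ := (mem_Pw hw).1 hq
  exact two_le_norm h3 h4

open Classical in
/-- prime ideals in `Pw` with odd multiplicity -/
private noncomputable def Ox (w : ℕ) (x : 𝓞 K) : Finset (Ideal (𝓞 K)) :=
  (Pw K w).filter fun q => Odd (mu q x)

private theorem mu_ne {q : Ideal (𝓞 K)} {x : 𝓞 K} : mu q x ≠ 0 ↔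
    q ∈ normalizedFactors (Ideal.span {x}) := by
  classical
  unfold mu
  rw [Ne, Multiset.count_eq_zero, not_not]

private theorem decomp {w : ℕ} (hw : 1 ≤ w) {x : 𝓞 K} (hx : x ≠ 0)
    (h : ∀ q : Ideal (𝓞 K), q.IsPrime → q ≠ ⊥ → (w : 𝓞 K) ∉ q → Even (mu q x)) :
    ∃ c : Ideal (𝓞 K), Ideal.span {x} = (∏ q ∈ Ox w x, q) * c ^ 2 := by
  classical
  have h0 : Ideal.span {x} ≠ ⊥ := by
    rw [Ne, Ideal.span_singleton_eq_bot]
    exact hx
  obtain ⟨F, hF⟩ : ∃ F, F = normalizedFactors (Ideal.span {x}) := ⟨_, rfl⟩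
  have h1 : Ideal.span {x} = ∏ q ∈ F.toFinset, q ^ mu q x := by
    have h2 := Ideal.prod_normalizedFactors_eq_self h0
    rw [← hF, Finset.prod_multiset_count] at h2
    rw [← h2]
    refine Finset.prod_congr rfl fun q _ => ?_
    unfold mu
    rw [← hF]
  refine ⟨∏ q ∈ F.toFinset, q ^ (mu q x / 2), ?_⟩
  have h2 : ∏ q ∈ Ox w x, q = ∏ q ∈ F.toFinset, q ^ (mu q x % 2) := by
    have h3 : Ox w x = F.toFinset.filter fun q => Odd (mu q x) := by
      ext q
      unfold Ox
      rw [Finset.mem_filter, Finset.mem_filter, Multiset.mem_toFinset]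
      constructor
      · rintro ⟨-, h5⟩
        refine ⟨?_, h5⟩
        rw [hF, ← mu_ne]
        intro h6
        rw [h6] at h5
        exact absurd h5 (by decide)
      · rintro ⟨h4, h5⟩
        refine ⟨?_, h5⟩
        rw [hF] at h4
        have h6 := (Ideal.mem_normalizedFactors_iff h0).1 h4
        have h7 : q ≠ ⊥ := by
          rintro rfl
          exact h0 (le_bot_iff.1 h6.2)
        rw [mem_Pw hw]
        refine ⟨h6.1, h7, ?_⟩
        by_contra h8
        exact Nat.not_even_iff_odd.2 h5 (h q h6.1 h7 h8)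
    rw [h3, Finset.prod_filter]
    refine Finset.prod_congr rfl fun q _ => ?_
    by_cases h4 : Odd (mu q x)
    · rw [if_pos h4, Nat.odd_iff.1 h4, pow_one]
    · rw [if_neg h4, Nat.even_iff.1 (Nat.not_odd_iff_even.1 h4), pow_zero]
  rw [h2, h1, ← Finset.prod_pow, ← Finset.prod_mul_distrib]
  refine Finset.prod_congr rfl fun q _ => ?_
  rw [← pow_mul, ← pow_add]
  congr 1
  omega

end aux

theorem clsB (K : Type) [Field K] [NumberField K] :
    ∃ C : ℕ, ∀ w : ℕ, 1 ≤ w → ∃ col : 𝓞 K → ℕ, (∀ x, col x < C * w ^ Module.finrank ℚ K) ∧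
      ∀ x y : 𝓞 K, x ≠ 0 → y ≠ 0 →
        (∀ q : Ideal (𝓞 K), q.IsPrime → q ≠ ⊥ → (w : 𝓞 K) ∉ q → Even (mu q x)) →
        (∀ q : Ideal (𝓞 K), q.IsPrime → q ≠ ⊥ → (w : 𝓞 K) ∉ q → Even (mu q y)) →
        col x = col y → IsSquare (x * y) := by
  classical
  obtain ⟨C, hC⟩ := clsA K
  choose colA hA1 hA2 using hC
  refine ⟨C, fun w hw => ?_⟩
  -- the code of the set of odd primes
  have hmem : ∀ x : 𝓞 K, Ox w x ∈ (Pw K w).powerset := fun x =>
    Finset.mem_powerset.2 (Finset.filter_subset _ _)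
  obtain ⟨code, hcode⟩ : ∃ code : 𝓞 K → ℕ,
      code = fun x => ((Pw K w).powerset.equivFin ⟨Ox w x, hmem x⟩ : ℕ) := ⟨_, rfl⟩
  have hlt : ∀ x, code x < 2 ^ (Pw K w).card := by
    intro x
    rw [hcode, ← Finset.card_powerset]
    exact Fin.is_lt _
  have hinj : ∀ x y, code x = code y → Ox w x = Ox w y := by
    intro x y h
    rw [hcode] at h
    have h1 := (Pw K w).powerset.equivFin.injective (Fin.ext h)
    exact congrArg Subtype.val h1
  refine ⟨fun x => code x * C + colA (∏ q ∈ Ox w x, q) x, fun x => ?_, ?_⟩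
  · have h1 := hA1 (∏ q ∈ Ox w x, q) x
    have h2 := hlt x
    have h3 := card_Pw (K := K) hw
    calc code x * C + colA (∏ q ∈ Ox w x, q) x < code x * C + C := by omega
      _ = (code x + 1) * C := by ring
      _ ≤ w ^ Module.finrank ℚ K * C := Nat.mul_le_mul_right _ (by omega)
      _ = C * w ^ Module.finrank ℚ K := mul_comm _ _
  · intro x y hx hy h1 h2 h
    have h' : code x * C + colA (∏ q ∈ Ox w x, q) x = code y * C + colA (∏ q ∈ Ox w y, q) y := h
    have a1 := hA1 (∏ q ∈ Ox w x, q) x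
    have a2 := hA1 (∏ q ∈ Ox w y, q) y
    have hC0 : 0 < C := by omega
    have b1 : (code x * C + colA (∏ q ∈ Ox w x, q) x) / C = code x := by
      rw [mul_comm, Nat.mul_add_div hC0, Nat.div_eq_of_lt a1, add_zero]
    have b2 : (code y * C + colA (∏ q ∈ Ox w y, q) y) / C = code y := by
      rw [mul_comm, Nat.mul_add_div hC0, Nat.div_eq_of_lt a2, add_zero]
    have hcd : code x = code y := by rw [← b1, h', b2]
    have hO := hinj x y hcd
    have hcol : colA (∏ q ∈ Ox w x, q) x = colA (∏ q ∈ Ox w x, q) y := by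
      rw [hcd, ← hO] at h'
      exact Nat.add_left_cancel h'
    obtain ⟨c, hc⟩ := decomp hw hx h1
    obtain ⟨c', hc'⟩ := decomp hw hy h2
    rw [← hO] at hc'
    exact hA2 _ x y hx hy ⟨c, hc⟩ ⟨c', hc'⟩ hcol

end Pool.Agent.SQT
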