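import Pool.Agent.SQT.Defs

/-!
# SQT-Fm: the first moment (adaptation of `l17_small` in `Helper83/TW/L17`)
-/

set_option autoImplicit false

namespace Pool.Agent.SQT

open Filter Pool.Agent.Helper83.TW

private theorem fm_T (N z : ℕ) (η : ℝ) (hη1 : η ≤ 1) (hN : 2 ≤ N)
    (h2 : 2 ≤ (N : ℝ) ^ (η / 2)) (hz : (z : ℝ) ≤ (N : ℝ) ^ (η / 2)) :
    1 ≤ ⌊(N : ℝ) ^ η⌋₊ ∧ z ≤ ⌊(N : ℝ) ^ η⌋₊ ∧ ⌊(N : ℝ) ^ η⌋₊ ≤ N ∧
      Real.log ((⌊(N : ℝ) ^ η⌋₊ : ℕ) : ℝ) ≤ η * Real.log (N : ℝ) ∧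
      (N : ℝ) ^ (η / 2) ≤ ((⌊(N : ℝ) ^ η⌋₊ : ℕ) : ℝ) := by
  have hN0 : (0 : ℝ) < N := by exact_mod_cast (by omega : 0 < N)
  have hN1 : (1 : ℝ) ≤ N := by exact_mod_cast (by omega : 1 ≤ N)
  set y : ℝ := (N : ℝ) ^ (η / 2) with hy
  have hsq : (N : ℝ) ^ η = y * y := by
    rw [hy, ← Real.rpow_add hN0]
    congr 1
    ring
  have hlt : (N : ℝ) ^ η < ((⌊(N : ℝ) ^ η⌋₊ : ℕ) : ℝ) + 1 := Nat.lt_floor_add_one _
  have hpos : (0 : ℝ) ≤ (N : ℝ) ^ η := (Real.rpow_pos_of_pos hN0 η).le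
  have hle : ((⌊(N : ℝ) ^ η⌋₊ : ℕ) : ℝ) ≤ (N : ℝ) ^ η := Nat.floor_le hpos
  have hyT : y ≤ ((⌊(N : ℝ) ^ η⌋₊ : ℕ) : ℝ) := by
    have : y + 1 ≤ y * y := by nlinarith
    rw [hsq] at hlt ⊢
    linarith
  have hT1 : (1 : ℝ) ≤ ((⌊(N : ℝ) ^ η⌋₊ : ℕ) : ℝ) := by linarith
  refine ⟨by exact_mod_cast hT1, ?_, ?_, ?_, hyT⟩
  · have : (z : ℝ) ≤ ((⌊(N : ℝ) ^ η⌋₊ : ℕ) : ℝ) := hz.trans hyT
    exact_mod_cast this
  · have h3 : (N : ℝ) ^ η ≤ (N : ℝ) ^ (1 : ℝ) := Real.rpow_le_rpow_of_exponent_le hN1 hη1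
    rw [Real.rpow_one] at h3
    have : ((⌊(N : ℝ) ^ η⌋₊ : ℕ) : ℝ) ≤ (N : ℝ) := hle.trans h3
    exact_mod_cast this
  · rw [← Real.log_rpow hN0]
    exact Real.log_le_log (by linarith) hle

private theorem fm_card (f : Polynomial ℤ) (Cf : ℕ)
    (hCf : ∀ (N : ℕ) (P : ℤ × ℤ), P ∈ box N → |form f P| ≤ Cf * (N : ℤ) ^ f.natDegree)
    (N T : ℕ) (η : ℝ) (hη : 0 < η) (hN : 2 ≤ N) (hCN : Cf ≤ N)
    (hT : (N : ℝ) ^ (η / 2) ≤ T) (P : ℤ × ℤ) (hP : P ∈ box N) (h0 : form f P ≠ 0) :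
    ((sfp (form f P)).natAbs.primeFactors.filter (fun p => T < p)).card ≤
      ⌈((f.natDegree : ℝ) + 1) / (η / 2)⌉₊ := by
  have hb : |((sfp (form f P) : ℤ) : ℝ)| ≤ (N : ℝ) ^ (f.natDegree + 1) := by
    have h1 : |sfp (form f P)| ≤ Cf * (N : ℤ) ^ f.natDegree := (sfp_abs_le _).trans (hCf N P hP)
    have h2 : (Cf : ℤ) * (N : ℤ) ^ f.natDegree ≤ (N : ℤ) ^ (f.natDegree + 1) := by
      rw [pow_succ, mul_comm]
      have : (Cf : ℤ) ≤ (N : ℤ) := by exact_mod_cast hCN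
      exact mul_le_mul_of_nonneg_left this (by positivity)
    have h3 : |sfp (form f P)| ≤ (N : ℤ) ^ (f.natDegree + 1) := h1.trans h2
    exact_mod_cast h3
  have h4 := card_rough (sfp (form f P)) (sfp_ne_zero _ h0) N T (f.natDegree + 1) (η / 2)
    (by linarith) hN hT hb
  have h5 : (((sfp (form f P)).natAbs.primeFactors.filter (fun p => T < p)).card : ℝ) ≤
      ((⌈((f.natDegree : ℝ) + 1) / (η / 2)⌉₊ : ℕ) : ℝ) := by
    refine h4.trans ?_
    push_cast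
    exact Nat.le_ceil _
  exact_mod_cast h5

/-- regular points: basic facts -/
private theorem fm_reg {f : Polynomial ℤ} {z G N : ℕ} {P : ℤ × ℤ} (h : P ∈ Reg f z G N) :
    P ∈ box N ∧ P.1 ≠ 0 ∧ 1 ≤ gc P ∧ gc P ≤ G ∧ form f P ≠ 0 := by
  unfold Reg at h
  rw [Finset.mem_filter] at h
  exact ⟨h.1, h.2.1, gc_pos h.2.1, h.2.2.1, h.2.2.2.1⟩

private theorem fm_img {f : Polynomial ℤ} {z G N : ℕ} (S : Finset (ℤ × ℤ))
    (hS : S ⊆ Reg f z G N) : S.image (fun P => sfp (form f P)) ⊆ sfs f N := by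
  intro d hd
  rw [Finset.mem_image] at hd
  obtain ⟨P, hP, rfl⟩ := hd
  obtain ⟨h1, h2, -, -, h5⟩ := fm_reg (hS hP)
  unfold sfs
  exact Finset.mem_image_of_mem _ (Finset.mem_filter.mpr ⟨h1, h2, h5⟩)

/-- the weighted splitting of the bad points -/
private theorem fm_split (N : ℕ) (S : Finset (ℤ × ℤ)) (hS : S ⊆ box N) (g : ℤ × ℤ → ℝ) (L δ : ℝ)
    (hL : 0 < L) (hδ : 0 < δ) (hδ2 : δ ≤ 2) (hg : ∀ P ∈ S, g P ≤ 2 * L)
    (hsum : (2 - δ / 4) * ((N : ℝ) ^ 4 * L) ≤ ∑ P ∈ S, wt N P * g P) (hN : 0 < N) :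
    (3 / 4 : ℝ) * (N : ℝ) ^ 2 ≤ ((S.filter (fun P => (2 - δ) * L ≤ g P)).card : ℝ) := by
  classical
  have hNr : (0 : ℝ) < N := by exact_mod_cast hN
  set S1 := S.filter (fun P => (2 - δ) * L ≤ g P) with hS1
  set S2 := S.filter (fun P => ¬ (2 - δ) * L ≤ g P) with hS2
  have hw : ∀ P ∈ S, 0 ≤ wt N P := fun P hP => wt_nonneg (hS hP)
  have e1 : ∑ P ∈ S, wt N P * g P = ∑ P ∈ S1, wt N P * g P + ∑ P ∈ S2, wt N P * g P :=
    (Finset.sum_filter_add_sum_filter_not S _ _).symm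
  have e2 : ∑ P ∈ S, wt N P = ∑ P ∈ S1, wt N P + ∑ P ∈ S2, wt N P :=
    (Finset.sum_filter_add_sum_filter_not S _ _).symm
  have i1 : ∑ P ∈ S1, wt N P * g P ≤ (∑ P ∈ S1, wt N P) * (2 * L) := by
    rw [Finset.sum_mul]
    refine Finset.sum_le_sum fun P hP => ?_
    have hPS := (Finset.mem_filter.mp hP).1
    exact mul_le_mul_of_nonneg_left (hg P hPS) (hw P hPS)
  have i2 : ∑ P ∈ S2, wt N P * g P ≤ (∑ P ∈ S2, wt N P) * ((2 - δ) * L) := by
    rw [Finset.sum_mul]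
    refine Finset.sum_le_sum fun P hP => ?_
    have hPS := (Finset.mem_filter.mp hP).1
    have h2 := (Finset.mem_filter.mp hP).2
    exact mul_le_mul_of_nonneg_left (not_le.mp h2).le (hw P hPS)
  have i3 : ∑ P ∈ S, wt N P ≤ (N : ℝ) ^ 4 := by
    rw [← sum_wt N]
    exact Finset.sum_le_sum_of_subset_of_nonneg hS fun P hP _ => wt_nonneg hP
  have i4 : ∑ P ∈ S1, wt N P ≤ (S1.card : ℝ) * (N : ℝ) ^ 2 := by
    have : ∑ P ∈ S1, wt N P ≤ ∑ _P ∈ S1, (N : ℝ) ^ 2 :=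
      Finset.sum_le_sum fun P hP => wt_le (hS (Finset.mem_filter.mp hP).1)
    rwa [Finset.sum_const, nsmul_eq_mul] at this
  set W1 := ∑ P ∈ S1, wt N P with hW1
  set W2 := ∑ P ∈ S2, wt N P with hW2
  have hW : W1 + W2 ≤ (N : ℝ) ^ 4 := by rw [← e2]; exact i3
  have h3 : (2 - δ / 4) * ((N : ℝ) ^ 4 * L) ≤ W1 * (2 * L) + W2 * ((2 - δ) * L) := by
    linarith
  have h4 : W1 * (2 * L) + W2 * ((2 - δ) * L) =
      (W1 + W2) * ((2 - δ) * L) + δ * L * W1 := by ring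
  have h5 : (W1 + W2) * ((2 - δ) * L) ≤ (N : ℝ) ^ 4 * ((2 - δ) * L) :=
    mul_le_mul_of_nonneg_right hW (mul_nonneg (by linarith) hL.le)
  have h6 : δ * L * ((3 / 4) * (N : ℝ) ^ 4) ≤ δ * L * W1 := by nlinarith
  have h7 : (3 / 4) * (N : ℝ) ^ 4 ≤ W1 := le_of_mul_le_mul_left h6 (mul_pos hδ hL)
  have h8 : (3 / 4) * (N : ℝ) ^ 2 * (N : ℝ) ^ 2 ≤ (S1.card : ℝ) * (N : ℝ) ^ 2 := by
    have : (3 / 4) * (N : ℝ) ^ 2 * (N : ℝ) ^ 2 = (3 / 4) * (N : ℝ) ^ 4 := by ring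
    rw [this]
    linarith
  exact le_of_mul_le_mul_right h8 (by positivity)

/-- Markov -/
private theorem fm_markov (N : ℕ) (V : ℤ × ℤ → ℝ) (hV : ∀ P ∈ box N, 0 ≤ V P) (A B a : ℝ)
    (ha : 0 < a) (hs : ∑ P ∈ box N, V P ≤ A) (hA : A ≤ a * B) :
    (((box N).filter (fun P => a < V P)).card : ℝ) ≤ B := by
  classical
  have h1 : ∑ P ∈ (box N).filter (fun P => a < V P), a ≤
      ∑ P ∈ (box N).filter (fun P => a < V P), V P :=
    Finset.sum_le_sum fun P hP => (Finset.mem_filter.mp hP).2.le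
  have h2 : ∑ P ∈ (box N).filter (fun P => a < V P), V P ≤ ∑ P ∈ box N, V P :=
    Finset.sum_le_sum_of_subset_of_nonneg (Finset.filter_subset _ _) fun P hP _ => hV P hP
  rw [Finset.sum_const, nsmul_eq_mul] at h1
  have h3 : (((box N).filter (fun P => a < V P)).card : ℝ) * a ≤ B * a := by linarith
  exact le_of_mul_le_mul_right h3 ha

theorem first_moment (f h1 h2 : Polynomial ℤ) (hf : 1 ≤ f.natDegree)
    (hs : (f.map (Int.castRingHom ℚ)).Separable) (hdvd : h1 * h2 ∣ f)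
    (hz1 : ∀ P : ℤ × ℤ, P ≠ 0 → form h1 P ≠ 0)
    (hM : ∀ ε : ℝ, 0 < ε → ∀ z : ℕ, ∃ N₀ : ℕ, ∀ N : ℕ, N₀ ≤ N →
      (2 - ε) * Real.log (N : ℝ) ≤ R h1 z (N ^ 2) + R h2 z N) (z₁ : ℕ) (κ : ℝ) (hκ : 0 < κ)
    (hκ1 : κ ≤ 1 / 2) :
    ∃ (z G k : ℕ) (c : ℝ), z₁ ≤ z ∧ Nice f z ∧ 1 ≤ G ∧ G ≤ z ∧ 0 < c ∧ ∃ N₀ : ℕ, ∀ N : ℕ, N₀ ≤ N →
      c * (N : ℝ) ^ 2 ≤ ((sfs f N).card : ℝ) ∨
      ∃ (T : ℕ) (S : Finset (ℤ × ℤ)), z ≤ T ∧ S ⊆ Reg f z G N ∧ (N : ℝ) ^ 2 / 2 ≤ (S.card : ℝ) ∧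
        ∀ P ∈ S, (N : ℝ) ^ (2 - κ) ≤ (rough T (sfp (form f P)) : ℝ) ∧
          |(sfp (form f P) : ℝ)| ≤ (N : ℝ) ^ κ * (rough T (sfp (form f P)) : ℝ) ∧
          ((sfp (form f P)).natAbs.primeFactors.filter (fun p => T < p)).card ≤ k := by
  classical
  obtain ⟨C, hC, hcore⟩ := core_ineq f h1 h2 hf hdvd hz1
  obtain ⟨z₀, hz₀⟩ := exists_nice f hs
  obtain ⟨Cf, hCf0, hCf⟩ := form_abs_le f
  set r : ℕ := f.natDegree with hr
  set δ : ℝ := κ / 4 with hδ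
  have hδ0 : 0 < δ := by positivity
  set ε : ℝ := δ / (32 * C) with hε
  have hε0 : 0 < ε := by positivity
  obtain ⟨G, z', hG1, hGz', hz₀z', hexc⟩ := exc_small f z₀ hz₀ ε hε0
  set z : ℕ := max z' z₁ with hzdef
  have hz' : z' ≤ z := le_max_left _ _
  have hGz : G ≤ z := hGz'.trans hz'
  have hnice : Nice f z := hz₀ z (hz₀z'.trans hz')
  obtain ⟨N₁, hN₁⟩ := hexc z hz'
  obtain ⟨N₂, hN₂⟩ := hM (δ / 32) (by positivity) z
  have hrr : (0 : ℝ) < (r : ℝ) + 1 := by positivity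
  set η : ℝ := min 1 (min (δ / (32 * C)) (δ / (72 * ((r : ℝ) + 1)))) with hη
  have hη0 : 0 < η := lt_min one_pos (lt_min (by positivity) (by positivity))
  have hη1 : η ≤ 1 := min_le_left _ _
  have hη2 : C * η ≤ δ / 32 := by
    have h3 : η ≤ δ / (32 * C) := (min_le_right _ _).trans (min_le_left _ _)
    calc C * η ≤ C * (δ / (32 * C)) := mul_le_mul_of_nonneg_left h3 hC.le
      _ = δ / 32 := by field_simp
  have hη3 : 18 * ((r : ℝ) + 1) * η ≤ δ / 4 := by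
    have h3 : η ≤ δ / (72 * ((r : ℝ) + 1)) := (min_le_right _ _).trans (min_le_right _ _)
    calc 18 * ((r : ℝ) + 1) * η ≤ 18 * ((r : ℝ) + 1) * (δ / (72 * ((r : ℝ) + 1))) :=
          mul_le_mul_of_nonneg_left h3 (by positivity)
      _ = δ / 4 := by field_simp; ring
  set k : ℕ := ⌈((r : ℝ) + 1) / (η / 2)⌉₊ with hk
  set K : ℝ := (r : ℝ) ^ k * (8 * G * 2) with hK
  have hr1 : (1 : ℝ) ≤ (r : ℝ) := by exact_mod_cast hf
  have hGr : (1 : ℝ) ≤ (G : ℝ) := by exact_mod_cast hG1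
  have hK0 : 0 < K := by
    have : (0 : ℝ) < (r : ℝ) ^ k := pow_pos (by linarith) k
    positivity
  -- largeness conditions
  have tcast : Tendsto (fun N : ℕ => (N : ℝ)) atTop atTop := tendsto_natCast_atTop_atTop
  have tlog : Tendsto (fun N : ℕ => Real.log (N : ℝ)) atTop atTop :=
    Real.tendsto_log_atTop.comp tcast
  have tη : Tendsto (fun N : ℕ => (N : ℝ) ^ (η / 2)) atTop atTop :=
    (tendsto_rpow_atTop (by linarith)).comp tcast
  have tκ : Tendsto (fun N : ℕ => (N : ℝ) ^ (κ - δ)) atTop atTop :=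
    (tendsto_rpow_atTop (by rw [hδ]; linarith)).comp tcast
  have ev : ∀ᶠ N : ℕ in atTop, 2 ≤ N ∧ N₁ ≤ N ∧ N₂ ≤ N ∧ Cf ≤ N ∧
      C * 32 / δ ≤ Real.log (N : ℝ) ∧ 2 ≤ (N : ℝ) ^ (η / 2) ∧ (z : ℝ) ≤ (N : ℝ) ^ (η / 2) ∧
      (primorial z : ℝ) ≤ (N : ℝ) ^ (κ - δ) ∧ 2 * K ≤ (N : ℝ) ^ (κ - δ) := by
    filter_upwards [eventually_ge_atTop 2, eventually_ge_atTop N₁, eventually_ge_atTop N₂,
      eventually_ge_atTop Cf, tlog.eventually_ge_atTop (C * 32 / δ),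
      tη.eventually_ge_atTop 2, tη.eventually_ge_atTop (z : ℝ),
      tκ.eventually_ge_atTop (primorial z : ℝ), tκ.eventually_ge_atTop (2 * K)]
      with N a1 a2 a3 a4 a5 a6 a7 a8 a9
    exact ⟨a1, a2, a3, a4, a5, a6, a7, a8, a9⟩
  obtain ⟨N₀, hN₀⟩ := eventually_atTop.mp ev
  refine ⟨z, G, k, ε / K, le_max_right _ _, hnice, hG1, hGz, by positivity, N₀, fun N hN => ?_⟩
  obtain ⟨a1, a2, a3, a4, a5, a6, a7, a8, a9⟩ := hN₀ N hN
  have hNpos : 0 < N := by omega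
  have hNr : (0 : ℝ) < N := by exact_mod_cast hNpos
  have hNr1 : (1 : ℝ) ≤ N := by exact_mod_cast hNpos
  have hL : 0 < Real.log (N : ℝ) := Real.log_pos (by exact_mod_cast (by omega : 1 < N))
  set L : ℝ := Real.log (N : ℝ) with hLdef
  obtain ⟨t1, t2, t3, t4, t5⟩ := fm_T N z η hη1 a1 a6 a7
  set T : ℕ := ⌊(N : ℝ) ^ η⌋₊ with hT
  have hcardk : ∀ P ∈ Reg f z G N,
      ((sfp (form f P)).natAbs.primeFactors.filter (fun p => T < p)).card ≤ k := by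
    intro P hP
    obtain ⟨b1, -, -, -, b5⟩ := fm_reg hP
    exact fm_card f Cf hCf N T η hη0 a1 a4 t5 P b1 b5
  by_cases hgood : ε * (N : ℝ) ^ 2 ≤ ((Good f z G N T).card : ℝ)
  · -- many good points
    left
    have hsub : Good f z G N T ⊆ Reg f z G N := Finset.filter_subset _ _
    have h3 := card_le_image f z G N T k ((N : ℝ) ^ 2) (by positivity) hnice hf hGz t2 hNpos
      (Good f z G N T) (hsub.trans Reg_sub)
      (fun P hP => ⟨(fm_reg (hsub hP)).2.2.1, (fm_reg (hsub hP)).2.2.2.1⟩)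
      (fun P hP => (fm_reg (hsub hP)).2.2.2.2)
      (fun P hP => hcardk P (hsub hP))
      (fun P hP => by
        have := (Finset.mem_filter.mp hP).2
        exact_mod_cast this)
    have h4 : (N : ℝ) ^ 2 / (N : ℝ) ^ 2 = 1 := div_self (by positivity)
    rw [h4] at h3
    have h5 : (((Good f z G N T).image (fun P => sfp (form f P))).card : ℝ) ≤
        ((sfs f N).card : ℝ) := by
      exact_mod_cast Finset.card_le_card (fm_img _ hsub)
    have h6 : ((Good f z G N T).card : ℝ) ≤ ((sfs f N).card : ℝ) * K := by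
      refine h3.trans ?_
      rw [show (r : ℝ) ^ k * (8 * (G : ℝ) * (1 + 1)) = K by rw [hK]; ring]
      exact mul_le_mul_of_nonneg_right h5 hK0.le
    rw [div_mul_eq_mul_div, div_le_iff₀ hK0]
    linarith
  · right
    have hgood' : ((Good f z G N T).card : ℝ) ≤ ε * (N : ℝ) ^ 2 := (not_le.mp hgood).le
    have hcor := hcore z G hnice hG1 hGz N T a1 t1 t2 t3
    have hMN := hN₂ N a3
    have hE := hN₁ N a2
    have hbsub : Bad f z G N T ⊆ Reg f z G N := Finset.filter_subset _ _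
    -- lower bound for the weighted sum over the bad points
    have hsum : (2 - δ / 4) * ((N : ℝ) ^ 4 * L) ≤
        ∑ P ∈ Bad f z G N T, wt N P * Real.log (rough T (sfp (form f P)) : ℝ) := by
      have j1 : (N : ℝ) ^ 4 * ((2 - δ / 32) * L) ≤ (N : ℝ) ^ 4 * (R h1 z (N ^ 2) + R h2 z N) :=
        mul_le_mul_of_nonneg_left hMN (by positivity)
      have j2 : C * (N : ℝ) ^ 4 ≤ δ / 32 * ((N : ℝ) ^ 4 * L) := by
        have : C ≤ δ / 32 * L := by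
          have h7 : C * 32 / δ * (δ / 32) ≤ L * (δ / 32) :=
            mul_le_mul_of_nonneg_right a5 (by positivity)
          have h8 : C * 32 / δ * (δ / 32) = C := by field_simp
          linarith
        calc C * (N : ℝ) ^ 4 ≤ (δ / 32 * L) * (N : ℝ) ^ 4 :=
              mul_le_mul_of_nonneg_right this (by positivity)
          _ = _ := by ring
      have j3 : C * (N : ℝ) ^ 4 * Real.log (T : ℝ) ≤ δ / 32 * ((N : ℝ) ^ 4 * L) := by
        calc C * (N : ℝ) ^ 4 * Real.log (T : ℝ) ≤ C * (N : ℝ) ^ 4 * (η * L) :=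
              mul_le_mul_of_nonneg_left t4 (by positivity)
          _ = (C * η) * ((N : ℝ) ^ 4 * L) := by ring
          _ ≤ _ := mul_le_mul_of_nonneg_right hη2 (by positivity)
      have j4 : C * (N : ℝ) ^ 2 * L * (((Exc f z G N).card : ℝ) + ((Good f z G N T).card : ℝ)) ≤
          δ / 16 * ((N : ℝ) ^ 4 * L) := by
        calc C * (N : ℝ) ^ 2 * L * (((Exc f z G N).card : ℝ) + ((Good f z G N T).card : ℝ))
            ≤ C * (N : ℝ) ^ 2 * L * (ε * (N : ℝ) ^ 2 + ε * (N : ℝ) ^ 2) :=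
              mul_le_mul_of_nonneg_left (add_le_add hE hgood') (by positivity)
          _ = (C * ε) * (2 * ((N : ℝ) ^ 4 * L)) := by ring
          _ = δ / 16 * ((N : ℝ) ^ 4 * L) := by
              rw [hε]
              field_simp
              ring
      have j5 : 0 ≤ δ * ((N : ℝ) ^ 4 * L) := by positivity
      nlinarith
    have hroughpos : ∀ P, (0 : ℝ) < (rough T (sfp (form f P)) : ℝ) := by
      intro P
      exact_mod_cast rough_pos T (sfp (form f P))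
    have hlog2 : ∀ P ∈ Bad f z G N T, Real.log (rough T (sfp (form f P)) : ℝ) ≤ 2 * L := by
      intro P hP
      have h3 : rough T (sfp (form f P)) < N ^ 2 := (Finset.mem_filter.mp hP).2
      have h4 : (rough T (sfp (form f P)) : ℝ) ≤ (N : ℝ) ^ 2 := by exact_mod_cast h3.le
      have h5 : Real.log (rough T (sfp (form f P)) : ℝ) ≤ Real.log ((N : ℝ) ^ 2) :=
        Real.log_le_log (hroughpos P) h4
      rw [Real.log_pow] at h5
      exact_mod_cast h5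
    have hB1 := fm_split N (Bad f z G N T) (hbsub.trans Reg_sub)
      (fun P => Real.log (rough T (sfp (form f P)) : ℝ)) L δ hL hδ0 (by linarith) hlog2 hsum hNpos
    set Bad1 := (Bad f z G N T).filter
      (fun P => (2 - δ) * L ≤ Real.log (rough T (sfp (form f P)) : ℝ)) with hBad1
    have hV := fm_markov N (fun P => V f z T P) (fun P _ => V_nonneg f z T P)
      (18 * ((r : ℝ) + 1) * (N : ℝ) ^ 2 * Real.log (T : ℝ)) ((N : ℝ) ^ 2 / 4) (δ * L)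
      (mul_pos hδ0 hL) (V_mean f z N T hnice t1 t3) (by
        calc 18 * ((r : ℝ) + 1) * (N : ℝ) ^ 2 * Real.log (T : ℝ)
            ≤ 18 * ((r : ℝ) + 1) * (N : ℝ) ^ 2 * (η * L) :=
              mul_le_mul_of_nonneg_left t4 (by positivity)
          _ = (18 * ((r : ℝ) + 1) * η) * ((N : ℝ) ^ 2 * L) := by ring
          _ ≤ (δ / 4) * ((N : ℝ) ^ 2 * L) := mul_le_mul_of_nonneg_right hη3 (by positivity)
          _ = δ * L * ((N : ℝ) ^ 2 / 4) := by ring)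
    set S := Bad1.filter (fun P => V f z T P ≤ δ * L) with hSdef
    have hSc : (N : ℝ) ^ 2 / 2 ≤ (S.card : ℝ) := by
      have h3 : Bad1 ⊆ S ∪ (box N).filter (fun P => δ * L < V f z T P) := by
        intro P hP
        by_cases hv : V f z T P ≤ δ * L
        · exact Finset.mem_union_left _ (Finset.mem_filter.mpr ⟨hP, hv⟩)
        · refine Finset.mem_union_right _ (Finset.mem_filter.mpr ⟨?_, not_le.mp hv⟩)
          exact Reg_sub (hbsub (Finset.mem_filter.mp hP).1)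
      have h4 : Bad1.card ≤ S.card + ((box N).filter (fun P => δ * L < V f z T P)).card :=
        (Finset.card_le_card h3).trans (Finset.card_union_le _ _)
      have h5 : (Bad1.card : ℝ) ≤
          (S.card : ℝ) + (((box N).filter (fun P => δ * L < V f z T P)).card : ℝ) := by
        exact_mod_cast h4
      linarith
    have hSsub : S ⊆ Reg f z G N := fun P hP =>
      hbsub (Finset.mem_filter.mp (Finset.mem_filter.mp hP).1).1
    have hMr : ∀ P ∈ S, (N : ℝ) ^ (2 - δ) ≤ (rough T (sfp (form f P)) : ℝ) := by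
      intro P hP
      have h3 : (2 - δ) * L ≤ Real.log (rough T (sfp (form f P)) : ℝ) :=
        (Finset.mem_filter.mp (Finset.mem_filter.mp hP).1).2
      rw [← Real.log_rpow hNr] at h3
      exact (Real.log_le_log_iff (Real.rpow_pos_of_pos hNr _) (hroughpos P)).mp h3
    refine ⟨T, S, t2, hSsub, hSc, fun P hP => ⟨?_, ?_, hcardk P (hSsub hP)⟩⟩
    · refine le_trans ?_ (hMr P hP)
      exact Real.rpow_le_rpow_of_exponent_le hNr1 (by rw [hδ]; linarith)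
    · have h0 := (fm_reg (hSsub hP)).2.2.2.2
      have h3 := sfp_abs_le_rough f z T P t2 h0
      have h5 : Real.exp (V f z T P) ≤ (N : ℝ) ^ δ := by
        have h6 : V f z T P ≤ δ * L := (Finset.mem_filter.mp hP).2
        rw [Real.rpow_def_of_pos hNr]
        exact Real.exp_le_exp.mpr (by linarith)
      refine h3.trans ?_
      have h7 : (N : ℝ) ^ κ = (N : ℝ) ^ (κ - δ) * (N : ℝ) ^ δ := by
        rw [← Real.rpow_add hNr]
        congr 1
        ring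
      rw [h7, mul_assoc, mul_comm ((N : ℝ) ^ (κ - δ) * (N : ℝ) ^ δ)]
      refine mul_le_mul_of_nonneg_left ?_ (hroughpos P).le
      exact mul_le_mul a8 h5 (Real.exp_pos _).le (by positivity)

end Pool.Agent.SQT
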