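import Pool.Agent.SQT.Defs

/-!
# SQT-GenX: every irreducible integer polynomial has the data `Gen`

`K = ℚ[X]/(f)`, `θ` the root, `c = f.leadingCoeff`, and `a = c θ` is an algebraic integer.  The discriminant `M` of the power basis of
`a` gives `M 𝓞 K ⊆ ℤ[a]`; `scaleRoots f c` has `a` as a root and the degree `n` of `minpoly ℤ a`, so it is `c` times `minpoly ℤ a`.
-/

set_option autoImplicit false

namespace Pool.Agent.SQT

open NumberField Pool.Agent.Helper83.TW

/-- A root of `f` generating a number field gives the data. -/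
private theorem gen_of_root (f : Polynomial ℤ) (hirr : Irreducible (f.map (Int.castRingHom ℚ)))
    (K : Type) [Field K] [NumberField K] (θ : K) (hθ : Polynomial.aeval θ f = 0)
    (hgen : IntermediateField.adjoin ℚ {θ} = ⊤) :
    ∃ (a : 𝓞 K) (M : ℤ), Gen f K a M := by
  classical
  have hf0 : f ≠ 0 := by
    rintro rfl
    simp at hirr
  set c : ℤ := f.leadingCoeff with hc
  have hc0 : c ≠ 0 := by simpa [hc] using hf0
  have hint : IsIntegral ℤ (c • θ) := isIntegral_leadingCoeff_smul f θ hθ
  obtain ⟨a, ha⟩ : ∃ a : 𝓞 K, (a : K) = c • θ := ⟨⟨c • θ, hint⟩, rfl⟩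
  have hadj : IntermediateField.adjoin ℚ {(a : K)} = ⊤ := by
    rw [eq_top_iff, ← hgen, IntermediateField.adjoin_le_iff, Set.singleton_subset_iff]
    have h1 : (a : K) ∈ IntermediateField.adjoin ℚ {(a : K)} :=
      IntermediateField.mem_adjoin_simple_self ℚ _
    have h2 : ((c : ℚ)⁻¹) • (a : K) ∈ IntermediateField.adjoin ℚ {(a : K)} :=
      IntermediateField.smul_mem _ h1
    have h3 : ((c : ℚ)⁻¹) • (a : K) = θ := by
      rw [ha, ← Int.cast_smul_eq_zsmul ℚ, smul_smul, inv_mul_cancel₀ (by exact_mod_cast hc0),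
        one_smul]
    rwa [h3] at h2
  have hinta : IsIntegral ℚ (a : K) := Algebra.IsIntegral.isIntegral _
  have hadj' : Algebra.adjoin ℚ {(a : K)} = ⊤ := by
    have := IntermediateField.adjoin_simple_toSubalgebra_of_isAlgebraic (hinta.isAlgebraic)
    rw [← this, hadj]; rfl
  let B : PowerBasis ℚ K := PowerBasis.ofAdjoinEqTop hinta hadj'
  have hBgen : B.gen = (a : K) := rfl
  have hBint : IsIntegral ℤ B.gen := by rw [hBgen]; exact a.2
  have hdint : IsIntegral ℤ (Algebra.discr ℚ B.basis) := by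
    apply Algebra.discr_isIntegral
    intro i
    rw [B.basis_eq_pow]
    exact hBint.pow _
  obtain ⟨M, hM⟩ := IsIntegrallyClosed.isIntegral_iff.1 hdint
  have hM0 : M ≠ 0 := by
    rintro rfl
    have := Algebra.discr_not_zero_of_basis ℚ B.basis
    rw [← hM] at this
    simp at this
  have hmem : ∀ x : 𝓞 K, (M : 𝓞 K) * x ∈ Algebra.adjoin ℤ {a} := by
    intro x
    have h1 := Algebra.discr_mul_isIntegral_mem_adjoin (R := ℤ) (K := ℚ) (L := K) hBint
      (z := (x : K)) x.2
    rw [← hM, hBgen] at h1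
    have h2 : ((algebraMap ℤ ℚ) M) • (x : K) = algebraMap (𝓞 K) K ((M : 𝓞 K) * x) := by
      simp [Algebra.smul_def]
    rw [h2] at h1
    have h3 : Algebra.adjoin ℤ {(a : K)} =
        (Algebra.adjoin ℤ {a}).map (Algebra.ofId (𝓞 K) K |>.restrictScalars ℤ) := by
      rw [AlgHom.map_adjoin]
      simp [Algebra.ofId_apply]
    rw [h3, Subalgebra.mem_map] at h1
    obtain ⟨y, hy, hxy⟩ := h1
    have h4 : y = (M : 𝓞 K) * x := by
      apply FaithfulSMul.algebraMap_injective (𝓞 K) K
      exact hxy
    rwa [← h4]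
  -- degrees
  have hθint : IsIntegral ℚ θ := Algebra.IsIntegral.isIntegral _
  have hfin1 : Module.finrank ℚ K = (minpoly ℚ θ).natDegree := by
    rw [← IntermediateField.adjoin.finrank hθint, hgen]
    exact (IntermediateField.finrank_top' ).symm
  have hfin2 : Module.finrank ℚ K = (minpoly ℚ (a : K)).natDegree := by
    rw [← IntermediateField.adjoin.finrank hinta, hadj]
    exact (IntermediateField.finrank_top' ).symm
  have hmapaev : Polynomial.aeval θ (f.map (Int.castRingHom ℚ)) = 0 := by
    have h1 := Polynomial.aeval_map_algebraMap ℚ θ f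
    rw [hθ] at h1
    exact h1
  have hdegf : (minpoly ℚ θ).natDegree = f.natDegree := by
    have h1 : (minpoly ℚ θ) = f.map (Int.castRingHom ℚ) *
        Polynomial.C (f.map (Int.castRingHom ℚ)).leadingCoeff⁻¹ :=
      (minpoly.eq_of_irreducible hirr hmapaev).symm
    have h2 : (f.map (Int.castRingHom ℚ)).leadingCoeff⁻¹ ≠ 0 :=
      inv_ne_zero (Polynomial.leadingCoeff_ne_zero.2 hirr.ne_zero)
    rw [h1, Polynomial.natDegree_mul_C h2]
    exact Polynomial.natDegree_map_eq_of_injective (RingHom.injective_int _) f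
  have hdeg : Module.finrank ℚ K = f.natDegree := by rw [hfin1, hdegf]
  have haint : IsIntegral ℤ a := Algebra.IsIntegral.isIntegral _
  have hdega : (minpoly ℤ a).natDegree = f.natDegree := by
    have h1 : minpoly ℚ (a : K) = (minpoly ℤ a).map (algebraMap ℤ ℚ) := by
      rw [← minpoly.isIntegrallyClosed_eq_field_fractions ℚ K haint]
    rw [← hdeg, hfin2, h1]
    exact (Polynomial.natDegree_map_eq_of_injective
      (FaithfulSMul.algebraMap_injective ℤ ℚ) _).symm
  -- the minimal polynomial
  have hroot : Polynomial.aeval a (Polynomial.scaleRoots f c) = 0 := by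
    have h1 : Polynomial.aeval (a : K) (Polynomial.scaleRoots f c) = 0 := by
      have := Polynomial.scaleRoots_aeval_eq_zero (r := c) hθ
      rwa [ha, zsmul_eq_mul]
    apply FaithfulSMul.algebraMap_injective (𝓞 K) K
    rw [map_zero, ← Polynomial.aeval_algebraMap_apply]
    exact h1
  obtain ⟨q, hq⟩ := minpoly.isIntegrallyClosed_dvd haint hroot
  have hmonic : (minpoly ℤ a).Monic := minpoly.monic haint
  have hs0 : Polynomial.scaleRoots f c ≠ 0 := Polynomial.scaleRoots_ne_zero hf0 c
  have hq0 : q ≠ 0 := by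
    rintro rfl
    rw [mul_zero] at hq
    exact hs0 hq
  have hqdeg : q.natDegree = 0 := by
    have h1 := Polynomial.natDegree_scaleRoots f c
    rw [hq, hmonic.natDegree_mul' hq0, hdega] at h1
    omega
  obtain ⟨d, hd⟩ := Polynomial.natDegree_eq_zero.1 hqdeg
  have hlead : (Polynomial.scaleRoots f c).leadingCoeff = c := by
    rw [Polynomial.leadingCoeff, Polynomial.natDegree_scaleRoots, Polynomial.coeff_scaleRoots_natDegree]
  have hdc : d = c := by
    rw [hq, ← hd, mul_comm, Polynomial.leadingCoeff_mul, hmonic.leadingCoeff, mul_one,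
      Polynomial.leadingCoeff_C] at hlead
    exact hlead
  refine ⟨a, M, ⟨hc0, ?_, hM0, hmem, hdeg, hirr⟩⟩
  rw [← hc, hq, ← hd, hdc, mul_comm]

theorem exists_gen (f : Polynomial ℤ) (hf : 1 ≤ f.natDegree)
    (hirr : Irreducible (f.map (Int.castRingHom ℚ))) :
    ∃ (K : Type) (_ : Field K) (_ : NumberField K) (a : 𝓞 K) (M : ℤ), Gen f K a M := by
  classical
  have _ := hf
  let P : Polynomial ℚ := f.map (Int.castRingHom ℚ)
  have hP : Fact (Irreducible P) := ⟨hirr⟩
  let K := AdjoinRoot P
  have hchar : CharZero K := charZero_of_injective_algebraMap (algebraMap ℚ K).injective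
  have hsub : (DivisionRing.toRatAlgebra : Algebra ℚ K) = AdjoinRoot.instAlgebra P :=
    Subsingleton.elim _ _
  have hfd : @FiniteDimensional ℚ K _ _ (@Algebra.toModule ℚ K _ _ DivisionRing.toRatAlgebra) := by
    rw [hsub]
    exact (AdjoinRoot.powerBasis hirr.ne_zero).finite
  have hNF : NumberField K := @NumberField.mk K _ hchar hfd
  have hroot : @Polynomial.aeval ℤ K _ _ _ (AdjoinRoot.root P) f = 0 := by
    have h1 : Polynomial.eval₂ (AdjoinRoot.of P) (AdjoinRoot.root P) P = 0 := AdjoinRoot.eval₂_root P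
    rw [Polynomial.eval₂_map] at h1
    rw [Polynomial.aeval_def, ← h1]
    congr 1
  have hgen : @IntermediateField.adjoin ℚ _ K _ DivisionRing.toRatAlgebra {AdjoinRoot.root P} = ⊤ := by
    rw [hsub]
    have h1 : Algebra.adjoin ℚ ({AdjoinRoot.root P} : Set K) = ⊤ := AdjoinRoot.adjoinRoot_eq_top
    rw [eq_top_iff]
    intro x _
    have h2 : x ∈ Algebra.adjoin ℚ ({AdjoinRoot.root P} : Set K) := h1 ▸ Algebra.mem_top
    exact IntermediateField.algebra_adjoin_le_adjoin ℚ _ h2
  obtain ⟨a, M, h⟩ := gen_of_root f hirr K (AdjoinRoot.root P) hroot hgen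
  exact ⟨K, inferInstance, hNF, a, M, h⟩

end Pool.Agent.SQT
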