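import Pool.Agent.SQT.Defs

/-!
# SQT-Pig: many points with the same squarefree part contain an independent tuple with divisible determinants

PLAN.  Let `n = natDegree f`, `L = d.natAbs.primeFactors.filter (T < ·)` (`card ≤ k`).  For `P ∈ S` and `p ∈ L`: `p > T ≥ z ≥ G`, `p ∣ d ∣ form f P` (`sfp_dvd`), so by `not_dvd_both` and `point_root`
there is `t ∈ rts f p` with `p ∣ P.1 - t P.2`; choose it: a map from `S` to `L.pi (rts f ·)` (`Finset.pi`, of cardinality `∏ card (rts f p) ≤ n^k` by `card_rts_le` with `Nice.lead`; `1 ≤ n`; see also the proof of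
`card_fiber_le` in `Helper83/TW/L10`).  By `hcard` and the pigeonhole principle (`Finset.exists_lt_card_fiber_of_mul_lt_card_of_maps_to`) some fibre `S'` has more than `2 G m` elements.  For `P, Q ∈ S'` and `p ∈ L`: `p ∣ dt P Q`
(`det_of_root`), so `rough T d = ∏ L` divides `dt P Q` (distinct primes: `Finset.prod_primes_dvd` or coprimality).
Independent points: choose a subset `I ⊆ S'` maximal (by cardinality) with pairwise nonzero determinants.  Every element of `S'` has determinant zero with some element of `I`, and for a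
fixed `Q ≠ 0` at most `2 G` points `P` with `dt P Q = 0`, `1 ≤ gc P ≤ G` exist (`P = ± (gc P) Q/(gc Q)`, so `P` is determined by `gc P` and a sign; see also `inj_aux` in `Helper83/TW/L02`).  So `|S'| ≤ 2 G |I|`, `|I| > m`:
take `m` (or more) distinct elements of `I` (`Finset.exists_subset_card_eq`, `Finset.equivFin`).
-/

set_option autoImplicit false

namespace Pool.Agent.SQT

open Pool.Agent.Helper83.TW

private def PInd (I : Finset (ℤ × ℤ)) : Prop := ∀ P ∈ I, ∀ Q ∈ I, P ≠ Q → dt P Q ≠ 0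

private theorem pg_eq {P Q : ℤ × ℤ} (hP : P.1 ≠ 0) (hQ : Q.1 ≠ 0) (h : dt P Q = 0)
    (hg : gc P = gc Q) (hs : P.1.sign = Q.1.sign) : P = Q := by
  have h1 : P.1 * Q.2 = Q.1 * P.2 := by
    unfold dt at h
    linarith
  have hg0 : 0 < gc P := gc_pos hP
  have h2 : Int.gcd (P.1 * Q.1) (P.1 * Q.2) = P.1.natAbs * gc Q := Int.gcd_mul_left _ _ _
  have h3 : Int.gcd (Q.1 * P.1) (Q.1 * P.2) = Q.1.natAbs * gc P := Int.gcd_mul_left _ _ _
  rw [h1, mul_comm P.1 Q.1, h3, hg] at h2
  have h4 : Q.1.natAbs = P.1.natAbs := Nat.eq_of_mul_eq_mul_right (hg ▸ hg0) h2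
  have h5 : P.1 = Q.1 := by
    rw [← Int.sign_mul_natAbs P.1, ← Int.sign_mul_natAbs Q.1, hs, h4]
  refine Prod.ext h5 ?_
  rw [h5] at h1
  exact (mul_left_cancel₀ hQ h1).symm

private theorem pg_card (G : ℕ) (Q : ℤ × ℤ) (hQ : Q.1 ≠ 0) (A : Finset (ℤ × ℤ))
    (hA : ∀ P ∈ A, P.1 ≠ 0 ∧ gc P ≤ G ∧ dt P Q = 0) : A.card ≤ 2 * G := by
  classical
  have h1 : A.card ≤ (Finset.Icc 1 G ×ˢ ({1, -1} : Finset ℤ)).card := by
    refine Finset.card_le_card_of_injOn (fun P => (gc P, P.1.sign)) ?_ ?_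
    · intro P hP
      obtain ⟨h1, h2, -⟩ := hA P hP
      rw [Finset.mem_coe, Finset.mem_product, Finset.mem_Icc, Finset.mem_insert,
        Finset.mem_singleton]
      refine ⟨⟨gc_pos h1, h2⟩, ?_⟩
      rcases lt_or_gt_of_ne h1 with h | h
      · exact Or.inr (Int.sign_eq_neg_one_of_neg h)
      · exact Or.inl (Int.sign_eq_one_of_pos h)
    · intro P hP P' hP' h
      obtain ⟨h1, h2, h3⟩ := hA P hP
      obtain ⟨h1', h2', h3'⟩ := hA P' hP'
      rw [Prod.mk.injEq] at h
      refine pg_eq h1 h1' ?_ h.1 h.2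
      have h4 : Q.1 * dt P P' = 0 := by
        unfold dt at h3 h3' ⊢
        linear_combination P'.1 * h3 - P.1 * h3'
      exact (mul_eq_zero.1 h4).resolve_left hQ
  rw [Finset.card_product, Nat.card_Icc] at h1
  have h2 : ({1, -1} : Finset ℤ).card = 2 := rfl
  rw [h2] at h1
  omega

theorem pig (f : Polynomial ℤ) (hf : 1 ≤ f.natDegree) {z G N T k : ℕ} (m : ℕ) (hN : Nice f z)
    (hG1 : 1 ≤ G) (hG : G ≤ z) (hzT : z ≤ T) (d : ℤ) (hd : d ≠ 0) (S : Finset (ℤ × ℤ))
    (hS : ∀ P ∈ S, P ∈ Reg f z G N ∧ sfp (form f P) = d)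
    (hk : (d.natAbs.primeFactors.filter (fun p => T < p)).card ≤ k)
    (hcard : f.natDegree ^ k * (2 * G * m) < S.card) :
    ∃ P : Fin m → ℤ × ℤ, (∀ i, P i ∈ S) ∧ (∀ i j, i ≠ j → dt (P i) (P j) ≠ 0) ∧
      ∀ i j, (rough T d : ℤ) ∣ dt (P i) (P j) := by
  classical
  set L := d.natAbs.primeFactors.filter (fun p => T < p) with hL
  have hLp : ∀ p ∈ L, p.Prime ∧ z < p := by
    intro p hp
    obtain ⟨hp1, hp2⟩ := Finset.mem_filter.1 hp
    exact ⟨Nat.prime_of_mem_primeFactors hp1, lt_of_le_of_lt hzT hp2⟩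
  have hReg : ∀ P ∈ S, P.1 ≠ 0 ∧ gc P ≤ G := by
    intro P hP
    have h1 := (Finset.mem_filter.1 (hS P hP).1).2
    exact ⟨h1.1, h1.2.1⟩
  have hex : ∀ P ∈ S, ∀ p ∈ L, ∃ t ∈ rts f p, (p : ℤ) ∣ P.1 - (t : ℤ) * P.2 := by
    intro P hP p hp
    have h1 := not_dvd_both (gc_pos (hReg P hP).1) (hReg P hP).2
      (lt_of_le_of_lt hG (hLp p hp).2)
    have h2 : (p : ℤ) ∣ d :=
      Int.natCast_dvd.2 (Nat.dvd_of_mem_primeFactors (Finset.mem_filter.1 hp).1)
    have h3 : d ∣ form f P := by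
      rw [← (hS P hP).2]
      exact sfp_dvd _
    exact (point_root hN (hLp p hp).1 (hLp p hp).2 h1 (h2.trans h3)).2
  choose! τ hτ1 hτ2 using hex
  have hmaps : ∀ P ∈ S, (fun (p : ℕ) (_ : p ∈ L) => τ P p) ∈ L.pi (fun p => rts f p) := by
    intro P hP
    rw [Finset.mem_pi]
    intro p hp
    exact hτ1 P hP p hp
  have hpi : (L.pi (fun p => rts f p)).card * (2 * G * m) < S.card := by
    refine lt_of_le_of_lt (Nat.mul_le_mul_right _ ?_) hcard
    rw [Finset.card_pi]
    have h5 : ∏ p ∈ L, (rts f p).card ≤ f.natDegree ^ L.card := by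
      refine Finset.prod_le_pow_card _ _ _ ?_
      intro p hp
      exact card_rts_le f p (hLp p hp).1 (hN.lead p (hLp p hp).1 (hLp p hp).2)
    exact h5.trans (Nat.pow_le_pow_right hf hk)
  obtain ⟨g, -, hg⟩ := Finset.exists_lt_card_fiber_of_mul_lt_card_of_maps_to hmaps hpi
  set S' := S.filter (fun P => (fun (p : ℕ) (_ : p ∈ L) => τ P p) = g) with hS'
  have hdiv : ∀ P ∈ S', ∀ Q ∈ S', (rough T d : ℤ) ∣ dt P Q := by
    intro P hP Q hQ
    obtain ⟨hPS, hPg⟩ := Finset.mem_filter.1 hP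
    obtain ⟨hQS, hQg⟩ := Finset.mem_filter.1 hQ
    have e0 : (rough T d : ℤ) = ∏ p ∈ L, (p : ℤ) := by
      unfold rough
      rw [Nat.cast_prod]
    rw [e0]
    refine Finset.prod_dvd_of_coprime ?_ ?_
    · intro p hp p' hp' hne
      exact Nat.isCoprime_iff_coprime.2 ((Nat.coprime_primes (hLp p hp).1 (hLp p' hp').1).2 hne)
    · intro p hp
      have e : τ P p = τ Q p := by
        have h3 := hPg.trans hQg.symm
        exact congrFun (congrFun h3 p) hp
      have h1 := hτ2 P hPS p hp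
      have h2 := hτ2 Q hQS p hp
      rw [← e] at h2
      exact det_of_root h1 h2
  obtain ⟨I, hI, hmax⟩ := Finset.exists_max_image
    (S'.powerset.filter PInd) Finset.card
    ⟨∅, Finset.mem_filter.2 ⟨Finset.empty_mem_powerset _, fun P hP => by simp at hP⟩⟩
  obtain ⟨hI1, hI2⟩ := Finset.mem_filter.1 hI
  rw [Finset.mem_powerset] at hI1
  have hcov : S' ⊆ I.biUnion fun Q => S'.filter fun P => dt P Q = 0 := by
    intro P hP
    rw [Finset.mem_biUnion]
    by_contra hcon
    push Not at hcon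
    have h1 : ∀ Q ∈ I, dt P Q ≠ 0 := fun Q hQ h =>
      hcon Q hQ (Finset.mem_filter.2 ⟨hP, h⟩)
    have h2 : P ∉ I := fun h => h1 P h (dt_self P)
    have h3 := hmax (insert P I) (Finset.mem_filter.2 ⟨Finset.mem_powerset.2
      (Finset.insert_subset hP hI1), by
        intro A hA B hB hAB
        rcases Finset.mem_insert.1 hA with hA | hA
        · rcases Finset.mem_insert.1 hB with hB | hB
          · exact absurd (hA.trans hB.symm) hAB
          · rw [hA]
            exact h1 B hB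
        · rcases Finset.mem_insert.1 hB with hB | hB
          · rw [hB, dt_swap]
            exact neg_ne_zero.2 (h1 A hA)
          · exact hI2 A hA B hB hAB⟩)
    rw [Finset.card_insert_of_notMem h2] at h3
    omega
  have hcI : S'.card ≤ I.card * (2 * G) := by
    refine (Finset.card_le_card hcov).trans (Finset.card_biUnion_le_card_mul _ _ _ ?_)
    intro Q hQ
    refine pg_card G Q (hReg Q (Finset.mem_filter.1 (hI1 hQ)).1).1 _ fun P hP => ?_
    obtain ⟨h1, h2⟩ := Finset.mem_filter.1 hP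
    have h3 := hReg P (Finset.mem_filter.1 h1).1
    exact ⟨h3.1, h3.2, h2⟩
  have hmI : m ≤ I.card := by
    by_contra hcon
    push Not at hcon
    have h1 : I.card * (2 * G) ≤ m * (2 * G) := Nat.mul_le_mul_right _ hcon.le
    have h2 : 2 * G * m = m * (2 * G) := by ring
    omega
  refine ⟨fun i => (I.equivFin.symm ⟨i, lt_of_lt_of_le i.2 hmI⟩).1, ?_, ?_, ?_⟩
  · intro i
    exact (Finset.mem_filter.1 (hI1 (I.equivFin.symm ⟨i, lt_of_lt_of_le i.2 hmI⟩).2)).1
  · intro i j hij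
    refine hI2 _ (I.equivFin.symm _).2 _ (I.equivFin.symm _).2 fun h => hij ?_
    have h1 := I.equivFin.symm.injective (Subtype.ext h)
    exact Fin.ext (Fin.mk.inj h1)
  · intro i j
    exact hdiv _ (hI1 (I.equivFin.symm _).2) _ (hI1 (I.equivFin.symm _).2)

end Pool.Agent.SQT
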