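import Pool.Agent.SQT.Par
import Pool.Agent.SQT.Pig
import Pool.Agent.SQT.Fm
import Pool.Agent.SQT.GenX

/-!
# SQT-Core: many squarefree parts of the values of an irreducible form of even degree

PLAN.  `exists_gen` gives `K, a, M`.  `m = 24 n^2 - 2`, `A = 2 (m + 1) + 1 + n (m + 1)`, `κ = 1/(4 (A + 2))`, `z₁` from `Gen.par`; `first_moment` (with `h1 = f`, `h2 = 1`, `mean_two` in `Helper83/TW/T3`) gives `z, G, k, c`.
`N` large; in the second alternative let `𝒟` be the image of `S` under `P ↦ sfp (form f P)`, `𝒟 ⊆ sfs f N`, `R0 = n^k * (2 G (m + 2))`, `Bad` the `d ∈ 𝒟` with more than `R0` points of `S` in the fibre.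
By `pig` (with `m + 2`) and `Gen.par`: `|Bad| ≤ C N^(1 + A κ)`.  The points of `S` over `Bad` are at most `|Bad| * (n^k * (8 G (N^κ + 1)))` many (`card_le_image` in `Helper83/TW/L10` with
`M = N^(2-κ)`), which is `≤ N^2/4` for large `N` (`1 + (A + 1) κ < 2`).  The others are at most `R0 |𝒟|`.  So `R0 |𝒟| ≥ N^2/4`.
-/

set_option autoImplicit false

namespace Pool.Agent.SQT

open NumberField Filter Pool.Agent.Helper83.TW

private theorem reg_facts {f : Polynomial ℤ} {z G N : ℕ} {P : ℤ × ℤ} (h : P ∈ Reg f z G N) :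
    P ∈ box N ∧ P.1 ≠ 0 ∧ 1 ≤ gc P ∧ gc P ≤ G ∧ form f P ≠ 0 := by
  unfold Reg at h
  rw [Finset.mem_filter] at h
  exact ⟨h.1, h.2.1, gc_pos h.2.1, h.2.2.1, h.2.2.2.1⟩

private theorem img_sub {f : Polynomial ℤ} {z G N : ℕ} (S : Finset (ℤ × ℤ))
    (hS : S ⊆ Reg f z G N) : S.image (fun P => sfp (form f P)) ⊆ sfs f N := by
  intro d hd
  rw [Finset.mem_image] at hd
  obtain ⟨P, hP, rfl⟩ := hd
  obtain ⟨h1, h2, -, -, h5⟩ := reg_facts (hS hP)
  unfold sfs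
  exact Finset.mem_image_of_mem _ (Finset.mem_filter.mpr ⟨h1, h2, h5⟩)

/-- the numerical part: for large `N` -/
private theorem num_ev (K1 : ℝ) : ∃ N₂ : ℕ, ∀ N : ℕ, N₂ ≤ N →
    K1 * (N : ℝ) ^ (5 / 4 : ℝ) ≤ (N : ℝ) ^ 2 / 4 := by
  have h1 : Tendsto (fun N : ℕ => (N : ℝ) ^ (3 / 4 : ℝ)) atTop atTop :=
    (tendsto_rpow_atTop (by norm_num)).comp tendsto_natCast_atTop_atTop
  obtain ⟨N₂, hN₂⟩ := eventually_atTop.1 (h1.eventually_ge_atTop (4 * K1))
  refine ⟨N₂ + 1, fun N hN => ?_⟩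
  have h2 := hN₂ N (by omega)
  have hN0 : (0 : ℝ) < N := by
    have : 0 < N := by omega
    exact_mod_cast this
  have h3 : (N : ℝ) ^ 2 = (N : ℝ) ^ (3 / 4 : ℝ) * (N : ℝ) ^ (5 / 4 : ℝ) := by
    rw [← Real.rpow_add hN0]
    norm_num
  have h4 : 0 < (N : ℝ) ^ (5 / 4 : ℝ) := Real.rpow_pos_of_pos hN0 _
  rw [h3]
  nlinarith

/-- the combinatorial part for one `N` -/
private theorem one_N {f : Polynomial ℤ} {z G N T k m : ℕ} {κ C E : ℝ} (hf : 1 ≤ f.natDegree)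
    (hNice : Nice f z) (hG1 : 1 ≤ G) (hG : G ≤ z) (hzT : z ≤ T) (hN : 1 ≤ N)
    (S : Finset (ℤ × ℤ)) (hS : S ⊆ Reg f z G N)
    (hprop : ∀ P ∈ S, (N : ℝ) ^ (2 - κ) ≤ (rough T (sfp (form f P)) : ℝ) ∧
          |(sfp (form f P) : ℝ)| ≤ (N : ℝ) ^ κ * (rough T (sfp (form f P)) : ℝ) ∧
          ((sfp (form f P)).natAbs.primeFactors.filter (fun p => T < p)).card ≤ k)
    (hpar : ∀ D : Finset ℤ,
      (∀ d ∈ D, (N : ℝ) ^ (2 - κ) ≤ (rough T d : ℝ) ∧ |(d : ℝ)| ≤ (N : ℝ) ^ κ * (rough T d : ℝ) ∧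
        ∃ P : Fin (m + 2) → ℤ × ℤ, Tup f z G N T (m + 2) d P) →
      (D.card : ℝ) ≤ C * (N : ℝ) ^ E)
    (hκ : 0 < κ) (hC : 0 < C) (hE : E + κ ≤ 5 / 4) :
    (S.card : ℝ) ≤ (C * ((f.natDegree : ℝ) ^ k * (16 * G))) * (N : ℝ) ^ (5 / 4 : ℝ) +
      (f.natDegree ^ k * (2 * G * (m + 2)) : ℕ) * ((sfs f N).card : ℝ) := by
  classical
  have hN1 : (1 : ℝ) ≤ N := by exact_mod_cast hN
  have hN0 : (0 : ℝ) < N := by linarith
  set R0 : ℕ := f.natDegree ^ k * (2 * G * (m + 2)) with hR0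
  set Dd : Finset ℤ := S.image (fun P => sfp (form f P)) with hDd
  set Bd : Finset ℤ := Dd.filter
    (fun d => R0 < (S.filter (fun P => sfp (form f P) = d)).card) with hBd
  have hBcard : (Bd.card : ℝ) ≤ C * (N : ℝ) ^ E := by
    apply hpar
    intro d hd
    rw [hBd, Finset.mem_filter] at hd
    obtain ⟨hd1, hd2⟩ := hd
    rw [hDd, Finset.mem_image] at hd1
    obtain ⟨P₀, hP₀, hP₀d⟩ := hd1
    obtain ⟨h1, h2, h3⟩ := hprop P₀ hP₀
    rw [hP₀d] at h1 h2 h3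
    refine ⟨h1, h2, ?_⟩
    have hd0 : d ≠ 0 := by
      rw [← hP₀d]
      exact sfp_ne_zero _ (reg_facts (hS hP₀)).2.2.2.2
    obtain ⟨P, hP1, hP2, hP3⟩ := pig f hf (m + 2) hNice hG1 hG hzT d hd0
      (S.filter (fun P => sfp (form f P) = d))
      (fun P hP => ⟨hS (Finset.mem_filter.1 hP).1, (Finset.mem_filter.1 hP).2⟩) h3 hd2
    exact ⟨P, ⟨fun i => hS (Finset.mem_filter.1 (hP1 i)).1,
      fun i => (Finset.mem_filter.1 (hP1 i)).2, hP2, hP3⟩⟩
  -- the points over `Bd`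
  set SB : Finset (ℤ × ℤ) := S.filter (fun P => sfp (form f P) ∈ Bd) with hSB
  set SG : Finset (ℤ × ℤ) := S.filter (fun P => ¬ sfp (form f P) ∈ Bd) with hSG
  have hsplit : S.card = SB.card + SG.card := (Finset.card_filter_add_card_filter_not _).symm
  have hSBs : ∀ P ∈ SB, P ∈ S := fun P hP => (Finset.mem_filter.1 hP).1
  have hSB1 : (SB.card : ℝ) ≤ ((SB.image (fun P => sfp (form f P))).card : ℝ) *
      ((f.natDegree : ℝ) ^ k * (8 * G * ((N : ℝ) ^ 2 / (N : ℝ) ^ (2 - κ) + 1))) := by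
    refine card_le_image f z G N T k ((N : ℝ) ^ (2 - κ)) (Real.rpow_pos_of_pos hN0 _) hNice hf hG
      hzT hN SB ?_ ?_ ?_ ?_ ?_
    · intro P hP
      exact (reg_facts (hS (hSBs P hP))).1
    · intro P hP
      have := reg_facts (hS (hSBs P hP))
      exact ⟨this.2.2.1, this.2.2.2.1⟩
    · intro P hP
      exact (reg_facts (hS (hSBs P hP))).2.2.2.2
    · intro P hP
      exact (hprop P (hSBs P hP)).2.2
    · intro P hP
      exact (hprop P (hSBs P hP)).1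
  have himg : ((SB.image (fun P => sfp (form f P))).card : ℝ) ≤ (Bd.card : ℝ) := by
    have : SB.image (fun P => sfp (form f P)) ⊆ Bd := by
      intro d hd
      rw [Finset.mem_image] at hd
      obtain ⟨P, hP, rfl⟩ := hd
      exact (Finset.mem_filter.1 hP).2
    exact_mod_cast Finset.card_le_card this
  have hdiv : (N : ℝ) ^ 2 / (N : ℝ) ^ (2 - κ) = (N : ℝ) ^ κ := by
    rw [div_eq_iff (Real.rpow_pos_of_pos hN0 _).ne', ← Real.rpow_add hN0]
    have : κ + (2 - κ) = ((2 : ℕ) : ℝ) := by push_cast; ring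
    rw [this, Real.rpow_natCast]
  have hNκ : 1 ≤ (N : ℝ) ^ κ := Real.one_le_rpow hN1 hκ.le
  have hSB2 : (SB.card : ℝ) ≤ (C * ((f.natDegree : ℝ) ^ k * (16 * G))) * (N : ℝ) ^ (5 / 4 : ℝ) := by
    rw [hdiv] at hSB1
    have hfk : (0 : ℝ) ≤ (f.natDegree : ℝ) ^ k * (8 * G) := by positivity
    calc (SB.card : ℝ) ≤ ((SB.image (fun P => sfp (form f P))).card : ℝ) *
        ((f.natDegree : ℝ) ^ k * (8 * G * ((N : ℝ) ^ κ + 1))) := hSB1
      _ ≤ (C * (N : ℝ) ^ E) * ((f.natDegree : ℝ) ^ k * (8 * G * (2 * (N : ℝ) ^ κ))) := by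
          refine mul_le_mul (himg.trans hBcard) ?_ (by positivity) (by positivity)
          have : (f.natDegree : ℝ) ^ k * (8 * G) * ((N : ℝ) ^ κ + 1) ≤
              (f.natDegree : ℝ) ^ k * (8 * G) * (2 * (N : ℝ) ^ κ) :=
            mul_le_mul_of_nonneg_left (by linarith) hfk
          calc (f.natDegree : ℝ) ^ k * (8 * G * ((N : ℝ) ^ κ + 1)) =
              (f.natDegree : ℝ) ^ k * (8 * G) * ((N : ℝ) ^ κ + 1) := by ring
            _ ≤ _ := this
            _ = _ := by ring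
      _ = (C * ((f.natDegree : ℝ) ^ k * (16 * G))) * ((N : ℝ) ^ E * (N : ℝ) ^ κ) := by ring
      _ = (C * ((f.natDegree : ℝ) ^ k * (16 * G))) * (N : ℝ) ^ (E + κ) := by
          rw [Real.rpow_add hN0]
      _ ≤ _ := by
          refine mul_le_mul_of_nonneg_left ?_ (by positivity)
          exact Real.rpow_le_rpow_of_exponent_le hN1 hE
  have hSG1 : SG.card ≤ R0 * (SG.image (fun P => sfp (form f P))).card := by
    apply Finset.card_le_mul_card_image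
    intro d hd
    rw [Finset.mem_image] at hd
    obtain ⟨P, hP, rfl⟩ := hd
    obtain ⟨hP1, hP2⟩ := Finset.mem_filter.1 hP
    have h1 : ¬ R0 < (S.filter (fun Q => sfp (form f Q) = sfp (form f P))).card := by
      intro hlt
      apply hP2
      rw [hBd, Finset.mem_filter]
      exact ⟨Finset.mem_image_of_mem _ hP1, hlt⟩
    have h2 : (SG.filter (fun Q => sfp (form f Q) = sfp (form f P))).card ≤
        (S.filter (fun Q => sfp (form f Q) = sfp (form f P))).card := by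
      apply Finset.card_le_card
      intro Q hQ
      rw [Finset.mem_filter] at hQ ⊢
      exact ⟨(Finset.mem_filter.1 hQ.1).1, hQ.2⟩
    omega
  have hSG2 : (SG.image (fun P => sfp (form f P))).card ≤ (sfs f N).card := by
    apply Finset.card_le_card
    exact (Finset.image_subset_image (Finset.filter_subset _ _)).trans (img_sub S hS)
  have hSG3 : (SG.card : ℝ) ≤ (R0 : ℝ) * ((sfs f N).card : ℝ) := by
    have : SG.card ≤ R0 * (sfs f N).card := hSG1.trans (Nat.mul_le_mul_left _ hSG2)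
    exact_mod_cast this
  rw [hsplit]
  push_cast
  have e1 : ((f.natDegree ^ k * (2 * G * (m + 2)) : ℕ) : ℝ) = (R0 : ℝ) := rfl
  have h9 := add_le_add hSB2 hSG3
  rw [hR0] at h9
  push_cast at h9
  linarith

theorem core_even (f : Polynomial ℤ) (hf : 3 ≤ f.natDegree) (he : Even f.natDegree)
    (hirr : Irreducible (f.map (Int.castRingHom ℚ))) :
    ∃ c : ℝ, 0 < c ∧ ∃ N₀ : ℕ, ∀ N : ℕ, N₀ ≤ N → c * (N : ℝ) ^ 2 ≤ ((sfs f N).card : ℝ) := by
  obtain ⟨K, _, _, a, M, hgen⟩ := exists_gen f (by omega) hirr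
  have hn2 : 9 ≤ f.natDegree ^ 2 := by nlinarith
  obtain ⟨m, hm⟩ : ∃ m : ℕ, m + 2 = 24 * f.natDegree ^ 2 := ⟨24 * f.natDegree ^ 2 - 2, by omega⟩
  set A : ℕ := 2 * (m + 1) + 1 + f.natDegree * (m + 1) with hA
  set κ : ℝ := 1 / (4 * ((A : ℝ) + 2)) with hκd
  have hA0 : (0 : ℝ) ≤ (A : ℝ) := Nat.cast_nonneg _
  have hκ0 : 0 < κ := by positivity
  have hκA : ((A : ℝ) + 2) * κ = 1 / 4 := by
    rw [hκd]
    field_simp
  have hκ1 : κ ≤ 1 / 2 := by nlinarith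
  obtain ⟨z₁, hz₁⟩ := hgen.par hf he m (by omega)
  obtain ⟨hz1, hM⟩ := mean_two f (by omega) hirr
  obtain ⟨z, G, k, c, hz, hNice, hG1, hG, hc, N₀, hN₀⟩ := first_moment f f 1 (by omega)
    hirr.separable (by rw [mul_one]) hz1 hM z₁ κ hκ0 hκ1
  obtain ⟨C, N₁, hC, hpar⟩ := hz₁ z G hz hNice hG1 hG κ hκ0 hκ1
  obtain ⟨N₂, hN₂⟩ := num_ev (C * ((f.natDegree : ℝ) ^ k * (16 * G)))
  have hR0 : (0 : ℝ) < ((f.natDegree ^ k * (2 * G * (m + 2)) : ℕ) : ℝ) := by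
    have h1 : 0 < f.natDegree := by omega
    have : 0 < f.natDegree ^ k * (2 * G * (m + 2)) := by positivity
    exact_mod_cast this
  set R : ℝ := ((f.natDegree ^ k * (2 * G * (m + 2)) : ℕ) : ℝ) with hR
  refine ⟨min c (1 / (4 * R)), lt_min hc (by positivity), N₀ + N₁ + N₂ + 1, fun N hN => ?_⟩
  have hsq : (0 : ℝ) ≤ (N : ℝ) ^ 2 := by positivity
  rcases hN₀ N (by omega) with h | ⟨T, S, hzT, hS, hScard, hSprop⟩
  · exact (mul_le_mul_of_nonneg_right (min_le_left _ _) hsq).trans h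
  · have h1 := one_N (E := 1 + (A : ℝ) * κ) (m := m) (by omega) hNice hG1 hG hzT (by omega) S hS
      hSprop (hpar N (by omega) T hzT) hκ0 hC (by nlinarith)
    have h2 := hN₂ N (by omega)
    have h3 : (N : ℝ) ^ 2 / 4 ≤ R * ((sfs f N).card : ℝ) := by linarith
    have h4 : 1 / (4 * R) * (N : ℝ) ^ 2 ≤ ((sfs f N).card : ℝ) := by
      rw [div_mul_eq_mul_div, one_mul, div_le_iff₀ (by positivity)]
      linarith
    exact (mul_le_mul_of_nonneg_right (min_le_right _ _) hsq).trans h4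

end Pool.Agent.SQT
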