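import Pool.Agent.Helper83.TW.T5

/-!
# Project SQT (MP_f4d5ac_nt): squarefree twists, the full lower bound; definitions

`f` is an integer polynomial, irreducible over `ℚ`, `a = c θ` the algebraic integer attached to a root `θ` of `f`
(`c` the leading coefficient), `lf c a (x, y) = c x - y a` the linear form whose norm is `c^(n-1) form f (x, y)`.
-/

set_option autoImplicit false

namespace Pool.Agent.SQT

open NumberField Pool.Agent.Helper83.TW

/-- The determinant of two vectors. -/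
def dt (P Q : ℤ × ℤ) : ℤ := P.1 * Q.2 - Q.1 * P.2

/-- The linear form `c x - y a`. -/
noncomputable def lf {K : Type} [Field K] (c : ℤ) (a : 𝓞 K) (P : ℤ × ℤ) : 𝓞 K :=
  ((c * P.1 : ℤ) : 𝓞 K) - ((P.2 : ℤ) : 𝓞 K) * a

/-- `a` is (leading coefficient) times a root of `f`, it generates `K`, and `M 𝓞 K ⊆ ℤ[a]`. -/
structure Gen (f : Polynomial ℤ) (K : Type) [Field K] [NumberField K] (a : 𝓞 K) (M : ℤ) : Prop where
  lc : f.leadingCoeff ≠ 0
  mp : Polynomial.C f.leadingCoeff * minpoly ℤ a = Polynomial.scaleRoots f f.leadingCoeff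
  M0 : M ≠ 0
  mem : ∀ x : 𝓞 K, (M : 𝓞 K) * x ∈ Algebra.adjoin ℤ {a}
  deg : Module.finrank ℚ K = f.natDegree
  irr : Irreducible (f.map (Int.castRingHom ℚ))

/-- The multiplicity of the prime ideal `q` in the factorization of the ideal `(x)`. -/
noncomputable def mu {K : Type} [Field K] [NumberField K] (q : Ideal (𝓞 K)) (x : 𝓞 K) : ℕ := by
  classical
  exact (UniqueFactorizationMonoid.normalizedFactors (Ideal.span {x})).count q

theorem dt_self (P : ℤ × ℤ) : dt P P = 0 := by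
  unfold dt
  ring

theorem dt_swap (P Q : ℤ × ℤ) : dt Q P = -dt P Q := by
  unfold dt
  ring

/-- Cramer: `det(P,Q) R = det(R,Q) P + det(P,R) Q` for the linear forms. -/
theorem lf_cramer {K : Type} [Field K] (c : ℤ) (a : 𝓞 K) (P Q R : ℤ × ℤ) :
    ((dt P Q : ℤ) : 𝓞 K) * lf c a R = ((dt R Q : ℤ) : 𝓞 K) * lf c a P + ((dt P R : ℤ) : 𝓞 K) * lf c a Q := by
  unfold dt lf
  push_cast
  ring

/-- `y_Q lf P - y_P lf Q = c det (P, Q)`. -/
theorem lf_dt {K : Type} [Field K] (c : ℤ) (a : 𝓞 K) (P Q : ℤ × ℤ) :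
    ((Q.2 : ℤ) : 𝓞 K) * lf c a P - ((P.2 : ℤ) : 𝓞 K) * lf c a Q = ((c * dt P Q : ℤ) : 𝓞 K) := by
  unfold dt lf
  push_cast
  ring

end Pool.Agent.SQT
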