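import Pool.Agent.SQT.Defs

/-!
# SQT-ENm: the norm of the element `E`
-/

set_option autoImplicit false

namespace Pool.Agent.SQT

open NumberField Pool.Agent.Helper83.TW

variable {f : Polynomial ℤ} {K : Type} [Field K] [NumberField K] {a : 𝓞 K} {M : ℤ}

private theorem enm_lf (c : ℤ) (a : 𝓞 K) (L : ℝ) (σ : K →ₐ[ℚ] ℂ)
    (hL : |(c : ℝ)| + ‖σ (a : K)‖ ≤ L) (N : ℕ) (P : ℤ × ℤ) (hP : P ∈ box N) :
    ‖σ ((lf c a P : 𝓞 K) : K)‖ ≤ L * N := by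
  rw [mem_box] at hP
  have h1 : |(P.1 : ℝ)| ≤ N := by
    have := hP.1.le
    rw [← Int.cast_abs]
    exact_mod_cast this
  have h2 : |(P.2 : ℝ)| ≤ N := by
    have := hP.2.le
    rw [← Int.cast_abs]
    exact_mod_cast this
  have h3 : σ ((lf c a P : 𝓞 K) : K) = ((c : ℂ) * (P.1 : ℂ)) - (P.2 : ℂ) * σ (a : K) := by
    unfold lf
    simp
  have h4 : (0 : ℝ) ≤ N := Nat.cast_nonneg N
  rw [h3]
  calc ‖((c : ℂ) * (P.1 : ℂ)) - (P.2 : ℂ) * σ (a : K)‖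
      ≤ ‖(c : ℂ) * (P.1 : ℂ)‖ + ‖(P.2 : ℂ) * σ (a : K)‖ := norm_sub_le _ _
    _ = |(c : ℝ)| * |(P.1 : ℝ)| + |(P.2 : ℝ)| * ‖σ (a : K)‖ := by
        rw [norm_mul, norm_mul, Complex.norm_intCast, Complex.norm_intCast, Complex.norm_intCast]
    _ ≤ |(c : ℝ)| * N + N * ‖σ (a : K)‖ :=
        add_le_add (mul_le_mul_of_nonneg_left h1 (abs_nonneg _))
          (mul_le_mul_of_nonneg_right h2 (norm_nonneg _))
    _ = (|(c : ℝ)| + ‖σ (a : K)‖) * N := by ring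
    _ ≤ L * N := mul_le_mul_of_nonneg_right hL h4

theorem Gen.E_norm (h : Gen f K a M) : ∃ C : ℝ, 1 ≤ C ∧ ∀ (N : ℕ) (P Q P' Q' : ℤ × ℤ), 1 ≤ N →
    P ∈ box N → Q ∈ box N → P' ∈ box N → Q' ∈ box N →
    |((Algebra.norm ℤ (lf f.leadingCoeff a Q * lf f.leadingCoeff a P' -
      lf f.leadingCoeff a P * lf f.leadingCoeff a Q') : ℤ) : ℝ)| ≤ C * (N : ℝ) ^ (2 * f.natDegree) := by
  classical
  set c : ℤ := f.leadingCoeff with hc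
  set L : ℝ := |(c : ℝ)| + ∑ σ : K →ₐ[ℚ] ℂ, ‖σ (a : K)‖ with hLd
  have hL0 : 0 ≤ L := by positivity
  have hLs : ∀ σ : K →ₐ[ℚ] ℂ, |(c : ℝ)| + ‖σ (a : K)‖ ≤ L := by
    intro σ
    rw [hLd]
    exact add_le_add le_rfl (Finset.single_le_sum (f := fun σ : K →ₐ[ℚ] ℂ => ‖σ (a : K)‖)
      (fun _ _ => norm_nonneg _) (Finset.mem_univ σ))
  refine ⟨max 1 ((2 * L ^ 2) ^ f.natDegree), le_max_left _ _, fun N P Q P' Q' _ hP hQ hP' hQ' => ?_⟩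
  have hN0 : (0 : ℝ) ≤ N := Nat.cast_nonneg N
  set E : 𝓞 K := lf c a Q * lf c a P' - lf c a P * lf c a Q' with hE
  have h1 : ((Algebra.norm ℤ E : ℤ) : ℚ) = Algebra.norm ℚ (E : K) := Algebra.coe_norm_int E
  have h2 := Algebra.norm_eq_prod_embeddings ℚ ℂ (E : K)
  rw [← h1, map_intCast] at h2
  have h3 : |((Algebra.norm ℤ E : ℤ) : ℝ)| = ∏ σ : K →ₐ[ℚ] ℂ, ‖σ (E : K)‖ := by
    rw [← Complex.norm_intCast, h2, norm_prod]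
  have h4 : ∀ σ : K →ₐ[ℚ] ℂ, ‖σ (E : K)‖ ≤ 2 * L ^ 2 * (N : ℝ) ^ 2 := by
    intro σ
    have hmul : ∀ R S : ℤ × ℤ, R ∈ box N → S ∈ box N →
        ‖σ ((lf c a R : 𝓞 K) : K) * σ ((lf c a S : 𝓞 K) : K)‖ ≤ L ^ 2 * (N : ℝ) ^ 2 := by
      intro R S hR hS
      rw [norm_mul]
      calc ‖σ ((lf c a R : 𝓞 K) : K)‖ * ‖σ ((lf c a S : 𝓞 K) : K)‖
          ≤ (L * N) * (L * N) := mul_le_mul (enm_lf c a L σ (hLs σ) N R hR)
            (enm_lf c a L σ (hLs σ) N S hS) (norm_nonneg _) (mul_nonneg hL0 hN0)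
        _ = L ^ 2 * (N : ℝ) ^ 2 := by ring
    have h5 : σ (E : K) = σ ((lf c a Q : 𝓞 K) : K) * σ ((lf c a P' : 𝓞 K) : K) -
        σ ((lf c a P : 𝓞 K) : K) * σ ((lf c a Q' : 𝓞 K) : K) := by
      rw [hE]
      push_cast
      rw [map_sub, map_mul, map_mul]
    rw [h5]
    calc ‖σ ((lf c a Q : 𝓞 K) : K) * σ ((lf c a P' : 𝓞 K) : K) -
        σ ((lf c a P : 𝓞 K) : K) * σ ((lf c a Q' : 𝓞 K) : K)‖
        ≤ L ^ 2 * (N : ℝ) ^ 2 + L ^ 2 * (N : ℝ) ^ 2 :=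
          (norm_sub_le _ _).trans (add_le_add (hmul Q P' hQ hP') (hmul P Q' hP hQ'))
      _ = 2 * L ^ 2 * (N : ℝ) ^ 2 := by ring
  have hcard : Fintype.card (K →ₐ[ℚ] ℂ) = f.natDegree := by
    rw [AlgHom.card ℚ K ℂ]
    exact h.deg
  rw [h3]
  calc ∏ σ : K →ₐ[ℚ] ℂ, ‖σ (E : K)‖
      ≤ ∏ _σ : K →ₐ[ℚ] ℂ, (2 * L ^ 2 * (N : ℝ) ^ 2) :=
        Finset.prod_le_prod (fun _ _ => norm_nonneg _) (fun σ _ => h4 σ)
    _ = (2 * L ^ 2) ^ f.natDegree * (N : ℝ) ^ (2 * f.natDegree) := by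
        rw [Finset.prod_const, Finset.card_univ, hcard, mul_pow, ← pow_mul]
    _ ≤ max 1 ((2 * L ^ 2) ^ f.natDegree) * (N : ℝ) ^ (2 * f.natDegree) :=
        mul_le_mul_of_nonneg_right (le_max_right _ _) (by positivity)

end Pool.Agent.SQT
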