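import Pool.Agent.SQT.Defs

/-!
# SQT-ENz: the element `E` is not zero

PLAN.  `E = e(a)` with the integer polynomial `e(X) = (c x_Q - y_Q X)(c x_{P'} - y_{P'} X) - (c x_P - y_P X)(c x_{Q'} - y_{Q'} X)` of degree `≤ 2 < 3 ≤ n = natDegree (minpoly ℤ a)` (degree from `Gen.mp`:
`natDegree (scaleRoots f c) = natDegree f`).  If `e(a) = 0` then `minpoly ℤ a ∣ e` (`minpoly.isIntegrallyClosed_dvd`), so `e = 0`; its coefficients give
`x_Q x_{P'} = x_P x_{Q'}` (`c ≠ 0`), `x_Q y_{P'} + y_Q x_{P'} = x_P y_{Q'} + y_P x_{Q'}`, `y_Q y_{P'} = y_P y_{Q'}`.  Multiply by `y_P^2`, `- x_P y_P`, `x_P^2` and add: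
`(x_Q y_P - y_Q x_P)(x_{P'} y_P - y_{P'} x_P) = (x_P y_P - y_P x_P)(...) = 0`, against `dt P Q ≠ 0` and `dt P P' ≠ 0`.
-/

set_option autoImplicit false

namespace Pool.Agent.SQT

open NumberField Pool.Agent.Helper83.TW

variable {f : Polynomial ℤ} {K : Type} [Field K] [NumberField K] {a : 𝓞 K} {M : ℤ}

theorem Gen.E_ne (h : Gen f K a M) (hf : 3 ≤ f.natDegree) (P Q P' Q' : ℤ × ℤ)
    (h1 : dt P Q ≠ 0) (h2 : dt P P' ≠ 0) :
    lf f.leadingCoeff a Q * lf f.leadingCoeff a P' - lf f.leadingCoeff a P * lf f.leadingCoeff a Q' ≠ 0 := by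
  intro h0
  obtain ⟨c, hc⟩ : ∃ c : ℤ, c = f.leadingCoeff := ⟨_, rfl⟩
  rw [← hc] at h0
  have hc0 : c ≠ 0 := hc ▸ h.lc
  obtain ⟨A0, hA0⟩ : ∃ A0 : ℤ, A0 = c * c * (Q.1 * P'.1 - P.1 * Q'.1) := ⟨_, rfl⟩
  obtain ⟨A1, hA1⟩ : ∃ A1 : ℤ, A1 = -c * (Q.1 * P'.2 + Q.2 * P'.1 - P.1 * Q'.2 - P.2 * Q'.1) :=
    ⟨_, rfl⟩
  obtain ⟨A2, hA2⟩ : ∃ A2 : ℤ, A2 = Q.2 * P'.2 - P.2 * Q'.2 := ⟨_, rfl⟩
  obtain ⟨e, he⟩ : ∃ e : Polynomial ℤ, e = Polynomial.C A2 * Polynomial.X ^ 2 +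
    Polynomial.C A1 * Polynomial.X + Polynomial.C A0 := ⟨_, rfl⟩
  have hev : Polynomial.aeval a e = 0 := by
    rw [he, map_add, map_add, map_mul, map_mul, map_pow, Polynomial.aeval_X, Polynomial.aeval_C,
      Polynomial.aeval_C, Polynomial.aeval_C, eq_intCast, eq_intCast, eq_intCast, hA0, hA1, hA2,
      ← h0]
    unfold lf
    push_cast
    ring
  have hint : IsIntegral ℤ a := Algebra.IsIntegral.isIntegral a
  have hdvd : minpoly ℤ a ∣ e := minpoly.isIntegrallyClosed_dvd hint hev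
  have hdeg : (minpoly ℤ a).natDegree = f.natDegree := by
    have h3 := congrArg Polynomial.natDegree h.mp
    rw [Polynomial.natDegree_C_mul h.lc, Polynomial.natDegree_scaleRoots] at h3
    exact h3
  have hlt : e.natDegree < (minpoly ℤ a).natDegree := by
    have h3 : e.natDegree ≤ 2 := by
      rw [he]
      exact Polynomial.natDegree_quadratic_le
    omega
  have hz : e = 0 := Polynomial.eq_zero_of_dvd_of_natDegree_lt hdvd hlt
  have hk : ∀ k : ℕ, A2 * (if k = 2 then 1 else 0) + A1 * (if 1 = k then 1 else 0) +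
      (if k = 0 then A0 else 0) = 0 := by
    intro k
    have h3 : e.coeff k = 0 := by rw [hz, Polynomial.coeff_zero]
    rw [he, Polynomial.coeff_add, Polynomial.coeff_add, Polynomial.coeff_C_mul,
      Polynomial.coeff_C_mul, Polynomial.coeff_X_pow, Polynomial.coeff_X, Polynomial.coeff_C] at h3
    exact h3
  have e0 : A0 = 0 := by simpa using hk 0
  have e1 : A1 = 0 := by simpa using hk 1
  have e2 : A2 = 0 := by simpa using hk 2
  rw [hA0] at e0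
  rw [hA1] at e1
  rw [hA2] at e2
  have u0 : Q.1 * P'.1 - P.1 * Q'.1 = 0 := by
    rcases mul_eq_zero.1 e0 with h3 | h3
    · exact absurd h3 (mul_ne_zero hc0 hc0)
    · exact h3
  have u1 : Q.1 * P'.2 + Q.2 * P'.1 - P.1 * Q'.2 - P.2 * Q'.1 = 0 := by
    rcases mul_eq_zero.1 e1 with h3 | h3
    · exact absurd h3 (neg_ne_zero.2 hc0)
    · exact h3
  have hfin : dt P Q * dt P P' = 0 := by
    unfold dt
    linear_combination (P.2 ^ 2) * u0 - P.1 * P.2 * u1 + P.1 ^ 2 * e2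
  rcases mul_eq_zero.1 hfin with h3 | h3
  · exact h1 h3
  · exact h2 h3

end Pool.Agent.SQT
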