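import Pool.Agent.SQT.Hom
import Pool.Agent.SQT.ENz
import Pool.Agent.SQT.ENm

/-!
# SQT-ESum: the primes at which two pairs have the same class

PLAN.  Let `c = f.leadingCoeff`, `E` the element of `ENz` (not zero), `D = Algebra.norm ℤ E ≠ 0`; `E ∣ D` in `𝓞 K` (`Algebra.dvd_norm`; or `Ideal.absNorm_mem` for the ideal `(E)`).  If
`p > z` and `t ∈ rts f p` with `p ∣ e(t)`, `e(t) = (x_Q - t y_Q)(x_{P'} - t y_{P'}) - (x_P - t y_P)(x_{Q'} - t y_{Q'})`, the homomorphism `φ` of `Gen.hom` has `φ (lf R) = c (x_R - t y_R)`, so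
`φ E = c^2 e(t) = 0`, hence `φ D = 0` and `p ∣ D`.  So the sum is at most `∑_{p ∣ D, p ∈ prm z Y} card (rts f p) log p ≤ n log |D|` (`card_rts_le` with `Nice.lead`, `log_prod_le` in `Helper83/TW/L04`, `L08`)
and `log |D| ≤ 2 n log N + log C` (`Gen.E_norm`).
-/

set_option autoImplicit false

namespace Pool.Agent.SQT

open NumberField Pool.Agent.Helper83.TW

variable {f : Polynomial ℤ} {K : Type} [Field K] [NumberField K] {a : 𝓞 K} {M : ℤ}

private theorem esum_dvd (h : Gen f K a M) {z p : ℕ} {P Q P' Q' : ℤ × ℤ}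
    (hc : f.leadingCoeff.natAbs ≤ z) (hM : M.natAbs ≤ z) (hp : p.Prime) (hzp : z < p) (t : ℤ)
    (ht : (p : ℤ) ∣ f.eval t)
    (he : (p : ℤ) ∣ (Q.1 - t * Q.2) * (P'.1 - t * P'.2) - (P.1 - t * P.2) * (Q'.1 - t * Q'.2)) :
    (p : ℤ) ∣ Algebra.norm ℤ (lf f.leadingCoeff a Q * lf f.leadingCoeff a P' -
      lf f.leadingCoeff a P * lf f.leadingCoeff a Q') := by
  set E : 𝓞 K := lf f.leadingCoeff a Q * lf f.leadingCoeff a P' -
      lf f.leadingCoeff a P * lf f.leadingCoeff a Q' with hE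
  obtain ⟨φ, hφ⟩ := h.hom hp (lt_of_le_of_lt hc hzp) (lt_of_le_of_lt hM hzp) t ht
  have hlf : ∀ R : ℤ × ℤ, φ (lf f.leadingCoeff a R) =
      ((f.leadingCoeff * (R.1 - t * R.2) : ℤ) : ZMod p) := by
    intro R
    unfold lf
    rw [map_sub, map_mul, map_intCast, map_intCast, hφ]
    push_cast
    ring
  have hφE : φ E = 0 := by
    rw [hE, map_sub, map_mul, map_mul, hlf, hlf, hlf, hlf]
    have h1 : (((Q.1 - t * Q.2) * (P'.1 - t * P'.2) - (P.1 - t * P.2) * (Q'.1 - t * Q'.2) : ℤ) : ZMod p) = 0 :=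
      (ZMod.intCast_zmod_eq_zero_iff_dvd _ p).mpr he
    push_cast at h1 ⊢
    linear_combination ((f.leadingCoeff : ZMod p)) ^ 2 * h1
  have hmem := Ideal.absNorm_mem (Ideal.span {E})
  rw [Ideal.absNorm_span_singleton, Ideal.mem_span_singleton] at hmem
  obtain ⟨w, hw⟩ := hmem
  have h2 : φ (((Algebra.norm ℤ E).natAbs : ℕ) : 𝓞 K) = 0 := by
    rw [hw, map_mul, hφE, zero_mul]
  rw [map_natCast, ZMod.natCast_eq_zero_iff] at h2
  exact Int.natCast_dvd.mpr h2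

theorem Gen.E_sum (h : Gen f K a M) (hf : 3 ≤ f.natDegree) : ∃ C : ℝ, 0 ≤ C ∧
    ∀ (z Y N : ℕ) (P Q P' Q' : ℤ × ℤ), Nice f z → f.leadingCoeff.natAbs ≤ z → M.natAbs ≤ z → 1 ≤ N →
    P ∈ box N → Q ∈ box N → P' ∈ box N → Q' ∈ box N → dt P Q ≠ 0 → dt P P' ≠ 0 →
    ∑ p ∈ prm z Y, ∑ t ∈ rts f p,
      (if (p : ℤ) ∣ (Q.1 - (t : ℤ) * Q.2) * (P'.1 - (t : ℤ) * P'.2) -
        (P.1 - (t : ℤ) * P.2) * (Q'.1 - (t : ℤ) * Q'.2) then Real.log (p : ℝ) else 0) ≤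
      f.natDegree * (2 * f.natDegree * Real.log N + C) := by
  obtain ⟨C0, hC1, hC⟩ := h.E_norm
  refine ⟨Real.log C0, Real.log_nonneg hC1, ?_⟩
  intro z Y N P Q P' Q' hN hc hM hN1 hP hQ hP' hQ' hd1 hd2
  set D : ℤ := Algebra.norm ℤ (lf f.leadingCoeff a Q * lf f.leadingCoeff a P' -
      lf f.leadingCoeff a P * lf f.leadingCoeff a Q') with hD
  have hD0 : D ≠ 0 := by
    rw [hD]
    exact Algebra.norm_ne_zero_iff.mpr (h.E_ne hf P Q P' Q' hd1 hd2)
  have hn0 : (0 : ℝ) ≤ (f.natDegree : ℝ) := Nat.cast_nonneg _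
  have hin : ∀ p ∈ prm z Y, ∑ t ∈ rts f p,
      (if (p : ℤ) ∣ (Q.1 - (t : ℤ) * Q.2) * (P'.1 - (t : ℤ) * P'.2) -
        (P.1 - (t : ℤ) * P.2) * (Q'.1 - (t : ℤ) * Q'.2) then Real.log (p : ℝ) else 0) ≤
      if (p : ℤ) ∣ D then (f.natDegree : ℝ) * Real.log (p : ℝ) else 0 := by
    intro p hp
    rw [mem_prm] at hp
    obtain ⟨hzp, hpY, hpp⟩ := hp
    by_cases hdv : (p : ℤ) ∣ D
    · rw [if_pos hdv]
      have hlog : 0 ≤ Real.log (p : ℝ) := Real.log_natCast_nonneg p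
      calc ∑ t ∈ rts f p, (if (p : ℤ) ∣ (Q.1 - (t : ℤ) * Q.2) * (P'.1 - (t : ℤ) * P'.2) -
            (P.1 - (t : ℤ) * P.2) * (Q'.1 - (t : ℤ) * Q'.2) then Real.log (p : ℝ) else 0)
          ≤ ∑ _t ∈ rts f p, Real.log (p : ℝ) := by
            apply Finset.sum_le_sum
            intro t _
            split_ifs
            · exact le_rfl
            · exact hlog
        _ = ((rts f p).card : ℝ) * Real.log (p : ℝ) := by rw [Finset.sum_const, nsmul_eq_mul]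
        _ ≤ (f.natDegree : ℝ) * Real.log (p : ℝ) := by
            apply mul_le_mul_of_nonneg_right _ hlog
            exact_mod_cast card_rts_le f p hpp (hN.lead p hpp hzp)
    · rw [if_neg hdv]
      apply le_of_eq
      apply Finset.sum_eq_zero
      intro t ht
      rw [if_neg]
      intro he
      exact hdv (esum_dvd h hc hM hpp hzp (t : ℤ) (mem_rts.mp ht).2 he)
  refine (Finset.sum_le_sum hin).trans ?_
  rw [← Finset.sum_filter, ← Finset.mul_sum]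
  apply mul_le_mul_of_nonneg_left _ hn0
  have h1 : ∑ p ∈ (prm z Y).filter (fun p : ℕ => (p : ℤ) ∣ D), Real.log (p : ℝ) ≤ Real.log |(D : ℝ)| := by
    apply log_prod_le D hD0
    intro p hp
    rw [Finset.mem_filter, mem_prm] at hp
    exact ⟨hp.1.2.2, hp.2⟩
  refine h1.trans ?_
  have h2 := hC N P Q P' Q' hN1 hP hQ hP' hQ'
  rw [← hD] at h2
  have hDpos : 0 < |(D : ℝ)| := abs_pos.mpr (by exact_mod_cast hD0)
  have hNpos : (0 : ℝ) < (N : ℝ) := by exact_mod_cast hN1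
  have hC0pos : 0 < C0 := by linarith
  have h3 := Real.log_le_log hDpos h2
  rw [Real.log_mul hC0pos.ne' (pow_pos hNpos _).ne', Real.log_pow] at h3
  push_cast at h3
  linarith

end Pool.Agent.SQT
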