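import Pool.Agent.SQT.Val

/-!
# SQT-Evn: the product of the linear forms of two points with the same squarefree part

PLAN.  Every prime ideal `q ≠ ⊥` contains exactly one prime number `p` (`Ideal.absNorm q` is a power of `p` and lies in `q`; e.g. `Ideal.under`, or:
`absNorm q ∈ q`, `absNorm q ≠ 0`, factor it).  By `hq2`, `p > z`.  Then `p ∤ c`, `p > |M|`, `p` does not divide both coordinates of `P` or of `Q`
(`not_dvd_both` in `Helper83/TW/L04`), and `form f P`, `form f Q ≠ 0`.  `mu_mul`; if `lf P ∉ q` then `mu = 0` (`mu_eq_zero`), if `lf P ∈ q` then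
`mu q (lf P) = v_p(form f P)` (`Gen.val`), the same for `Q`.
* `p ∤ d`: `v_p (form f P)` and `v_p (form f Q)` are even, because `form f P = d m^2` with `m ≠ 0` (`sfp_spec` in `Sfp`), so all cases are even.
* `p ∣ d`: by `hq2` `p > T`, so `p ∣ rough T d` and `p ∣ dt P Q`; both `v_p` are odd (`v_p (d) = 1` as `d` is squarefree).  `lf_dt` (and the same with
`P`, `Q` exchanged) gives `lf P ∈ q → lf Q ∈ q`: `y_P lf Q = y_Q lf P - c dt P Q ∈ q` and `y_P ∉ q` (if `p ∣ y_P` then `p ∤ x_P` and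
`lf P ≡ c x_P` would be in `q`, impossible).  So either both are in `q` (odd + odd) or none (0 + 0).
-/

set_option autoImplicit false

namespace Pool.Agent.SQT

open NumberField Pool.Agent.Helper83.TW

variable {f : Polynomial ℤ} {K : Type} [Field K] [NumberField K] {a : 𝓞 K} {M : ℤ}

private theorem exists_prime_mem {q : Ideal (𝓞 K)} (hq : q.IsPrime) (N : ℕ) :
    N ≠ 0 → (N : 𝓞 K) ∈ q → ∃ p : ℕ, p.Prime ∧ (p : 𝓞 K) ∈ q := by
  induction N using induction_on_primes with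
  | zero => exact fun h => absurd rfl h
  | one =>
    intro _ h
    rw [Nat.cast_one] at h
    exact absurd ((Ideal.eq_top_iff_one q).2 h) hq.ne_top
  | prime_mul p a hp ih =>
    intro h0 h1
    rw [Nat.cast_mul] at h1
    rcases hq.mem_or_mem h1 with h2 | h2
    · exact ⟨p, hp, h2⟩
    · exact ih (fun h => h0 (by rw [h, mul_zero])) h2

private theorem int_mem {q : Ideal (𝓞 K)} (hq : q.IsPrime) {p : ℕ} (hp : p.Prime)
    (hpq : (p : 𝓞 K) ∈ q) {n : ℤ} (hn : ((n : ℤ) : 𝓞 K) ∈ q) : (p : ℤ) ∣ n := by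
  by_contra h
  have h1 : IsCoprime (p : ℤ) n :=
    ((Nat.prime_iff_prime_int.1 hp).coprime_iff_not_dvd).2 h
  obtain ⟨u, v, huv⟩ := h1
  have h2 : ((u * p + v * n : ℤ) : 𝓞 K) ∈ q := by
    push_cast
    exact q.add_mem (q.mul_mem_left _ hpq) (q.mul_mem_left _ hn)
  rw [huv, Int.cast_one] at h2
  exact hq.ne_top ((Ideal.eq_top_iff_one q).2 h2)

private theorem parity {n d : ℤ} (hn : n ≠ 0) (hd : sfp n = d) (p : ℕ) :
    ∃ k, n.natAbs.factorization p = d.natAbs.factorization p + 2 * k := by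
  obtain ⟨m, hm, h⟩ := sfp_spec n hn
  rw [hd] at h
  have hd0 : d ≠ 0 := by
    rintro rfl
    rw [zero_mul] at h
    exact hn h
  refine ⟨m.natAbs.factorization p, ?_⟩
  conv_lhs => rw [h]
  rw [Int.natAbs_mul, Int.natAbs_pow, Nat.factorization_mul (Int.natAbs_ne_zero.2 hd0)
    (pow_ne_zero _ (Int.natAbs_ne_zero.2 hm)), Nat.factorization_pow, Finsupp.add_apply,
    Finsupp.smul_apply, smul_eq_mul]

private theorem both_mem {c : ℤ} {q : Ideal (𝓞 K)} (hq : q.IsPrime) {p : ℕ} (hp : p.Prime)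
    (hpq : (p : 𝓞 K) ∈ q) (hc : ¬ (p : ℤ) ∣ c) {P Q : ℤ × ℤ}
    (hP : ¬ ((p : ℤ) ∣ P.1 ∧ (p : ℤ) ∣ P.2)) (hdt : (p : ℤ) ∣ dt P Q)
    (h1 : lf c a P ∈ q) : lf c a Q ∈ q := by
  obtain ⟨t, ht⟩ := hdt
  have h2 := lf_dt c a P Q
  have h3 : ((c * dt P Q : ℤ) : 𝓞 K) ∈ q := by
    rw [ht]
    push_cast
    exact q.mul_mem_left _ (q.mul_mem_right _ hpq)
  have h4 : ((P.2 : ℤ) : 𝓞 K) * lf c a Q ∈ q := by
    have h5 : ((P.2 : ℤ) : 𝓞 K) * lf c a Q = ((Q.2 : ℤ) : 𝓞 K) * lf c a P -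
        ((c * dt P Q : ℤ) : 𝓞 K) := by
      rw [← h2]; ring
    rw [h5]
    exact q.sub_mem (q.mul_mem_left _ h1) h3
  rcases hq.mem_or_mem h4 with h5 | h5
  · exfalso
    have h6 := int_mem hq hp hpq h5
    have h7 : ((c * P.1 : ℤ) : 𝓞 K) ∈ q := by
      have h8 : ((c * P.1 : ℤ) : 𝓞 K) = lf c a P + ((P.2 : ℤ) : 𝓞 K) * a := by
        unfold lf
        ring
      rw [h8]
      exact q.add_mem h1 (q.mul_mem_right _ h5)
    have h9 := int_mem hq hp hpq h7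
    rcases (Nat.prime_iff_prime_int.1 hp).dvd_or_dvd h9 with h10 | h10
    · exact hc h10
    · exact hP ⟨h10, h6⟩
  · exact h5

private theorem gc_pos {P : ℤ × ℤ} (h : P.1 ≠ 0) : 1 ≤ gc P := by
  unfold gc
  exact Nat.pos_of_ne_zero fun h1 => h (Int.gcd_eq_zero_iff.1 h1).1

theorem Gen.evn (h : Gen f K a M) (hf : 1 ≤ f.natDegree) {z G N T : ℕ}
    (hcz : f.leadingCoeff.natAbs ≤ z) (hMz : M.natAbs ≤ z) (hG : G ≤ z) (hzT : z ≤ T)
    {P Q : ℤ × ℤ} {d : ℤ} (hP : P ∈ Reg f z G N) (hQ : Q ∈ Reg f z G N)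
    (hPd : sfp (form f P) = d) (hQd : sfp (form f Q) = d)
    (hdt : (rough T d : ℤ) ∣ dt P Q) {q : Ideal (𝓞 K)} (hq : q.IsPrime) (hq1 : q ≠ ⊥)
    (hq2 : ∀ p : ℕ, p.Prime → (p ≤ z ∨ (p ≤ T ∧ (p : ℤ) ∣ d)) → (p : 𝓞 K) ∉ q) :
    Even (mu q (lf f.leadingCoeff a P * lf f.leadingCoeff a Q)) := by
  obtain ⟨p, hp, hpq⟩ := exists_prime_mem hq (Ideal.absNorm q)
    (fun h0 => hq1 (Ideal.absNorm_eq_zero_iff.1 h0)) (Ideal.absNorm_mem q)
  have hpz : z < p := by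
    by_contra hcon
    exact hq2 p hp (Or.inl (not_lt.1 hcon)) hpq
  have hpT : (p : ℤ) ∣ d → T < p := by
    intro hd
    by_contra hcon
    exact hq2 p hp (Or.inr ⟨not_lt.1 hcon, hd⟩) hpq
  obtain ⟨-, hP1, hP2, hP3, -⟩ := Finset.mem_filter.1 hP
  obtain ⟨-, hQ1, hQ2, hQ3, -⟩ := Finset.mem_filter.1 hQ
  have hPp := not_dvd_both (gc_pos hP1) hP2 (lt_of_le_of_lt hG hpz)
  have hQp := not_dvd_both (gc_pos hQ1) hQ2 (lt_of_le_of_lt hG hpz)
  have hcp : f.leadingCoeff.natAbs < p := lt_of_le_of_lt hcz hpz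
  have hMp : M.natAbs < p := lt_of_le_of_lt hMz hpz
  have hc : ¬ (p : ℤ) ∣ f.leadingCoeff := by
    intro h1
    have h2 := Int.natAbs_dvd_natAbs.2 h1
    rw [Int.natAbs_natCast] at h2
    exact absurd (Nat.le_of_dvd (Int.natAbs_pos.2 h.lc) h2) (not_le.2 hcp)
  have hne : ∀ R : ℤ × ℤ, form f R ≠ 0 → lf f.leadingCoeff a R ≠ 0 := by
    intro R hR h1
    have h2 := h.norm_lf hf R
    rw [h1, Algebra.norm_zero] at h2
    rcases mul_eq_zero.1 h2.symm with h3 | h3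
    · exact (pow_ne_zero _ h.lc) h3
    · exact hR h3
  rw [mu_mul q (hne P hP3) (hne Q hQ3)]
  obtain ⟨k1, hk1⟩ := parity hP3 hPd p
  obtain ⟨k2, hk2⟩ := parity hQ3 hQd p
  have hd0 : d ≠ 0 := by
    rw [← hPd]
    exact sfp_ne_zero _ hP3
  -- if `p` divides `d` then both or none
  have hdd : (p : ℤ) ∣ d → (p : ℤ) ∣ dt P Q := by
    intro h1
    refine dvd_trans ?_ hdt
    rw [Int.natCast_dvd_natCast]
    unfold rough
    refine Finset.dvd_prod_of_mem (fun p => p) (Finset.mem_filter.2 ⟨?_, hpT h1⟩)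
    refine Nat.mem_primeFactors.2 ⟨hp, ?_, Int.natAbs_ne_zero.2 hd0⟩
    have h2 := Int.natAbs_dvd_natAbs.2 h1
    rwa [Int.natAbs_natCast] at h2
  have hnd : ¬ (p : ℤ) ∣ d → d.natAbs.factorization p = 0 := by
    intro h1
    apply Nat.factorization_eq_zero_of_not_dvd
    intro h2
    exact h1 (Int.natCast_dvd.2 h2)
  by_cases hlP : lf f.leadingCoeff a P ∈ q <;> by_cases hlQ : lf f.leadingCoeff a Q ∈ q
  · rw [h.val hf hp hcp hMp hPp hP3 hq hpq hlP, h.val hf hp hcp hMp hQp hQ3 hq hpq hlQ, hk1, hk2]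
    exact ⟨d.natAbs.factorization p + k1 + k2, by ring⟩
  · rw [h.val hf hp hcp hMp hPp hP3 hq hpq hlP, mu_eq_zero hlQ, hk1]
    by_cases h1 : (p : ℤ) ∣ d
    · exact absurd (both_mem hq hp hpq hc hPp (hdd h1) hlP) hlQ
    · rw [hnd h1]
      exact ⟨k1, by ring⟩
  · rw [mu_eq_zero hlP, h.val hf hp hcp hMp hQp hQ3 hq hpq hlQ, hk2]
    by_cases h1 : (p : ℤ) ∣ d
    · refine absurd (both_mem hq hp hpq hc hQp ?_ hlQ) hlP
      rw [dt_swap, dvd_neg]
      exact hdd h1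
    · rw [hnd h1]
      exact ⟨k2, by ring⟩
  · rw [mu_eq_zero hlP, mu_eq_zero hlQ]
    exact ⟨0, rfl⟩

end Pool.Agent.SQT
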