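import Pool.Agent.Helper83.TW.T5

/-!
# SQT-Exc: Mertens with a few primes removed

The sum over the primes of `prm z N` not dividing `D` is `R f z N` minus the sum over those dividing `D`.
`R_lower` with `ε = 1/4` bounds the first from below, and the second is at most
`(n/z) log |D| ≤ (n A/z) log N ≤ (1/4) log N` by `card_rts_le` and `log_prod_le`.
-/

set_option autoImplicit false

namespace Pool.Agent.SQT

open Pool.Agent.Helper83.TW

theorem exc_mertens (f : Polynomial ℤ) (hirr : Irreducible (f.map (Int.castRingHom ℚ))) (A z : ℕ)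
    (hz : Nice f z) (hA : 4 * f.natDegree * A ≤ z) (hz1 : 1 ≤ z) : ∃ N₀ : ℕ, ∀ N : ℕ, N₀ ≤ N →
    ∀ D : ℤ, D ≠ 0 → |(D : ℝ)| ≤ (N : ℝ) ^ A →
    (1 / 2 : ℝ) * Real.log N ≤ ∑ p ∈ (prm z N).filter (fun p : ℕ => ¬ (p : ℤ) ∣ D),
      ((rts f p).card : ℝ) * Real.log (p : ℝ) / p := by
  obtain ⟨Y₀, hY₀⟩ := R_lower f hirr (1 / 4) (by norm_num) z
  refine ⟨max Y₀ 1, fun N hN D hD hDN => ?_⟩
  have hN0 : Y₀ ≤ N := (le_max_left _ _).trans hN
  have hN1 : 1 ≤ N := (le_max_right _ _).trans hN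
  have hlogN : 0 ≤ Real.log (N : ℝ) := Real.log_nonneg (by exact_mod_cast hN1)
  have hR := hY₀ N hN0
  have hzr : (1 : ℝ) ≤ (z : ℝ) := by exact_mod_cast hz1
  have hzp : (0 : ℝ) < (z : ℝ) := by linarith
  have hsplit : R f z N =
      (∑ p ∈ (prm z N).filter (fun p : ℕ => (p : ℤ) ∣ D),
        ((rts f p).card : ℝ) * Real.log (p : ℝ) / p) +
      ∑ p ∈ (prm z N).filter (fun p : ℕ => ¬ (p : ℤ) ∣ D),
        ((rts f p).card : ℝ) * Real.log (p : ℝ) / p := by
    rw [R, Finset.sum_filter_add_sum_filter_not]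
  have hterm : (∑ p ∈ (prm z N).filter (fun p : ℕ => (p : ℤ) ∣ D),
      ((rts f p).card : ℝ) * Real.log (p : ℝ) / p) ≤
      ∑ p ∈ (prm z N).filter (fun p : ℕ => (p : ℤ) ∣ D),
        ((f.natDegree : ℝ) / z) * Real.log (p : ℝ) := by
    refine Finset.sum_le_sum fun p hp => ?_
    rw [Finset.mem_filter, mem_prm] at hp
    obtain ⟨⟨hzp', _, hpp⟩, _⟩ := hp
    have hc : ((rts f p).card : ℝ) ≤ (f.natDegree : ℝ) := by
      exact_mod_cast card_rts_le f p hpp (hz.lead p hpp hzp')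
    have hzp2 : (z : ℝ) ≤ (p : ℝ) := by exact_mod_cast hzp'.le
    have hp1 : (1 : ℝ) ≤ (p : ℝ) := by exact_mod_cast hpp.one_lt.le
    have hlog : 0 ≤ Real.log (p : ℝ) := Real.log_nonneg hp1
    calc ((rts f p).card : ℝ) * Real.log (p : ℝ) / p
        ≤ ((f.natDegree : ℝ) * Real.log (p : ℝ)) / z := by gcongr
      _ = ((f.natDegree : ℝ) / z) * Real.log (p : ℝ) := by ring
  have hlp : ∑ p ∈ (prm z N).filter (fun p : ℕ => (p : ℤ) ∣ D), Real.log (p : ℝ) ≤
      Real.log |(D : ℝ)| := by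
    refine log_prod_le D hD _ fun p hp => ?_
    rw [Finset.mem_filter, mem_prm] at hp
    exact ⟨hp.1.2.2, hp.2⟩
  have hDpos : 0 < |(D : ℝ)| := abs_pos.2 (by exact_mod_cast hD)
  have hDlog : Real.log |(D : ℝ)| ≤ (A : ℝ) * Real.log (N : ℝ) := by
    calc Real.log |(D : ℝ)| ≤ Real.log ((N : ℝ) ^ A) := Real.log_le_log hDpos hDN
      _ = (A : ℝ) * Real.log (N : ℝ) := Real.log_pow _ _
  have hAr : (4 : ℝ) * f.natDegree * A ≤ z := by exact_mod_cast hA
  have hq : (0 : ℝ) ≤ (f.natDegree : ℝ) / z := by positivity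
  have hfin : ∑ p ∈ (prm z N).filter (fun p : ℕ => (p : ℤ) ∣ D),
      ((f.natDegree : ℝ) / z) * Real.log (p : ℝ) ≤ (1 / 4) * Real.log (N : ℝ) := by
    rw [← Finset.mul_sum]
    calc ((f.natDegree : ℝ) / z) * ∑ p ∈ (prm z N).filter (fun p : ℕ => (p : ℤ) ∣ D),
          Real.log (p : ℝ)
        ≤ ((f.natDegree : ℝ) / z) * ((A : ℝ) * Real.log (N : ℝ)) :=
          mul_le_mul_of_nonneg_left (hlp.trans hDlog) hq
      _ = ((f.natDegree : ℝ) * A / z) * Real.log (N : ℝ) := by ring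
      _ ≤ (1 / 4) * Real.log (N : ℝ) := by
          refine mul_le_mul_of_nonneg_right ?_ hlogN
          rw [div_le_iff₀ hzp]
          linarith
  linarith

end Pool.Agent.SQT
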