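import Pool.Agent.SQT.Defs

/-!
# SQT-Prp: proportional points have the same squarefree part (even degree)

PLAN.  `dt P Q = 0` with `P.1 ≠ 0`, `Q.1 ≠ 0`: `Q.1 • P = P.1 • Q` as vectors (second coordinate: `Q.1 P.2 = P.1 Q.2`), and `form f` is homogeneous of degree `n` (from the definition), so
`Q.1^n form f P = P.1^n form f Q`, `n` even: `form f P * y^2 = form f Q * x^2` with nonzero integers `x, y`.  And `sfp (k y^2) = sfp k` for `k ≠ 0`, `y ≠ 0` (same sign; the parity of the exponents
`factorization (k y^2) p = factorization k p + 2 factorization y p` is the same and the odd primes are the same), or use uniqueness of the squarefree part from `sfp_spec`, `sfp_squarefree`.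
-/

set_option autoImplicit false

namespace Pool.Agent.SQT

open Pool.Agent.Helper83.TW

private theorem form_smul (f : Polynomial ℤ) (k : ℤ) (P : ℤ × ℤ) :
    form f (k * P.1, k * P.2) = k ^ f.natDegree * form f P := by
  unfold form
  rw [Finset.mul_sum]
  refine Finset.sum_congr rfl fun i hi => ?_
  have h1 : i ≤ f.natDegree := by
    rw [Finset.mem_range] at hi
    omega
  have h2 : k ^ f.natDegree = k ^ i * k ^ (f.natDegree - i) := by
    rw [← pow_add]
    congr 1
    omega
  simp only
  rw [h2, mul_pow, mul_pow]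
  ring

private theorem filt_eq (N m : ℕ) (hN : N ≠ 0) (hm : m ≠ 0) :
    (N * m ^ 2).primeFactors.filter (fun p => Odd ((N * m ^ 2).factorization p)) =
      N.primeFactors.filter (fun p => Odd (N.factorization p)) := by
  have hm2 : m ^ 2 ≠ 0 := pow_ne_zero _ hm
  ext p
  rw [Finset.mem_filter, Finset.mem_filter]
  have hf : (N * m ^ 2).factorization p = N.factorization p + 2 * m.factorization p := by
    rw [Nat.factorization_mul hN hm2, Nat.factorization_pow]
    simp
  have hodd : Odd ((N * m ^ 2).factorization p) ↔ Odd (N.factorization p) := by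
    rw [hf, Nat.odd_iff, Nat.odd_iff]
    omega
  rw [hodd]
  constructor
  · rintro ⟨-, h2⟩
    refine ⟨?_, h2⟩
    rw [← Nat.support_factorization, Finsupp.mem_support_iff]
    intro h0
    rw [h0] at h2
    exact absurd h2 (by decide)
  · rintro ⟨h1, h2⟩
    refine ⟨?_, h2⟩
    rw [← Nat.support_factorization, Finsupp.mem_support_iff]
    intro h0
    rw [hf] at h0
    have h3 : N.factorization p = 0 := by omega
    rw [h3] at h2
    exact absurd h2 (by decide)

private theorem sfp_mul_sq (k y : ℤ) (hk : k ≠ 0) (hy : y ≠ 0) : sfp (k * y ^ 2) = sfp k := by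
  unfold sfp
  have h1 : (k * y ^ 2).sign = k.sign := by
    rw [Int.sign_mul, Int.sign_eq_one_of_pos (by positivity : 0 < y ^ 2), mul_one]
  have h2 : (k * y ^ 2).natAbs = k.natAbs * y.natAbs ^ 2 := by
    rw [Int.natAbs_mul, Int.natAbs_pow]
  rw [h1, h2, filt_eq k.natAbs y.natAbs (Int.natAbs_ne_zero.mpr hk) (Int.natAbs_ne_zero.mpr hy)]

theorem sfp_eq_of_dt (f : Polynomial ℤ) (he : Even f.natDegree) {P Q : ℤ × ℤ} (hP : P.1 ≠ 0) (hQ : Q.1 ≠ 0)
    (hP0 : form f P ≠ 0) (hQ0 : form f Q ≠ 0) (h : dt P Q = 0) : sfp (form f P) = sfp (form f Q) := by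
  unfold dt at h
  have h1 : (Q.1 * P.1, Q.1 * P.2) = (P.1 * Q.1, P.1 * Q.2) := by
    refine Prod.ext ?_ ?_
    · exact mul_comm _ _
    · simp only
      linarith
  have h2 : Q.1 ^ f.natDegree * form f P = P.1 ^ f.natDegree * form f Q := by
    rw [← form_smul, ← form_smul, h1]
  obtain ⟨k, hk⟩ := he
  have h3 : form f P * (Q.1 ^ k) ^ 2 = form f Q * (P.1 ^ k) ^ 2 := by
    have h4 : ∀ x : ℤ, x ^ f.natDegree = (x ^ k) ^ 2 := by
      intro x
      rw [hk, ← pow_mul, mul_two]
    rw [h4, h4] at h2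
    linarith
  rw [← sfp_mul_sq (form f P) (Q.1 ^ k) hP0 (pow_ne_zero _ hQ), h3,
    sfp_mul_sq (form f Q) (P.1 ^ k) hQ0 (pow_ne_zero _ hP)]

end Pool.Agent.SQT
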