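import Mathlib

/-!
# SQT-Lsv: Gallagher's larger sieve

PLAN.  For `q ∈ Q` let `S_c`, `c` in the image of `col q`, be the colour classes: `|S|^2 = (∑_c |S_c|)^2 ≤ ν q * ∑_c |S_c|^2` (Cauchy-Schwarz, `inner_mul_le_norm_mul_norm` or
`sq_sum_le_card_mul_sum_sq`), and `∑_c |S_c|^2` is the number of pairs `(i, j) ∈ S × S` with `col q i = col q j`.  Sum with the weights `w q`: `|S|^2 ∑ w q / ν q ≤ ∑_{i, j ∈ S} ∑_{q : col q i = col q j} w q ≤
|S| A + |S|^2 B` (diagonal and off diagonal terms).  With `2 B ≤ ∑ w q / ν q`: `|S|^2 B ≤ |S| A`; divide by `|S|` (if `S` is empty the claim is `0 ≤ A`, which follows from `hA` and `hw`).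
-/

set_option autoImplicit false

namespace Pool.Agent.SQT

private theorem lsv_one {ι γ : Type} [DecidableEq ι] [DecidableEq γ] (S : Finset ι) (c : ι → γ) :
    (S.card : ℝ) ^ 2 ≤ ((S.image c).card : ℝ) *
      ∑ i ∈ S, ∑ j ∈ S, (if c i = c j then (1 : ℝ) else 0) := by
  have h1 : (S.card : ℝ) = ∑ y ∈ S.image c, ((S.filter (fun x => c x = y)).card : ℝ) := by
    rw [← Nat.cast_sum]
    congr 1
    exact Finset.card_eq_sum_card_image c S
  have h2 : ∑ y ∈ S.image c, ((S.filter (fun x => c x = y)).card : ℝ) ^ 2 =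
      ∑ i ∈ S, ∑ j ∈ S, (if c i = c j then (1 : ℝ) else 0) := by
    rw [← Finset.sum_fiberwise_of_maps_to (s := S) (t := S.image c) (g := c)
      (fun x hx => Finset.mem_image_of_mem c hx)]
    apply Finset.sum_congr rfl
    intro y _
    have : ∀ i ∈ S.filter (fun x => c x = y), ∑ j ∈ S, (if c i = c j then (1 : ℝ) else 0) =
        ((S.filter (fun x => c x = y)).card : ℝ) := by
      intro i hi
      rw [Finset.mem_filter] at hi
      rw [hi.2, Finset.sum_boole]
      congr 2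
      apply Finset.filter_congr
      intro x _
      exact eq_comm
    rw [Finset.sum_congr rfl this, Finset.sum_const, nsmul_eq_mul, sq]
  rw [← h2]
  conv_lhs => rw [h1]
  exact sq_sum_le_card_mul_sum_sq

theorem lsv {ι κ γ : Type} [DecidableEq ι] [DecidableEq γ] (S : Finset ι) (Q : Finset κ) (w ν : κ → ℝ)
    (hw : ∀ q ∈ Q, 0 ≤ w q) (hν : ∀ q ∈ Q, 0 < ν q) (col : κ → ι → γ)
    (hcol : ∀ q ∈ Q, ((S.image (col q)).card : ℝ) ≤ ν q) (A B : ℝ)
    (hA : ∑ q ∈ Q, w q ≤ A)
    (hB : ∀ i ∈ S, ∀ j ∈ S, i ≠ j → ∑ q ∈ Q, (if col q i = col q j then w q else 0) ≤ B)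
    (hB0 : 0 ≤ B) (hL : 2 * B ≤ ∑ q ∈ Q, w q / ν q) : (S.card : ℝ) * B ≤ A := by
  have hA0 : 0 ≤ A := le_trans (Finset.sum_nonneg hw) hA
  rcases Nat.eq_zero_or_pos S.card with h0 | hpos
  · rw [h0]; simpa using hA0
  have hs : (0 : ℝ) < (S.card : ℝ) := by exact_mod_cast hpos
  have h1 : ∀ q ∈ Q, (S.card : ℝ) ^ 2 * (w q / ν q) ≤
      ∑ i ∈ S, ∑ j ∈ S, (if col q i = col q j then w q else 0) := by
    intro q hq
    have hn : (0 : ℝ) ≤ ∑ i ∈ S, ∑ j ∈ S, (if col q i = col q j then (1 : ℝ) else 0) := by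
      apply Finset.sum_nonneg
      intro i _
      apply Finset.sum_nonneg
      intro j _
      split_ifs <;> norm_num
    have h := (lsv_one S (col q)).trans (mul_le_mul_of_nonneg_right (hcol q hq) hn)
    have h2 : ∑ i ∈ S, ∑ j ∈ S, (if col q i = col q j then w q else 0) =
        w q * ∑ i ∈ S, ∑ j ∈ S, (if col q i = col q j then (1 : ℝ) else 0) := by
      rw [Finset.mul_sum]
      apply Finset.sum_congr rfl
      intro i _
      rw [Finset.mul_sum]
      apply Finset.sum_congr rfl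
      intro j _
      split_ifs <;> simp
    rw [h2]
    have hν' := hν q hq
    have h3 : 0 ≤ w q / ν q := div_nonneg (hw q hq) hν'.le
    calc (S.card : ℝ) ^ 2 * (w q / ν q)
        ≤ (ν q * ∑ i ∈ S, ∑ j ∈ S, (if col q i = col q j then (1 : ℝ) else 0)) * (w q / ν q) :=
          mul_le_mul_of_nonneg_right h h3
      _ = w q * ∑ i ∈ S, ∑ j ∈ S, (if col q i = col q j then (1 : ℝ) else 0) := by
          field_simp
  have h2 : (S.card : ℝ) ^ 2 * ∑ q ∈ Q, w q / ν q ≤
      ∑ i ∈ S, ∑ j ∈ S, ((if i = j then A else 0) + B) := by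
    rw [Finset.mul_sum]
    refine (Finset.sum_le_sum h1).trans ?_
    rw [Finset.sum_comm]
    apply Finset.sum_le_sum
    intro i hi
    rw [Finset.sum_comm]
    apply Finset.sum_le_sum
    intro j hj
    by_cases hij : i = j
    · subst hij
      simp only [if_true]
      linarith
    · rw [if_neg hij, zero_add]
      exact hB i hi j hj hij
  have h3 : ∑ i ∈ S, ∑ j ∈ S, ((if i = j then A else 0) + B) =
      (S.card : ℝ) * A + (S.card : ℝ) ^ 2 * B := by
    have : ∀ i ∈ S, ∑ j ∈ S, ((if i = j then A else 0) + B) = A + (S.card : ℝ) * B := by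
      intro i hi
      rw [Finset.sum_add_distrib, Finset.sum_ite_eq, if_pos hi, Finset.sum_const, nsmul_eq_mul]
    rw [Finset.sum_congr rfl this, Finset.sum_const, nsmul_eq_mul]
    ring
  rw [h3] at h2
  have h4 : (S.card : ℝ) ^ 2 * (2 * B) ≤ (S.card : ℝ) ^ 2 * ∑ q ∈ Q, w q / ν q :=
    mul_le_mul_of_nonneg_left hL (sq_nonneg _)
  have h5 : (S.card : ℝ) * ((S.card : ℝ) * B) ≤ (S.card : ℝ) * A := by nlinarith
  exact le_of_mul_le_mul_left h5 hs

end Pool.Agent.SQT
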