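import Pool.Agent.SQT.Rsd
import Pool.Agent.SQT.Lsv
import Pool.Agent.SQT.ESum
import Pool.Agent.SQT.Exc

/-!
# SQT-Sv: the larger sieve bound

PLAN.  Let `c = f.leadingCoeff`, `n = natDegree f`, `D = 2 ∏_k v_k ∏_{(k, l), k ≠ l} (u_k v_l - u_l v_k) ≠ 0`, so `|D| ≤ N^A` with `A = 1 + m + 3 m^2` (`N ≥ 2`, `|u|, |v| ≤ N`: each factor
`u_k v_l - u_l v_k` is at most `2 N^2 ≤ N^3`).  `Q` = the set of pairs `(p, t)`, `p ∈ prm z N`, `p ∤ D`, `t ∈ rts f p` (a `Finset.sigma`, or a filtered product), `w (p, t) = log p`, `ν (p, t) = 2 p/(m+1)`.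
For such `(p, t)` let `A_i = x_{P i} - t y_{P i}`, `B_i = x_{Q i} - t y_{Q i}` in `ZMod p`.  The homomorphism `φ` of `Gen.hom` maps `lf R` to `c (x_R - t y_R)`, so `hsq` gives that
`c^4 A_i (u_k A_i + v_k B_i) A_j (u_k A_j + v_k B_j)` is a square in `ZMod p`, hence also without `c^4` (`c ≠ 0`).  `rsd` gives the colouring `col (p, t)` with at most
`(p + (m+1)(m+2))/(m+1) ≤ 2 p/(m+1)` values (`p > z ≥ (m+1)(m+2)`), and equal colours give `p ∣ e(t)` (the expression in `Gen.E_sum` with `P = P i, Q = Q i, P' = P j, Q' = Q j`).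
`lsv` with `A = n * (2 N)` (`theta_le`, `card_rts_le`), `B = n (2 n log N + C)` (`Gen.E_sum`), which is `≤ 3 n^2 log N` for large `N`, and `∑ w/ν = (m+1)/2 * ∑ card (rts f p) log p/p ≥ (m+1)/4 * log N ≥ 6 n^2 log N ≥ 2 B`
(`exc_mertens` needs `4 n A ≤ z`; the constant `z1` below is `max` of all requirements: `(m+1)(m+2)`, `4 n (1 + m + 3 m^2)`, `2`).  So `card * B ≤ 2 n N` and `B ≥ 2 n^2 log N ≥ 2 n` give `card ≤ N`.
-/

set_option autoImplicit false

namespace Pool.Agent.SQT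

open NumberField Pool.Agent.Helper83.TW

variable {f : Polynomial ℤ} {K : Type} [Field K] [NumberField K] {a : 𝓞 K} {M : ℤ}

private theorem sv_sq_of_mul {F : Type} [Field F] {c x : F} (hc : c ≠ 0) (h : IsSquare (c ^ 4 * x)) : IsSquare x := by
  obtain ⟨w, hw⟩ := h
  refine ⟨w / c ^ 2, ?_⟩
  have h1 : w / c ^ 2 * (w / c ^ 2) = (w * w) / c ^ 4 := by
    rw [div_mul_div_comm]
    congr 1
    ring
  rw [h1, ← hw]
  field_simp

private theorem sv_phi (h : Gen f K a M) {p : ℕ} (hp : p.Prime) (hc : f.leadingCoeff.natAbs < p)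
    (hM : M.natAbs < p) (t : ℤ) (ht : (p : ℤ) ∣ f.eval t) (P Q P' Q' : ℤ × ℤ) (u v : ℤ)
    (hsq : IsSquare
        (lf f.leadingCoeff a P * ((u : 𝓞 K) * lf f.leadingCoeff a P +
            (v : 𝓞 K) * lf f.leadingCoeff a Q) *
          (lf f.leadingCoeff a P' * ((u : 𝓞 K) * lf f.leadingCoeff a P' +
            (v : 𝓞 K) * lf f.leadingCoeff a Q')))) :
    IsSquare ((((P.1 - t * P.2 : ℤ) : ZMod p) * ((u : ZMod p) * ((P.1 - t * P.2 : ℤ) : ZMod p) +
      (v : ZMod p) * ((Q.1 - t * Q.2 : ℤ) : ZMod p)) *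
      (((P'.1 - t * P'.2 : ℤ) : ZMod p) * ((u : ZMod p) * ((P'.1 - t * P'.2 : ℤ) : ZMod p) +
      (v : ZMod p) * ((Q'.1 - t * Q'.2 : ℤ) : ZMod p))))) := by
  have : Fact p.Prime := ⟨hp⟩
  have hcp : ((f.leadingCoeff : ℤ) : ZMod p) ≠ 0 := by
    intro h0
    rw [ZMod.intCast_zmod_eq_zero_iff_dvd] at h0
    have h1 : p ∣ f.leadingCoeff.natAbs := Int.natCast_dvd.1 h0
    have h2 := Nat.le_of_dvd (Int.natAbs_pos.2 h.lc) h1
    omega
  obtain ⟨φ, hφ⟩ := h.hom hp hc hM t ht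
  have hlf : ∀ R : ℤ × ℤ, φ (lf f.leadingCoeff a R) =
      (f.leadingCoeff : ZMod p) * ((R.1 - t * R.2 : ℤ) : ZMod p) := by
    intro R
    unfold lf
    rw [map_sub, map_mul, map_intCast, map_intCast, hφ]
    push_cast
    ring
  have h1 := hsq.map φ
  simp only [map_mul, map_add, map_intCast, hlf] at h1
  refine sv_sq_of_mul hcp ?_
  obtain ⟨w, hw⟩ := h1
  refine ⟨w, ?_⟩
  rw [← hw]
  ring

private theorem sv_D {m N : ℕ} (hN : 2 ≤ N) (u v : Fin m → ℤ) (hv : ∀ k, v k ≠ 0)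
    (huv : ∀ k l, k ≠ l → u k * v l ≠ u l * v k)
    (hbd : ∀ k, |u k| ≤ (N : ℤ) ∧ |v k| ≤ (N : ℤ)) :
    ∃ D : ℤ, D ≠ 0 ∧ |(D : ℝ)| ≤ (N : ℝ) ^ (1 + m + 3 * m ^ 2) ∧ (∀ k, v k ∣ D) ∧
      ∀ k l, k ≠ l → (u k * v l - u l * v k) ∣ D := by
  classical
  have hN1 : (1 : ℤ) ≤ N := by exact_mod_cast (by omega : 1 ≤ N)
  set E : Fin m → Fin m → ℤ := fun k l => if k = l then 1 else u k * v l - u l * v k with hE
  have hE0 : ∀ k l, E k l ≠ 0 := by
    intro k l
    simp only [hE]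
    split_ifs with hkl
    · exact one_ne_zero
    · exact sub_ne_zero.mpr (huv k l hkl)
  have hEb : ∀ k l, |E k l| ≤ (N : ℤ) ^ 3 := by
    intro k l
    simp only [hE]
    split_ifs with hkl
    · rw [abs_one]
      exact one_le_pow₀ hN1
    · have h1 : |u k * v l| ≤ (N : ℤ) * N := by
        rw [abs_mul]
        exact mul_le_mul (hbd k).1 (hbd l).2 (abs_nonneg _) (by omega)
      have h2 : |u l * v k| ≤ (N : ℤ) * N := by
        rw [abs_mul]
        exact mul_le_mul (hbd l).1 (hbd k).2 (abs_nonneg _) (by omega)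
      have h3 := abs_sub (u k * v l) (u l * v k)
      have h4 : (2 : ℤ) ≤ N := by exact_mod_cast hN
      nlinarith [mul_nonneg (by omega : (0 : ℤ) ≤ (N : ℤ)) (by omega : (0 : ℤ) ≤ (N : ℤ))]
  refine ⟨2 * (∏ k, v k) * ∏ k, ∏ l, E k l, ?_, ?_, ?_, ?_⟩
  · refine mul_ne_zero (mul_ne_zero two_ne_zero (Finset.prod_ne_zero_iff.mpr fun k _ => hv k)) ?_
    exact Finset.prod_ne_zero_iff.mpr fun k _ => Finset.prod_ne_zero_iff.mpr fun l _ => hE0 k l
  · have hz : |(2 * (∏ k, v k) * ∏ k, ∏ l, E k l : ℤ)| ≤ (N : ℤ) ^ (1 + m + 3 * m ^ 2) := by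
      rw [abs_mul, abs_mul, Finset.abs_prod, Finset.abs_prod, pow_add, pow_add, pow_one]
      have h1 : |(2 : ℤ)| ≤ N := by rw [abs_of_pos (by norm_num : (0 : ℤ) < 2)]; exact_mod_cast hN
      have h2 : ∏ k, |v k| ≤ (N : ℤ) ^ m := by
        calc ∏ k, |v k| ≤ ∏ _k : Fin m, (N : ℤ) :=
              Finset.prod_le_prod (fun k _ => abs_nonneg _) (fun k _ => (hbd k).2)
          _ = (N : ℤ) ^ m := by simp
      have h3 : ∏ k, |∏ l, E k l| ≤ (N : ℤ) ^ (3 * m ^ 2) := by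
        calc ∏ k, |∏ l, E k l| ≤ ∏ _k : Fin m, ((N : ℤ) ^ 3) ^ m := by
              refine Finset.prod_le_prod (fun k _ => abs_nonneg _) (fun k _ => ?_)
              rw [Finset.abs_prod]
              calc ∏ l, |E k l| ≤ ∏ _l : Fin m, ((N : ℤ) ^ 3) :=
                    Finset.prod_le_prod (fun l _ => abs_nonneg _) (fun l _ => hEb k l)
                _ = ((N : ℤ) ^ 3) ^ m := by simp
          _ = (N : ℤ) ^ (3 * m ^ 2) := by
              rw [Finset.prod_const, Finset.card_univ, Fintype.card_fin, ← pow_mul, ← pow_mul]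
              congr 1
              ring
      have h4 : (0 : ℤ) ≤ ∏ k, |v k| := Finset.prod_nonneg fun k _ => abs_nonneg _
      have h5 : (0 : ℤ) ≤ ∏ k, |∏ l, E k l| := Finset.prod_nonneg fun k _ => abs_nonneg _
      exact mul_le_mul (mul_le_mul h1 h2 h4 (by omega)) h3 h5 (by positivity)
    have := (Int.cast_le (R := ℝ)).mpr hz
    rw [Int.cast_abs] at this
    refine this.trans (le_of_eq ?_)
    push_cast
    ring
  · intro k
    exact ((Finset.dvd_prod_of_mem _ (Finset.mem_univ k)).mul_left 2).mul_right _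
  · intro k l hkl
    have h1 : E k l ∣ ∏ k, ∏ l, E k l :=
      (Finset.dvd_prod_of_mem (fun l => E k l) (Finset.mem_univ l)).trans
        (Finset.dvd_prod_of_mem (fun k => ∏ l, E k l) (Finset.mem_univ k))
    have h2 : E k l = u k * v l - u l * v k := by simp only [hE, if_neg hkl]
    rw [← h2]
    exact h1.mul_left _

theorem Gen.sieve (h : Gen f K a M) (hf : 3 ≤ f.natDegree) (m : ℕ) (hm : 24 * f.natDegree ^ 2 ≤ m + 1) :
    ∃ z₁ : ℕ, ∀ z : ℕ, z₁ ≤ z → Nice f z → f.leadingCoeff.natAbs ≤ z → M.natAbs ≤ z →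
    ∃ N₀ : ℕ, ∀ N : ℕ, N₀ ≤ N → ∀ (S : Finset ℤ) (P Q : ℤ → ℤ × ℤ) (u v : Fin m → ℤ),
      (∀ i ∈ S, P i ∈ box N ∧ Q i ∈ box N ∧ dt (P i) (Q i) ≠ 0) →
      (∀ i ∈ S, ∀ j ∈ S, i ≠ j → dt (P i) (P j) ≠ 0) →
      (∀ k, v k ≠ 0) → (∀ k l, k ≠ l → u k * v l ≠ u l * v k) →
      (∀ k, |u k| ≤ (N : ℤ) ∧ |v k| ≤ (N : ℤ)) →
      (∀ i ∈ S, ∀ j ∈ S, ∀ k, IsSquare
        (lf f.leadingCoeff a (P i) * ((u k : 𝓞 K) * lf f.leadingCoeff a (P i) +
            (v k : 𝓞 K) * lf f.leadingCoeff a (Q i)) *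
          (lf f.leadingCoeff a (P j) * ((u k : 𝓞 K) * lf f.leadingCoeff a (P j) +
            (v k : 𝓞 K) * lf f.leadingCoeff a (Q j))))) →
      S.card ≤ N := by
  classical
  obtain ⟨C, hC0, hC⟩ := h.E_sum hf
  set n : ℕ := f.natDegree with hn
  have hn3 : 3 ≤ n := hf
  refine ⟨max ((m + 1) * (m + 2)) (max (4 * n * (1 + m + 3 * m ^ 2)) 2), ?_⟩
  intro z hz hNice hlc hMz
  have hz1 : (m + 1) * (m + 2) ≤ z := (le_max_left _ _).trans hz
  have hz2 : 4 * n * (1 + m + 3 * m ^ 2) ≤ z := (le_max_left _ _).trans ((le_max_right _ _).trans hz)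
  have hz3 : 2 ≤ z := (le_max_right _ _).trans ((le_max_right _ _).trans hz)
  obtain ⟨N1, hN1⟩ := exc_mertens f h.irr (1 + m + 3 * m ^ 2) z hNice hz2 (by omega)
  refine ⟨max N1 (max 2 ⌈Real.exp (C + 1)⌉₊), ?_⟩
  intro N hN S P Q u v hPQ hdt hv huv hbd hsq
  have hNN1 : N1 ≤ N := (le_max_left _ _).trans hN
  have hN2 : 2 ≤ N := (le_max_left _ _).trans ((le_max_right _ _).trans hN)
  have hNe : Real.exp (C + 1) ≤ (N : ℝ) :=
    (Nat.le_ceil _).trans (by exact_mod_cast (le_max_right _ _).trans ((le_max_right _ _).trans hN))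
  have hNpos : (0 : ℝ) < (N : ℝ) := by exact_mod_cast (by omega : 0 < N)
  have hL : C + 1 ≤ Real.log N := by
    rw [Real.le_log_iff_exp_le hNpos]
    exact hNe
  obtain ⟨D, hD0, hDb, hDv, hDu⟩ := sv_D hN2 u v hv huv hbd
  have hmert := hN1 N hNN1 D hD0 hDb
  set prs : Finset ℕ := (prm z N).filter (fun p : ℕ => ¬ (p : ℤ) ∣ D) with hprs
  set PQ : Finset (Σ _ : ℕ, ℕ) := prs.sigma (fun p => rts f p) with hPQd
  have hm1 : (0 : ℝ) < (m : ℝ) + 1 := by positivity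
  have key : ∀ q ∈ PQ, ∃ col : ℤ → ℕ, ((S.image col).card : ℝ) ≤ 2 * (q.1 : ℝ) / ((m : ℝ) + 1) ∧
      ∀ i ∈ S, ∀ j ∈ S, col i = col j →
        (q.1 : ℤ) ∣ ((Q i).1 - (q.2 : ℤ) * (Q i).2) * ((P j).1 - (q.2 : ℤ) * (P j).2) -
          ((P i).1 - (q.2 : ℤ) * (P i).2) * ((Q j).1 - (q.2 : ℤ) * (Q j).2) := by
    rintro ⟨p, t⟩ hq
    rw [hPQd, Finset.mem_sigma] at hq
    obtain ⟨hp, ht⟩ := hq
    simp only at hp ht ⊢
    rw [hprs, Finset.mem_filter, mem_prm] at hp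
    obtain ⟨⟨hzp, hpN, hpp⟩, hpD⟩ := hp
    have : Fact p.Prime := ⟨hpp⟩
    have hnz : ∀ x : ℤ, x ∣ D → (x : ZMod p) ≠ 0 := by
      intro x hx h0
      rw [ZMod.intCast_zmod_eq_zero_iff_dvd] at h0
      exact hpD (h0.trans hx)
    obtain ⟨col, hcol1, hcol2⟩ := rsd (p := p) (by omega) S
      (fun i => (((P i).1 - (t : ℤ) * (P i).2 : ℤ) : ZMod p))
      (fun i => (((Q i).1 - (t : ℤ) * (Q i).2 : ℤ) : ZMod p)) m
      (fun k => ((u k : ℤ) : ZMod p)) (fun k => ((v k : ℤ) : ZMod p))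
      (fun k => hnz _ (hDv k))
      (by
        intro k l hkl h0
        have h1 := hnz _ (hDu k l hkl)
        apply h1
        push_cast
        exact sub_eq_zero.mpr h0)
      (by
        intro i hi j hj k
        exact sv_phi h hpp (lt_of_le_of_lt hlc hzp) (lt_of_le_of_lt hMz hzp) (t : ℤ) (mem_rts.mp ht).2
          (P i) (Q i) (P j) (Q j) (u k) (v k) (hsq i hi j hj k))
    refine ⟨col, ?_, ?_⟩
    · rw [le_div_iff₀ hm1]
      have h1 : (m + 1) * (S.image col).card ≤ 2 * p := by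
        have := hz1
        omega
      have h2 : (((m + 1) * (S.image col).card : ℕ) : ℝ) ≤ ((2 * p : ℕ) : ℝ) := by exact_mod_cast h1
      push_cast at h2
      linarith
    · intro i hi j hj hij
      have h1 := hcol2 i hi j hj hij
      rw [← ZMod.intCast_zmod_eq_zero_iff_dvd]
      push_cast at h1 ⊢
      rw [h1]
      ring
  choose! col hcol1 hcol2 using key
  have hlog : ∀ p : ℕ, 0 ≤ Real.log (p : ℝ) := fun p => Real.log_natCast_nonneg p
  have hLpos : 0 < Real.log (N : ℝ) := by linarith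
  have hnr : (3 : ℝ) ≤ (n : ℝ) := by exact_mod_cast hn3
  have hfin := lsv S PQ (fun q => Real.log (q.1 : ℝ)) (fun q => 2 * (q.1 : ℝ) / ((m : ℝ) + 1))
    (fun q _ => hlog q.1)
    (by
      rintro ⟨p, t⟩ hq
      rw [hPQd, Finset.mem_sigma] at hq
      have hp := hq.1
      simp only at hp ⊢
      rw [hprs, Finset.mem_filter, mem_prm] at hp
      have : 0 < p := hp.1.2.2.pos
      have : (0 : ℝ) < (p : ℝ) := by exact_mod_cast this
      positivity)
    col hcol1 ((n : ℝ) * (2 * (N : ℝ))) ((n : ℝ) * (2 * n * Real.log N + C))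
    (by
      rw [hPQd, Finset.sum_sigma]
      calc ∑ p ∈ prs, ∑ _t ∈ rts f p, Real.log (p : ℝ)
          ≤ ∑ p ∈ prs, (n : ℝ) * Real.log (p : ℝ) := by
            apply Finset.sum_le_sum
            intro p hp
            rw [hprs, Finset.mem_filter, mem_prm] at hp
            rw [Finset.sum_const, nsmul_eq_mul]
            apply mul_le_mul_of_nonneg_right _ (hlog p)
            exact_mod_cast card_rts_le f p hp.1.2.2 (hNice.lead p hp.1.2.2 hp.1.1)
        _ ≤ ∑ p ∈ prm z N, (n : ℝ) * Real.log (p : ℝ) := by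
            apply Finset.sum_le_sum_of_subset_of_nonneg (Finset.filter_subset _ _)
            intro p _ _
            exact mul_nonneg (Nat.cast_nonneg _) (hlog p)
        _ = (n : ℝ) * ∑ p ∈ prm z N, Real.log (p : ℝ) := by rw [Finset.mul_sum]
        _ ≤ (n : ℝ) * (2 * (N : ℝ)) := mul_le_mul_of_nonneg_left (theta_le z N) (Nat.cast_nonneg _))
    (by
      intro i hi j hj hij
      rw [hPQd, Finset.sum_sigma]
      calc ∑ p ∈ prs, ∑ t ∈ rts f p,
            (if col ⟨p, t⟩ i = col ⟨p, t⟩ j then Real.log (p : ℝ) else 0)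
          ≤ ∑ p ∈ prs, ∑ t ∈ rts f p,
            (if (p : ℤ) ∣ ((Q i).1 - (t : ℤ) * (Q i).2) * ((P j).1 - (t : ℤ) * (P j).2) -
              ((P i).1 - (t : ℤ) * (P i).2) * ((Q j).1 - (t : ℤ) * (Q j).2) then Real.log (p : ℝ) else 0) := by
            apply Finset.sum_le_sum
            intro p hp
            apply Finset.sum_le_sum
            intro t ht
            by_cases hc : col ⟨p, t⟩ i = col ⟨p, t⟩ j
            · rw [if_pos hc, if_pos (hcol2 ⟨p, t⟩ (Finset.mem_sigma.mpr ⟨hp, ht⟩) i hi j hj hc)]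
            · rw [if_neg hc]
              split_ifs
              · exact hlog p
              · exact le_rfl
        _ ≤ ∑ p ∈ prm z N, ∑ t ∈ rts f p,
            (if (p : ℤ) ∣ ((Q i).1 - (t : ℤ) * (Q i).2) * ((P j).1 - (t : ℤ) * (P j).2) -
              ((P i).1 - (t : ℤ) * (P i).2) * ((Q j).1 - (t : ℤ) * (Q j).2) then Real.log (p : ℝ) else 0) := by
            apply Finset.sum_le_sum_of_subset_of_nonneg (Finset.filter_subset _ _)
            intro p _ _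
            apply Finset.sum_nonneg
            intro t _
            split_ifs
            · exact hlog p
            · exact le_rfl
        _ ≤ _ := hC z N N (P i) (Q i) (P j) (Q j) hNice hlc hMz (by omega) (hPQ i hi).1 (hPQ i hi).2.1
            (hPQ j hj).1 (hPQ j hj).2.1 (hPQ i hi).2.2 (hdt i hi j hj hij))
    (by positivity)
    (by
      have h1 : ∑ q ∈ PQ, Real.log (q.1 : ℝ) / (2 * (q.1 : ℝ) / ((m : ℝ) + 1)) =
          ((m : ℝ) + 1) / 2 * ∑ p ∈ prs, ((rts f p).card : ℝ) * Real.log (p : ℝ) / p := by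
        rw [hPQd, Finset.sum_sigma, Finset.mul_sum]
        apply Finset.sum_congr rfl
        intro p hp
        rw [hprs, Finset.mem_filter, mem_prm] at hp
        have hp0 : (p : ℝ) ≠ 0 := by exact_mod_cast hp.1.2.2.pos.ne'
        have hs : ∀ s ∈ rts f p, Real.log (((⟨p, s⟩ : Σ _ : ℕ, ℕ).1 : ℕ) : ℝ) /
            (2 * (((⟨p, s⟩ : Σ _ : ℕ, ℕ).1 : ℕ) : ℝ) / ((m : ℝ) + 1)) =
            Real.log (p : ℝ) / (2 * (p : ℝ) / ((m : ℝ) + 1)) := fun _ _ => rfl
        rw [Finset.sum_congr rfl hs, Finset.sum_const, nsmul_eq_mul]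
        field_simp
      rw [h1]
      have h2 : (24 : ℝ) * (n : ℝ) ^ 2 ≤ (m : ℝ) + 1 := by exact_mod_cast hm
      have h3 : ((m : ℝ) + 1) / 2 * ((1 / 2) * Real.log N) ≤
          ((m : ℝ) + 1) / 2 * ∑ p ∈ prs, ((rts f p).card : ℝ) * Real.log (p : ℝ) / p :=
        mul_le_mul_of_nonneg_left hmert (by positivity)
      have h4 : (24 : ℝ) * (n : ℝ) ^ 2 * Real.log N ≤ ((m : ℝ) + 1) * Real.log N :=
        mul_le_mul_of_nonneg_right h2 hLpos.le
      have h5 : C ≤ (n : ℝ) * Real.log N := by nlinarith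
      have h6 : (n : ℝ) * C ≤ (n : ℝ) * ((n : ℝ) * Real.log N) :=
        mul_le_mul_of_nonneg_left h5 (by linarith)
      nlinarith)
  have hB : 2 * (n : ℝ) ≤ (n : ℝ) * (2 * n * Real.log N + C) := by
    have h1 : (1 : ℝ) ≤ n * Real.log N := by nlinarith
    nlinarith [mul_nonneg (by linarith : (0 : ℝ) ≤ (n : ℝ)) hC0]
  have hS0 : (0 : ℝ) ≤ (S.card : ℝ) := Nat.cast_nonneg _
  have h1 : (S.card : ℝ) * (2 * (n : ℝ)) ≤ (n : ℝ) * (2 * (N : ℝ)) :=
    (mul_le_mul_of_nonneg_left hB hS0).trans hfin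
  have h2 : (S.card : ℝ) ≤ (N : ℝ) := by nlinarith
  exact_mod_cast h2

end Pool.Agent.SQT
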