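import Pool.Agent.SQT.Evn
import Pool.Agent.SQT.Sv
import Pool.Agent.SQT.Prp

/-!
# SQT-Fib: the larger sieve for tuples with fixed parameters

PLAN.  Write `c = f.leadingCoeff`, `X_k d = P d k.succ` (`k : Fin (m + 1)`), so `X_0 d = P d (Fin.succ 0) = P d 1`.  Apply `Gen.sieve` with `m + 1` in place of `m`, `P d 0`, `P d (Fin.succ 0)` for `P d`, `Q d` and
`u, v` (if `S` is empty there is nothing to prove; otherwise fix `d₀ ∈ S`, `q = rough T d₀ ≥ 1`, `rough_pos`).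
* `box`: `Reg_sub`.  `dt (P i 0) (P j 0) ≠ 0` for `i ≠ j`: otherwise `sfp_eq_of_dt` gives `i = j` (`Reg` contains `P.1 ≠ 0` and `form f P ≠ 0`).
* `v k ≠ 0`: `dt (P d 0) (P d k.succ) ≠ 0`.
* `u_k v_l ≠ u_l v_k` for `k ≠ l`: Plücker `dt X_k Q * dt P X_l - dt X_l Q * dt P X_k = - dt P Q * dt X_k X_l` (up to sign; `unfold dt; ring`), with `P = P d₀ 0`, `Q = P d₀ (Fin.succ 0)`, `X_k = P d₀ k.succ`; the right side is not zero.
* squares: `lf_cramer` divided by `q` (cancel in `𝓞 K`, `q ≠ 0`): `v_0 lf X_k = u_k lf P + v_k lf Q` for every `d ∈ S` (with `v_0 = v 0`, as `dt P Q = q v_0`).  So the product in the hypothesis of the sieve is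
`v_0^2 * (lf P lf X_k)(i) * (lf P lf X_k)(j)`, and the product of the last two factors is a square by `hcol`: `lf ≠ 0` (its norm `Gen.norm_lf` is not zero) and the multiplicities are even at all `q' ∌ w` by
`Gen.evn` (if `p ∣ w` and `(p : 𝓞 K) ∈ q'` then `(w : 𝓞 K) ∈ q'`).
`z₁` = the maximum of the one of `Gen.sieve`, `|c|`, `|M|`.
-/

set_option autoImplicit false

namespace Pool.Agent.SQT

open NumberField Pool.Agent.Helper83.TW

variable {f : Polynomial ℤ} {K : Type} [Field K] [NumberField K] {a : 𝓞 K} {M : ℤ}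

private theorem fib_pluck (P Q X Y : ℤ × ℤ) :
    dt X Q * dt P Y - dt Y Q * dt P X = dt P Q * dt X Y := by
  unfold dt
  ring

private theorem fib_lf_ne (h : Gen f K a M) (hf : 1 ≤ f.natDegree) {P : ℤ × ℤ}
    (hP : form f P ≠ 0) : lf f.leadingCoeff a P ≠ 0 := by
  intro h0
  have h1 := h.norm_lf hf P
  rw [h0, Algebra.norm_zero] at h1
  exact mul_ne_zero (pow_ne_zero _ h.lc) hP h1.symm

/-- `P` is an independent tuple of regular points with the squarefree part `d` and divisible determinants. -/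
structure Tup (f : Polynomial ℤ) (z G N T m : ℕ) (d : ℤ) (P : Fin m → ℤ × ℤ) : Prop where
  reg : ∀ i, P i ∈ Reg f z G N
  sf : ∀ i, sfp (form f (P i)) = d
  ind : ∀ i j, i ≠ j → dt (P i) (P j) ≠ 0
  dvd : ∀ i j, (rough T d : ℤ) ∣ dt (P i) (P j)

theorem Gen.fib (h : Gen f K a M) (hf : 3 ≤ f.natDegree) (he : Even f.natDegree) (m : ℕ)
    (hm : 24 * f.natDegree ^ 2 ≤ m + 2) :
    ∃ z₁ : ℕ, ∀ z G : ℕ, z₁ ≤ z → Nice f z → 1 ≤ G → G ≤ z → ∃ N₀ : ℕ, ∀ N : ℕ, N₀ ≤ N →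
    ∀ (T : ℕ) (S : Finset ℤ) (P : ℤ → Fin (m + 2) → ℤ × ℤ) (u v : Fin (m + 1) → ℤ) (w : ℕ) (col : 𝓞 K → ℕ),
      z ≤ T → (∀ d ∈ S, Tup f z G N T (m + 2) d (P d)) →
      (∀ d ∈ S, ∀ k : Fin (m + 1), dt (P d k.succ) (P d (Fin.succ 0)) = rough T d * u k ∧
        dt (P d 0) (P d k.succ) = rough T d * v k) →
      (∀ k, |u k| ≤ (N : ℤ) ∧ |v k| ≤ (N : ℤ)) →
      (∀ d ∈ S, ∀ p : ℕ, p.Prime → (p ≤ z ∨ (p ≤ T ∧ (p : ℤ) ∣ d)) → p ∣ w) →
      (∀ x y : 𝓞 K, x ≠ 0 → y ≠ 0 →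
        (∀ q : Ideal (𝓞 K), q.IsPrime → q ≠ ⊥ → (w : 𝓞 K) ∉ q → Even (mu q x)) →
        (∀ q : Ideal (𝓞 K), q.IsPrime → q ≠ ⊥ → (w : 𝓞 K) ∉ q → Even (mu q y)) →
        col x = col y → IsSquare (x * y)) →
      (∀ d ∈ S, ∀ d' ∈ S, ∀ k : Fin (m + 1),
        col (lf f.leadingCoeff a (P d 0) * lf f.leadingCoeff a (P d k.succ)) =
        col (lf f.leadingCoeff a (P d' 0) * lf f.leadingCoeff a (P d' k.succ))) →
      S.card ≤ N := by
  have hf1 : 1 ≤ f.natDegree := by omega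
  obtain ⟨z₀, hz₀⟩ := h.sieve hf (m + 1) hm
  refine ⟨max z₀ (max f.leadingCoeff.natAbs M.natAbs), ?_⟩
  intro z G hz hN _ hGz
  have hz1 : z₀ ≤ z := (le_max_left _ _).trans hz
  have hz2 : f.leadingCoeff.natAbs ≤ z :=
    (le_max_left _ _).trans ((le_max_right _ _).trans hz)
  have hz3 : M.natAbs ≤ z := (le_max_right _ _).trans ((le_max_right _ _).trans hz)
  obtain ⟨N₀, hN₀⟩ := hz₀ z hz1 hN hz2 hz3
  refine ⟨N₀, ?_⟩
  intro N hNN T S P u v w col hzT hS hdet huv hw hcol1 hcol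
  rcases S.eq_empty_or_nonempty with hE | ⟨d₀, hd₀⟩
  · rw [hE, Finset.card_empty]
    exact Nat.zero_le _
  have hreg : ∀ d ∈ S, ∀ i, (P d i).1 ≠ 0 ∧ form f (P d i) ≠ 0 := by
    intro d hd i
    have h1 := (hS d hd).reg i
    unfold Reg at h1
    rw [Finset.mem_filter] at h1
    exact ⟨h1.2.1, h1.2.2.2.1⟩
  have hq0 : (rough T d₀ : ℤ) ≠ 0 := by
    have h1 := rough_pos T d₀
    exact_mod_cast (by omega : rough T d₀ ≠ 0)
  have hne0 : ∀ k : Fin (m + 1), (0 : Fin (m + 2)) ≠ k.succ := fun k => (Fin.succ_ne_zero k).symm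
  refine hN₀ N hNN S (fun d => P d 0) (fun d => P d (Fin.succ 0)) u v ?_ ?_ ?_ ?_ huv ?_
  · intro d hd
    exact ⟨Reg_sub ((hS d hd).reg 0), Reg_sub ((hS d hd).reg (Fin.succ 0)),
      (hS d hd).ind 0 (Fin.succ 0) (hne0 0)⟩
  · intro d hd d' hd' hdd h0
    apply hdd
    have h1 := sfp_eq_of_dt f he (hreg d hd 0).1 (hreg d' hd' 0).1 (hreg d hd 0).2
      (hreg d' hd' 0).2 h0
    rw [(hS d hd).sf 0, (hS d' hd').sf 0] at h1
    exact h1
  · intro k hk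
    have h1 := (hdet d₀ hd₀ k).2
    rw [hk, mul_zero] at h1
    exact (hS d₀ hd₀).ind 0 k.succ (hne0 k) h1
  · intro k l hkl huv0
    have h1 := fib_pluck (P d₀ 0) (P d₀ (Fin.succ 0)) (P d₀ k.succ) (P d₀ l.succ)
    rw [(hdet d₀ hd₀ k).1, (hdet d₀ hd₀ l).2, (hdet d₀ hd₀ l).1, (hdet d₀ hd₀ k).2] at h1
    have h2 : (rough T d₀ : ℤ) * u k * (rough T d₀ * v l) -
        rough T d₀ * u l * (rough T d₀ * v k) = 0 := by
      have h3 : (rough T d₀ : ℤ) * u k * (rough T d₀ * v l) -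
        rough T d₀ * u l * (rough T d₀ * v k) =
          (rough T d₀ : ℤ) ^ 2 * (u k * v l - u l * v k) := by ring
      rw [h3, huv0, sub_self, mul_zero]
    rw [h2] at h1
    refine mul_ne_zero ((hS d₀ hd₀).ind 0 (Fin.succ 0) (hne0 0))
      ((hS d₀ hd₀).ind k.succ l.succ ?_) h1.symm
    intro h3
    exact hkl (Fin.succ_injective _ h3)
  · intro i hi j hj k
    have key : ∀ d ∈ S, (u k : 𝓞 K) * lf f.leadingCoeff a (P d 0) +
        (v k : 𝓞 K) * lf f.leadingCoeff a (P d (Fin.succ 0)) =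
        (v 0 : 𝓞 K) * lf f.leadingCoeff a (P d k.succ) := by
      intro d hd
      have hqd : ((rough T d : ℤ) : 𝓞 K) ≠ 0 := by
        have h1 := rough_pos T d
        have h2 : (rough T d : ℤ) ≠ 0 := by exact_mod_cast (by omega : rough T d ≠ 0)
        exact_mod_cast h2
      have h1 := lf_cramer f.leadingCoeff a (P d 0) (P d (Fin.succ 0)) (P d k.succ)
      rw [(hdet d hd 0).2, (hdet d hd k).1, (hdet d hd k).2] at h1
      apply mul_left_cancel₀ hqd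
      push_cast at h1 ⊢
      linear_combination -h1
    have hne : ∀ d ∈ S, lf f.leadingCoeff a (P d 0) * lf f.leadingCoeff a (P d k.succ) ≠ 0 :=
      fun d hd => mul_ne_zero (fib_lf_ne h hf1 (hreg d hd 0).2)
        (fib_lf_ne h hf1 (hreg d hd k.succ).2)
    have hev : ∀ d ∈ S, ∀ q : Ideal (𝓞 K), q.IsPrime → q ≠ ⊥ → (w : 𝓞 K) ∉ q →
        Even (mu q (lf f.leadingCoeff a (P d 0) * lf f.leadingCoeff a (P d k.succ))) := by
      intro d hd q hq hq1 hwq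
      refine h.evn hf1 hz2 hz3 hGz hzT ((hS d hd).reg 0) ((hS d hd).reg k.succ)
        ((hS d hd).sf 0) ((hS d hd).sf k.succ) ((hS d hd).dvd 0 k.succ) hq hq1 ?_
      intro p hp hp1 hpq
      apply hwq
      obtain ⟨r, hr⟩ := hw d hd p hp hp1
      rw [hr, Nat.cast_mul]
      exact Ideal.mul_mem_right _ _ hpq
    have hsq := hcol1 _ _ (hne i hi) (hne j hj) (hev i hi) (hev j hj) (hcol i hi j hj k)
    rw [key i hi, key j hj]
    obtain ⟨r, hr⟩ := hsq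
    refine ⟨(v 0 : 𝓞 K) * r, ?_⟩
    linear_combination (v 0 : 𝓞 K) ^ 2 * hr

end Pool.Agent.SQT
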