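import Pool.Agent.SQT.Defs

/-!
# SQT-Hom: the ring homomorphism attached to a root of `f` modulo a good prime
-/

set_option autoImplicit false

namespace Pool.Agent.SQT

open NumberField Pool.Agent.Helper83.TW

variable {f : Polynomial ℤ} {K : Type} [Field K] [NumberField K] {a : 𝓞 K} {M : ℤ}

theorem Gen.hom (h : Gen f K a M) {p : ℕ} (hp : p.Prime) (hc : f.leadingCoeff.natAbs < p)
    (hM : M.natAbs < p) (t : ℤ) (ht : (p : ℤ) ∣ f.eval t) :
    ∃ φ : 𝓞 K →+* ZMod p, φ a = ((f.leadingCoeff * t : ℤ) : ZMod p) := by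
  classical
  haveI : Fact p.Prime := ⟨hp⟩
  set c : ℤ := f.leadingCoeff with hcdef
  have hc0 : c ≠ 0 := h.lc
  have hcp : (c : ZMod p) ≠ 0 := by
    intro h0
    rw [ZMod.intCast_zmod_eq_zero_iff_dvd] at h0
    have h1 : p ∣ c.natAbs := Int.natCast_dvd.1 h0
    have h2 := Nat.le_of_dvd (Int.natAbs_pos.2 hc0) h1
    omega
  have hMp : (M : ZMod p) ≠ 0 := by
    intro h0
    rw [ZMod.intCast_zmod_eq_zero_iff_dvd] at h0
    have h1 : p ∣ M.natAbs := Int.natCast_dvd.1 h0
    have h2 := Nat.le_of_dvd (Int.natAbs_pos.2 h.M0) h1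
    omega
  set E : Polynomial ℤ →+* ZMod p :=
    Polynomial.eval₂RingHom (Int.castRingHom (ZMod p)) ((c * t : ℤ) : ZMod p) with hE
  have hEC : ∀ r : ℤ, E (Polynomial.C r) = (r : ZMod p) := by
    intro r
    rw [hE, Polynomial.coe_eval₂RingHom, Polynomial.eval₂_C, eq_intCast]
  have hEX : E Polynomial.X = ((c * t : ℤ) : ZMod p) := by
    rw [hE, Polynomial.coe_eval₂RingHom, Polynomial.eval₂_X]
  -- the minimal polynomial has the root `c t`
  have hroot : E (minpoly ℤ a) = 0 := by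
    have h1 := congrArg E h.mp
    rw [map_mul, hEC] at h1
    have h2 : E (Polynomial.scaleRoots f c) = 0 := by
      have h3 := Polynomial.scaleRoots_eval₂_mul (p := f) (Int.castRingHom (ZMod p))
        (t : ZMod p) c
      have h4 : (Int.castRingHom (ZMod p)) c * (t : ZMod p) = ((c * t : ℤ) : ZMod p) := by
        rw [eq_intCast]
        push_cast
        ring
      rw [h4] at h3
      rw [hE, Polynomial.coe_eval₂RingHom, h3]
      have h5 : Polynomial.eval₂ (Int.castRingHom (ZMod p)) (t : ZMod p) f = 0 := by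
        have h6 : (t : ZMod p) = Int.castRingHom (ZMod p) t := (eq_intCast _ _).symm
        rw [h6, Polynomial.eval₂_hom, eq_intCast, ZMod.intCast_zmod_eq_zero_iff_dvd]
        exact ht
      rw [h5, mul_zero]
    rw [h2] at h1
    rcases mul_eq_zero.1 h1 with h3 | h3
    · exact absurd h3 hcp
    · exact h3
  -- well defined
  have hwd : ∀ q q' : Polynomial ℤ, Polynomial.aeval a q = Polynomial.aeval a q' →
      E q = E q' := by
    intro q q' hq
    have h1 : Polynomial.aeval a (q - q') = 0 := by rw [map_sub, hq, sub_self]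
    have h2 : minpoly ℤ a ∣ q - q' :=
      minpoly.isIntegrallyClosed_dvd (Algebra.IsIntegral.isIntegral a) h1
    obtain ⟨s, hs⟩ := h2
    have h3 : E (q - q') = 0 := by rw [hs, map_mul, hroot, zero_mul]
    rw [map_sub, sub_eq_zero] at h3
    exact h3
  have hex : ∀ x : 𝓞 K, ∃ q : Polynomial ℤ, Polynomial.aeval a q = (M : 𝓞 K) * x := by
    intro x
    have h1 := h.mem x
    rw [Algebra.adjoin_singleton_eq_range_aeval] at h1
    exact h1
  choose Q hQ using hex
  have haM : Polynomial.aeval a (Polynomial.C M) = (M : 𝓞 K) := by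
    rw [Polynomial.aeval_C, eq_intCast]
  refine ⟨{ toFun := fun x => E (Q x) * (M : ZMod p)⁻¹
            map_one' := ?_
            map_mul' := ?_
            map_zero' := ?_
            map_add' := ?_ }, ?_⟩
  · have h1 : E (Q 1) = E (Polynomial.C M) := hwd _ _ (by rw [hQ, haM, mul_one])
    rw [h1, hEC, mul_inv_cancel₀ hMp]
  · intro x y
    have h1 : E (Polynomial.C M * Q (x * y)) = E (Q x * Q y) := hwd _ _ (by
      rw [map_mul, map_mul, hQ, hQ, hQ, haM]
      ring)
    rw [map_mul, map_mul, hEC] at h1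
    show E (Q (x * y)) * (M : ZMod p)⁻¹ = E (Q x) * (M : ZMod p)⁻¹ * (E (Q y) * (M : ZMod p)⁻¹)
    have h2 : E (Q x) * (M : ZMod p)⁻¹ * (E (Q y) * (M : ZMod p)⁻¹) =
        E (Q x) * E (Q y) * ((M : ZMod p)⁻¹ * (M : ZMod p)⁻¹) := by ring
    rw [h2, ← h1]
    field_simp
  · have h1 : E (Q 0) = E 0 := hwd _ _ (by rw [hQ, map_zero, mul_zero])
    rw [h1, map_zero, zero_mul]
  · intro x y
    have h1 : E (Q (x + y)) = E (Q x + Q y) := hwd _ _ (by
      rw [map_add, hQ, hQ, hQ]
      ring)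
    show E (Q (x + y)) * (M : ZMod p)⁻¹ = E (Q x) * (M : ZMod p)⁻¹ + E (Q y) * (M : ZMod p)⁻¹
    rw [h1, map_add, add_mul]
  · have h1 : E (Q a) = E (Polynomial.C M * Polynomial.X) := hwd _ _ (by
      rw [map_mul, hQ, haM, Polynomial.aeval_X])
    show E (Q a) * (M : ZMod p)⁻¹ = ((c * t : ℤ) : ZMod p)
    rw [h1, map_mul, hEC, hEX]
    field_simp

end Pool.Agent.SQT
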