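import Pool.Agent.SQT.Core

/-!
# SQT-Main: the lower bound for all polynomials

The private lemmas are copied from `Helper83/TW/T5`.
-/

set_option autoImplicit false

namespace Pool.Agent.SQT

open Pool.Agent.Helper83.TW

private theorem sfs_bound (g : Polynomial ℤ) (C : ℕ)
    (hC : ∀ (N : ℕ) (P : ℤ × ℤ), P ∈ box N → |form g P| ≤ C * (N : ℤ) ^ g.natDegree)
    (N : ℕ) (d : ℤ) (hd : d ∈ sfs g N) : |d| ≤ C * (N : ℤ) ^ g.natDegree := by
  simp only [sfs, Finset.mem_image, Finset.mem_filter] at hd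
  obtain ⟨P, ⟨hP, _⟩, rfl⟩ := hd
  exact (sfp_abs_le _).trans (hC N P hP)

/-- the choice of the side of the box -/
private theorem choose_N (C r M : ℕ) (hC : 0 < C) (hr : 1 ≤ r) :
    ∃ c : ℝ, 0 < c ∧ ∃ B₀ : ℕ, ∀ B : ℕ, B₀ ≤ B → ∃ N : ℕ, M ≤ N ∧ C * N ^ r < B ∧
      (N : ℝ) ≤ (B : ℝ) ^ ((1 : ℝ) / r) ∧ c * (B : ℝ) ^ ((1 : ℝ) / r) ≤ N := by
  have hCr : (0 : ℝ) < 2 * C := by positivity
  have hr0 : (0 : ℝ) < (r : ℝ) := by exact_mod_cast hr
  set u : ℝ := (1 / (2 * C : ℝ)) ^ ((1 : ℝ) / r) with hu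
  have hupos : 0 < u := Real.rpow_pos_of_pos (by positivity) _
  have hlim : Filter.Tendsto (fun B : ℕ => u * (B : ℝ) ^ ((1 : ℝ) / r)) Filter.atTop
      Filter.atTop :=
    Filter.Tendsto.const_mul_atTop hupos
      ((tendsto_rpow_atTop (by positivity)).comp tendsto_natCast_atTop_atTop)
  have hev := hlim.eventually (Filter.eventually_ge_atTop ((M : ℝ) + 2))
  rw [Filter.eventually_atTop] at hev
  obtain ⟨B₀, hB₀⟩ := hev
  refine ⟨u / 2, by positivity, max B₀ 1, fun B hB => ?_⟩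
  have hB0 : B₀ ≤ B := (le_max_left _ _).trans hB
  have hB1 : 1 ≤ B := (le_max_right _ _).trans hB
  have hx := hB₀ B hB0
  set x : ℝ := u * (B : ℝ) ^ ((1 : ℝ) / r) with hxdef
  have hx0 : 0 ≤ x := by positivity
  have hBpos : (0 : ℝ) < B := by exact_mod_cast hB1
  have hxr : x ^ r = (B : ℝ) / (2 * C) := by
    rw [hxdef, mul_pow, hu, ← Real.rpow_natCast, ← Real.rpow_natCast, ← Real.rpow_mul (by positivity),
      ← Real.rpow_mul hBpos.le]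
    rw [one_div_mul_cancel hr0.ne', Real.rpow_one, Real.rpow_one]
    ring
  refine ⟨⌊x⌋₊, ?_, ?_, ?_, ?_⟩
  · apply Nat.le_floor
    linarith
  · have h1 : ((⌊x⌋₊ : ℝ)) ^ r ≤ x ^ r := pow_le_pow_left₀ (by positivity) (Nat.floor_le hx0) r
    rw [hxr] at h1
    have h2 : (C : ℝ) * (⌊x⌋₊ : ℝ) ^ r < B := by
      have hC' : (0 : ℝ) < C := by exact_mod_cast hC
      calc (C : ℝ) * (⌊x⌋₊ : ℝ) ^ r ≤ C * ((B : ℝ) / (2 * C)) := by gcongr
        _ = (B : ℝ) / 2 := by field_simp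
        _ < B := by linarith
    exact_mod_cast h2
  · refine (Nat.floor_le hx0).trans ?_
    have hu1 : u ≤ 1 := by
      rw [hu]
      apply Real.rpow_le_one (by positivity) _ (by positivity)
      rw [div_le_one hCr]
      have : (1 : ℝ) ≤ C := by exact_mod_cast hC
      linarith
    calc x = u * (B : ℝ) ^ ((1 : ℝ) / r) := rfl
      _ ≤ 1 * (B : ℝ) ^ ((1 : ℝ) / r) := by gcongr
      _ = _ := one_mul _
  · have h1 := Nat.lt_floor_add_one x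
    have h2 : x - 1 ≤ ⌊x⌋₊ := by linarith
    have h3 : x / 2 ≤ x - 1 := by
      have : (0 : ℝ) ≤ M := by positivity
      linarith
    calc u / 2 * (B : ℝ) ^ ((1 : ℝ) / r) = x / 2 := by rw [hxdef]; ring
      _ ≤ _ := h3.trans h2

private theorem ex_eq (f g : Polynomial ℤ) (hg : g.natDegree = 2 * ((f.natDegree - 1) / 2) + 2) :
    ex f = 2 * ((1 : ℝ) / g.natDegree) := by
  rw [ex, hg]
  push_cast
  field_simp

/-- passing from the box to `Nf` when there are many squarefree parts -/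
private theorem of_core (f g : Polynomial ℤ) (s : ℤ)
    (hg : g.natDegree = 2 * ((f.natDegree - 1) / 2) + 2)
    (hfg : ∀ P : ℤ × ℤ, P.1 ≠ 0 → (form g P : ℚ) = (P.1 : ℚ) ^ g.natDegree *
        (f.map (Int.castRingHom ℚ)).eval ((s : ℚ) + (P.2 : ℚ) / (P.1 : ℚ)))
    (hcore : ∃ c : ℝ, 0 < c ∧ ∃ N₀ : ℕ, ∀ N : ℕ, N₀ ≤ N →
      c * (N : ℝ) ^ 2 ≤ ((sfs g N).card : ℝ)) :
    ∃ c : ℝ, 0 < c ∧ ∃ B₀ : ℕ, ∀ B : ℕ, B₀ ≤ B → c * (B : ℝ) ^ ex f ≤ (Nf f B : ℝ) := by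
  obtain ⟨C, hC0, hC⟩ := form_abs_le g
  obtain ⟨c, hc, N₀, hN⟩ := hcore
  obtain ⟨c', hc', B₀, hB⟩ := choose_N C g.natDegree N₀ hC0 (by omega)
  refine ⟨c * c' ^ 2, by positivity, B₀, fun B hBB => ?_⟩
  obtain ⟨N, hNN, hCN, _, hlow⟩ := hB B hBB
  have h1 := hN N hNN
  have h2 : (sfs g N).card ≤ Nf f B := by
    apply Nf_lower f g s _ hfg N B (sfs g N) (Finset.Subset.refl _)
    · intro d hd
      refine (sfs_bound g C hC N d hd).trans_lt ?_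
      exact_mod_cast hCN
    · rw [hg]
      exact ⟨(f.natDegree - 1) / 2 + 1, by ring⟩
  have h3 : ((sfs g N).card : ℝ) ≤ Nf f B := by exact_mod_cast h2
  refine le_trans ?_ (h1.trans h3)
  rw [ex_eq f g hg]
  have hBr : (0 : ℝ) ≤ B := by positivity
  have h4 : (B : ℝ) ^ (2 * ((1 : ℝ) / g.natDegree)) = ((B : ℝ) ^ ((1 : ℝ) / g.natDegree)) ^ 2 := by
    rw [← Real.rpow_natCast ((B : ℝ) ^ ((1 : ℝ) / g.natDegree)) 2, ← Real.rpow_mul hBr]
    congr 1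
    push_cast
    ring
  rw [h4]
  have h5 : (c' * (B : ℝ) ^ ((1 : ℝ) / g.natDegree)) ^ 2 ≤ (N : ℝ) ^ 2 :=
    pow_le_pow_left₀ (by positivity) hlow 2
  calc c * c' ^ 2 * ((B : ℝ) ^ ((1 : ℝ) / g.natDegree)) ^ 2
      = c * (c' * (B : ℝ) ^ ((1 : ℝ) / g.natDegree)) ^ 2 := by ring
    _ ≤ c * (N : ℝ) ^ 2 := by gcongr

theorem lower_all (f : Polynomial ℤ) (hf : 5 ≤ f.natDegree)
    (hs : (f.map (Int.castRingHom ℚ)).Separable) :
    ∃ c : ℝ, 0 < c ∧ ∃ B₀ : ℕ, ∀ B : ℕ, B₀ ≤ B → c * (B : ℝ) ^ ex f ≤ (Nf f B : ℝ) := by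
  obtain ⟨g, s, hg, hgs, hfg, hred⟩ := exists_form f hf hs
  by_cases hirr : Irreducible (g.map (Int.castRingHom ℚ))
  · have heven : Even g.natDegree := by
      rw [hg]
      exact ⟨(f.natDegree - 1) / 2 + 1, by ring⟩
    exact of_core f g s hg hfg (core_even g (by omega) heven hirr)
  · obtain ⟨h1, h2, hd, hz, hM⟩ := mean_three g (by omega) hgs hirr
    exact of_core f g s hg hfg (core_three g h1 h2 (by omega) hgs hd hz hM)

end Pool.Agent.SQT
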