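import Pool.Agent.Helper85.SC3.Zero
import Pool.Agent.Helper85.SC.Base

/-!
Tschirnhaus transformations with few parameters: the forms
`c ↦ ∑ i, (∑ j, c j * w i ^ j) ^ l`, `1 ≤ l ≤ m`, in `m + 1` unknowns only involve the power sums
of `w` of degree at most `m * m`.
-/

namespace Pool.Agent.SQT

open Pool.Agent.Helper85.SC IntermediateField

variable {k : Type*} {K : Type*} [Field k] [Field K] [Algebra k K]

theorem sum_pow_expand {R : Type*} [CommRing R] {n N : ℕ} (w : Fin n → R) (c : Fin N → R) (l : ℕ) :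
    ∑ i, (∑ j, c j * w i ^ (j : ℕ)) ^ l =
      ∑ f : Fin l → Fin N, (∏ a, c (f a)) * ∑ i, w i ^ (∑ a, (f a : ℕ)) := by
  simp_rw [Fintype.sum_pow]
  rw [Finset.sum_comm]
  refine Finset.sum_congr rfl fun f _ => ?_
  rw [Finset.mul_sum]
  refine Finset.sum_congr rfl fun i _ => ?_
  rw [Finset.prod_mul_distrib, Finset.prod_pow_eq_pow_sum]

/-- Common zeros of finitely many forms over an algebraically closed intermediate field. -/
theorem exists_zero_field (F₀ : IntermediateField k K) [IsAlgClosed F₀] {N : ℕ}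
    (P : Fin N → MvPolynomial (Fin (N + 1)) F₀) (d : Fin N → ℕ) (hd : ∀ j, 0 < d j)
    (hP : ∀ j, (P j).IsHomogeneous (d j)) :
    ∃ c : Fin (N + 1) → K, c ≠ 0 ∧ (∀ j, c j ∈ F₀) ∧
      ∀ j, MvPolynomial.eval c ((P j).map (algebraMap F₀ K)) = 0 := by
  obtain ⟨c, hc, h⟩ := exists_common_zero P d hd hP
  refine ⟨fun j => (c j : K), ?_, fun j => (c j).2, fun j => ?_⟩
  · intro h0
    apply hc
    funext j
    exact Subtype.ext (congrFun h0 j)
  · have h1 := congrArg (algebraMap F₀ K) (h j)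
    rw [map_zero] at h1
    rw [← h1, MvPolynomial.eval_map]
    rw [← MvPolynomial.eval₂_id, MvPolynomial.hom_eval₂]
    rfl

theorem zero_of_moments (F₀ : IntermediateField k K) [IsAlgClosed F₀] {n m : ℕ} (w : Fin n → K)
    (hw : ∀ l, l ≤ m * m → ∑ i, w i ^ l ∈ F₀) :
    ∃ c : Fin (m + 1) → K, c ≠ 0 ∧ (∀ j, c j ∈ F₀) ∧
      ∀ l, 1 ≤ l → l ≤ m → ∑ i, (∑ j, c j * w i ^ (j : ℕ)) ^ l = 0 := by
  classical
  have hbound : ∀ (l : ℕ) (f : Fin l → Fin (m + 1)), l ≤ m → ∑ a, (f a : ℕ) ≤ m * m := by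
    intro l f hl
    calc ∑ a, (f a : ℕ) ≤ ∑ _a : Fin l, m :=
          Finset.sum_le_sum fun a _ => Nat.lt_succ_iff.1 (f a).2
      _ = l * m := by simp
      _ ≤ m * m := Nat.mul_le_mul_right _ hl
  let P : Fin m → MvPolynomial (Fin (m + 1)) F₀ := fun l =>
    ∑ f : Fin ((l : ℕ) + 1) → Fin (m + 1),
      MvPolynomial.C ⟨∑ i, w i ^ (∑ a, (f a : ℕ)), hw _ (hbound _ f l.2)⟩ *
        ∏ a, MvPolynomial.X (f a)
  obtain ⟨c, hc0, hcF, hc⟩ := exists_zero_field F₀ P (fun l => (l : ℕ) + 1)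
    (fun l => Nat.succ_pos _) (fun l => by
      refine MvPolynomial.IsHomogeneous.sum _ _ _ fun f _ => ?_
      have h1 : (∏ a, (MvPolynomial.X (f a) : MvPolynomial (Fin (m + 1)) F₀)).IsHomogeneous
          (∑ _a : Fin ((l : ℕ) + 1), 1) :=
        MvPolynomial.IsHomogeneous.prod _ _ _ fun a _ => MvPolynomial.isHomogeneous_X _ _
      have h2 := (MvPolynomial.isHomogeneous_C (Fin (m + 1))
        (⟨∑ i, w i ^ (∑ a, (f a : ℕ)), hw _ (hbound _ f l.2)⟩ : F₀)).mul h1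
      simpa using h2)
  refine ⟨c, hc0, hcF, fun l hl1 hl2 => ?_⟩
  obtain ⟨l', rfl⟩ : ∃ l', l = l' + 1 := ⟨l - 1, by omega⟩
  have h3 := hc ⟨l', by omega⟩
  simp only [P, map_sum, map_mul, MvPolynomial.map_C, map_prod, MvPolynomial.map_X,
    MvPolynomial.eval_C, MvPolynomial.eval_X] at h3
  rw [sum_pow_expand]
  rw [← h3]
  refine Finset.sum_congr rfl fun f _ => ?_
  rw [mul_comm]
  rfl

end Pool.Agent.SQT
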