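import Pool.Agent.SQT.Defs

/-!
# SQT-Mu: elementary facts on multiplicities
-/

set_option autoImplicit false

namespace Pool.Agent.SQT

open NumberField

variable {K : Type} [Field K] [NumberField K]

theorem mu_mul (q : Ideal (𝓞 K)) {x y : 𝓞 K} (hx : x ≠ 0) (hy : y ≠ 0) :
    mu q (x * y) = mu q x + mu q y := by
  classical
  unfold mu
  rw [← Ideal.span_singleton_mul_span_singleton,
    UniqueFactorizationMonoid.normalizedFactors_mul (by simpa using hx) (by simpa using hy),
    Multiset.count_add]

theorem mu_eq_zero {q : Ideal (𝓞 K)} {x : 𝓞 K} (hx : x ∉ q) : mu q x = 0 := by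
  classical
  unfold mu
  rw [Multiset.count_eq_zero]
  intro h
  exact hx ((Ideal.dvd_span_singleton).1 (UniqueFactorizationMonoid.dvd_of_mem_normalizedFactors h))

end Pool.Agent.SQT
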