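import Pool.Agent.SQT.Defs

/-!
# SQT-NormF: the norm of the linear form

PLAN.  Let `n = natDegree f = finrank ℚ K`, `g = minpoly ℤ a` (monic of degree `n`), `c g = scaleRoots f c`.  For `y = 0` the norm of the integer `c x` is
`(c x)^n` and `form f (x, 0) = c x^n` (`form_snd_zero` in `Helper83/TW/L03`).  For `y ≠ 0`: the norm of `c x - y a` is `y^n g(c x / y)` (over `ℚ`: the
characteristic polynomial of `a` is its minimal polynomial because it has degree `n`, `Algebra.norm` of `r - a` is `charpoly.eval r`; or use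
`Algebra.norm_eq_prod_embeddings`), and `c g(c x/y) = (scaleRoots f c)(c x/y) = c^n f(x/y)`, `y^n f(x/y) = form f (x, y)` (`form_rat` in `L03`).
Work with `Algebra.norm ℚ` in `K` and `Algebra.coe_norm_int` (`Algebra.norm ℤ x` for `x : 𝓞 K` is `Algebra.norm ℚ (x : K)`).
-/

set_option autoImplicit false

namespace Pool.Agent.SQT

open NumberField Pool.Agent.Helper83.TW

variable {f : Polynomial ℤ} {K : Type} [Field K] [NumberField K] {a : 𝓞 K} {M : ℤ}

private theorem minpolyQ (a : 𝓞 K) :
    minpoly ℚ (a : K) = (minpoly ℤ a).map (Int.castRingHom ℚ) := by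
  rw [← RingOfIntegers.minpoly_coe]
  exact minpoly.isIntegrallyClosed_eq_field_fractions' ℚ (RingOfIntegers.isIntegral_coe a)

private theorem degG (h : Gen f K a M) : (minpoly ℤ a).natDegree = f.natDegree := by
  have h1 := congrArg Polynomial.natDegree h.mp
  rw [Polynomial.natDegree_C_mul h.lc, Polynomial.natDegree_scaleRoots] at h1
  exact h1

private theorem charpolyG (h : Gen f K a M) :
    (Algebra.lmul ℚ K (a : K)).charpoly = (minpoly ℤ a).map (Int.castRingHom ℚ) := by
  rw [← minpolyQ]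
  have hint : IsIntegral ℚ (a : K) := Algebra.IsIntegral.isIntegral _
  refine Polynomial.eq_of_monic_of_dvd_of_natDegree_le (minpoly.monic hint)
    (LinearMap.charpoly_monic _) (minpoly.dvd ℚ _ (Algebra.aeval_self_charpoly_lmul _)) ?_
  rw [LinearMap.charpoly_natDegree, minpolyQ, Polynomial.natDegree_map_eq_of_injective
    (RingHom.injective_int _), degG h, h.deg]

private theorem norm_sub (h : Gen f K a M) (r : ℚ) :
    Algebra.norm ℚ (algebraMap ℚ K r - (a : K)) =
      ((minpoly ℤ a).map (Int.castRingHom ℚ)).eval r := by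
  rw [← charpolyG h, LinearMap.eval_charpoly, Algebra.norm_apply]
  congr 1
  rw [map_sub, AlgHom.commutes]

theorem Gen.norm_lf (h : Gen f K a M) (hf : 1 ≤ f.natDegree) (P : ℤ × ℤ) :
    Algebra.norm ℤ (lf f.leadingCoeff a P) = f.leadingCoeff ^ (f.natDegree - 1) * form f P := by
  obtain ⟨x, y⟩ := P
  have hn : Module.finrank ℚ K = f.natDegree := h.deg
  have hlf : ((lf f.leadingCoeff a (x, y) : 𝓞 K) : K) =
      ((f.leadingCoeff * x : ℤ) : K) - ((y : ℤ) : K) * (a : K) := by
    simp [lf]
  apply Int.cast_injective (α := ℚ)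
  rw [Algebra.coe_norm_int, hlf]
  obtain ⟨n, hnn⟩ : ∃ n, f.natDegree = n + 1 := ⟨f.natDegree - 1, by omega⟩
  have hc : (f.leadingCoeff : ℚ) ≠ 0 := by exact_mod_cast h.lc
  by_cases hy : y = 0
  · subst hy
    have e1 : ((f.leadingCoeff * x : ℤ) : K) - ((0 : ℤ) : K) * (a : K) =
        algebraMap ℚ K ((f.leadingCoeff * x : ℤ) : ℚ) := by
      simp
    rw [e1, Algebra.norm_algebraMap, hn, form_snd_zero, hnn]
    push_cast
    ring
  · have hyQ : (y : ℚ) ≠ 0 := by exact_mod_cast hy
    have hyK : (y : K) ≠ 0 := by exact_mod_cast hy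
    set r : ℚ := (f.leadingCoeff : ℚ) * x / y with hr
    have e1 : ((f.leadingCoeff * x : ℤ) : K) - ((y : ℤ) : K) * (a : K) =
        algebraMap ℚ K (y : ℚ) * (algebraMap ℚ K r - (a : K)) := by
      rw [mul_sub, ← map_mul, hr, mul_div_cancel₀ _ hyQ]
      simp
    rw [e1, map_mul, Algebra.norm_algebraMap, hn, norm_sub h]
    have e2 : (f.leadingCoeff : ℚ) * ((minpoly ℤ a).map (Int.castRingHom ℚ)).eval r =
        (f.leadingCoeff : ℚ) ^ f.natDegree * (f.map (Int.castRingHom ℚ)).eval ((x : ℚ) / y) := by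
      have h1 := congrArg (fun p : Polynomial ℤ => (p.map (Int.castRingHom ℚ)).eval r) h.mp
      simp only [Polynomial.map_mul, Polynomial.map_C, Polynomial.eval_mul, Polynomial.eval_C]
        at h1
      rw [eq_intCast] at h1
      rw [h1]
      have h2 := Polynomial.scaleRoots_eval₂_mul (p := f) (Int.castRingHom ℚ) ((x : ℚ) / y)
        f.leadingCoeff
      rw [Polynomial.eval_map, Polynomial.eval_map]
      rw [eq_intCast] at h2
      rw [← h2, hr, mul_div_assoc]
    have e3 := form_rat f (x, y) hy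
    push_cast
    rw [e3]
    apply mul_left_cancel₀ hc
    have e4 : (f.leadingCoeff : ℚ) * ((y : ℚ) ^ f.natDegree *
        ((minpoly ℤ a).map (Int.castRingHom ℚ)).eval r) =
        (y : ℚ) ^ f.natDegree * ((f.leadingCoeff : ℚ) *
        ((minpoly ℤ a).map (Int.castRingHom ℚ)).eval r) := by ring
    rw [e4, e2, hnn, Nat.add_sub_cancel]
    ring

end Pool.Agent.SQT
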