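import Mathlib

/-!
# SQT-Orth: sets on which many translates of the quadratic character are constant

PLAN.  `χ = quadraticChar (ZMod p)`.  For `ρ ≠ ρ'`: `∑_λ χ(ρ + λ) χ(ρ' + λ) = -1` (with `u = ρ + λ`, `δ = ρ' - ρ ≠ 0`: `∑_{u ≠ 0} χ(u (u + δ)) = ∑_{u ≠ 0} χ(1 + δ/u)
= ∑_{w ≠ 1} χ(w) = 0 - χ(1)`; `quadraticChar_sum_zero`), for `ρ = ρ'` it is `p - 1`.  So `∑_λ (∑_{ρ ∈ R} χ(ρ + λ))^2 = |R| (p - 1) - |R| (|R| - 1) = |R| (p - |R|)`.
For `λ = lam k` all values `χ(ρ + λ)`, `ρ ∈ R`, are nonzero and equal (their products are `χ` of a nonzero square), so the inner square is `|R|^2`; the `lam k` are distinct, hence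
`m |R|^2 ≤ |R| (p - |R|)` and `(m + 1) |R| ≤ p` (trivial if `R` is empty).
-/

set_option autoImplicit false

namespace Pool.Agent.SQT

private theorem corr_zero {p : ℕ} [Fact p.Prime] (hp : p ≠ 2) {δ : ZMod p} (hδ : δ ≠ 0) :
    ∑ u : ZMod p, quadraticChar (ZMod p) (u * (u + δ)) = -1 := by
  have hchar : ringChar (ZMod p) ≠ 2 := by rw [ZMod.ringChar_zmod_n]; exact hp
  have hbij : Function.Bijective (fun u : ZMod p => 1 + δ * u⁻¹) := by
    constructor
    · intro a b h
      have h1 : δ * a⁻¹ = δ * b⁻¹ := add_left_cancel h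
      exact inv_injective (mul_left_cancel₀ hδ h1)
    · intro w
      refine ⟨(δ⁻¹ * (w - 1))⁻¹, ?_⟩
      change 1 + δ * ((δ⁻¹ * (w - 1))⁻¹)⁻¹ = w
      rw [inv_inv, mul_inv_cancel_left₀ hδ]
      ring
  have h0 : ∑ u : ZMod p, quadraticChar (ZMod p) (1 + δ * u⁻¹) = 0 := by
    rw [← quadraticChar_sum_zero hchar]
    exact hbij.sum_comp (fun w => quadraticChar (ZMod p) w)
  have h1 : ∀ u : ZMod p, quadraticChar (ZMod p) (u * (u + δ)) =
      quadraticChar (ZMod p) (1 + δ * u⁻¹) - (if u = 0 then 1 else 0) := by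
    intro u
    by_cases hu : u = 0
    · subst hu
      simp
    · rw [if_neg hu, sub_zero]
      have h2 : u * (u + δ) = u ^ 2 * (1 + δ * u⁻¹) := by
        field_simp
      rw [h2, map_mul, quadraticChar_sq_one' hu, one_mul]
  rw [Finset.sum_congr rfl (fun u _ => h1 u), Finset.sum_sub_distrib, h0, Finset.sum_ite_eq']
  simp

private theorem corr_ne {p : ℕ} [Fact p.Prime] (hp : p ≠ 2) {x y : ZMod p} (h : x ≠ y) :
    ∑ l : ZMod p, quadraticChar (ZMod p) ((x + l) * (y + l)) = -1 := by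
  have hδ : y - x ≠ 0 := sub_ne_zero.mpr (Ne.symm h)
  rw [← corr_zero hp hδ]
  have hb : Function.Bijective (fun l : ZMod p => x + l) :=
    (Equiv.addLeft x).bijective
  rw [← hb.sum_comp (fun u => quadraticChar (ZMod p) (u * (u + (y - x))))]
  refine Finset.sum_congr rfl (fun l _ => ?_)
  congr 1
  ring

private theorem corr_eq {p : ℕ} [Fact p.Prime] (x : ZMod p) :
    ∑ l : ZMod p, quadraticChar (ZMod p) ((x + l) * (x + l)) = (p : ℤ) - 1 := by
  have hb : Function.Bijective (fun l : ZMod p => x + l) :=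
    (Equiv.addLeft x).bijective
  have h1 : ∑ l : ZMod p, quadraticChar (ZMod p) ((x + l) * (x + l)) =
      ∑ u : ZMod p, quadraticChar (ZMod p) (u * u) :=
    hb.sum_comp (fun u => quadraticChar (ZMod p) (u * u))
  rw [h1]
  have h2 : ∀ u : ZMod p, quadraticChar (ZMod p) (u * u) = 1 - (if u = 0 then 1 else 0) := by
    intro u
    by_cases hu : u = 0
    · subst hu
      simp
    · rw [if_neg hu, sub_zero, ← sq, quadraticChar_sq_one' hu]
  rw [Finset.sum_congr rfl (fun u _ => h2 u), Finset.sum_sub_distrib, Finset.sum_ite_eq']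
  simp [ZMod.card]

theorem orth {p : ℕ} [Fact p.Prime] (hp : p ≠ 2) (m : ℕ) (lam : Fin m → ZMod p)
    (hinj : Function.Injective lam) (R : Finset (ZMod p))
    (hR : ∀ k, ∀ x ∈ R, ∀ y ∈ R, IsSquare ((x + lam k) * (y + lam k)))
    (hR0 : ∀ k, ∀ x ∈ R, x + lam k ≠ 0) : (m + 1) * R.card ≤ p := by
  have hexp : ∀ l : ZMod p, (∑ x ∈ R, quadraticChar (ZMod p) (x + l)) ^ 2 =
      ∑ x ∈ R, ∑ y ∈ R, quadraticChar (ZMod p) ((x + l) * (y + l)) := by
    intro l
    rw [sq, Finset.sum_mul_sum]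
    refine Finset.sum_congr rfl (fun x _ => Finset.sum_congr rfl (fun y _ => ?_))
    rw [map_mul]
  -- the total
  have htot : ∑ l : ZMod p, (∑ x ∈ R, quadraticChar (ZMod p) (x + l)) ^ 2 =
      (R.card : ℤ) * ((p : ℤ) - R.card) := by
    rw [Finset.sum_congr rfl (fun l _ => hexp l), Finset.sum_comm]
    have h1 : ∀ x ∈ R, ∑ l : ZMod p, ∑ y ∈ R, quadraticChar (ZMod p) ((x + l) * (y + l)) =
        (p : ℤ) - R.card := by
      intro x hx
      rw [Finset.sum_comm]
      have h2 : ∀ y ∈ R, ∑ l : ZMod p, quadraticChar (ZMod p) ((x + l) * (y + l)) =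
          (if x = y then (p : ℤ) else 0) - 1 := by
        intro y _
        by_cases hxy : x = y
        · subst hxy
          rw [if_pos rfl]
          exact corr_eq x
        · rw [if_neg hxy, corr_ne hp hxy]
          ring
      rw [Finset.sum_congr rfl h2, Finset.sum_sub_distrib, Finset.sum_ite_eq, if_pos hx]
      simp
    rw [Finset.sum_congr rfl h1, Finset.sum_const, nsmul_eq_mul]
  -- the lower bound
  have hlow : (m : ℤ) * (R.card : ℤ) ^ 2 ≤
      ∑ l : ZMod p, (∑ x ∈ R, quadraticChar (ZMod p) (x + l)) ^ 2 := by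
    have h1 : ∑ l ∈ Finset.univ.image lam, (∑ x ∈ R, quadraticChar (ZMod p) (x + l)) ^ 2 ≤
        ∑ l : ZMod p, (∑ x ∈ R, quadraticChar (ZMod p) (x + l)) ^ 2 :=
      Finset.sum_le_sum_of_subset_of_nonneg (Finset.subset_univ _) (fun _ _ _ => sq_nonneg _)
    rw [Finset.sum_image (fun a _ b _ h => hinj h)] at h1
    refine le_trans (le_of_eq ?_) h1
    have h2 : ∀ k ∈ (Finset.univ : Finset (Fin m)),
        (∑ x ∈ R, quadraticChar (ZMod p) (x + lam k)) ^ 2 = (R.card : ℤ) ^ 2 := by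
      intro k _
      rw [hexp]
      have h3 : ∀ x ∈ R, ∑ y ∈ R, quadraticChar (ZMod p) ((x + lam k) * (y + lam k)) =
          (R.card : ℤ) := by
        intro x hx
        have h4 : ∀ y ∈ R, quadraticChar (ZMod p) ((x + lam k) * (y + lam k)) = (1 : ℤ) := by
          intro y hy
          exact (quadraticChar_one_iff_isSquare
            (mul_ne_zero (hR0 k x hx) (hR0 k y hy))).mpr (hR k x hx y hy)
        rw [Finset.sum_congr rfl h4]
        simp
      rw [Finset.sum_congr rfl h3, Finset.sum_const, nsmul_eq_mul, sq]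
    rw [Finset.sum_congr rfl h2, Finset.sum_const, nsmul_eq_mul]
    simp
  rw [htot] at hlow
  rcases Nat.eq_zero_or_pos R.card with h0 | h0
  · rw [h0]
    omega
  · have hc : (0 : ℤ) < R.card := by exact_mod_cast h0
    have h5 : (R.card : ℤ) * ((m : ℤ) * R.card) ≤ R.card * ((p : ℤ) - R.card) := by
      calc (R.card : ℤ) * ((m : ℤ) * R.card) = (m : ℤ) * (R.card : ℤ) ^ 2 := by ring
        _ ≤ _ := hlow
    have h6 : (m : ℤ) * R.card ≤ (p : ℤ) - R.card := le_of_mul_le_mul_left h5 hc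
    have h7 : ((m : ℤ) + 1) * R.card ≤ p := by linarith [h6]
    exact_mod_cast h7

end Pool.Agent.SQT
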