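import Pool.Agent.SQT.Fib
import Pool.Agent.SQT.ClsB

/-!
# SQT-Par: the number of squarefree parts with an independent tuple

PLAN.  Let `n = natDegree f = finrank ℚ K`, `C0` the constant of `clsB K`, `z₁` the one of `Gen.fib`.  For `d ∈ D` choose the tuple `P d`; put `q = rough T d`,
`t(X, Y) = dt X Y / q` (exact division), `|t| ≤ 2 N^2/q ≤ 2 N^κ` for `X, Y ∈ box N`; `w = primorial z * (d.natAbs / q)`, so `1 ≤ w ≤ primorial z * N^κ` (`rough T d` divides `d.natAbs`, `rough_le`);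
for `k : Fin (m + 1)`: `u_k = t(P d k.succ, P d (succ 0))`, `v_k = t(P d 0, P d k.succ)`, `col_k` = the colour of `lf (P d 0) * lf (P d k.succ)` for the colouring of `clsB` attached to `w`.
The parameter `(u, v, w, col)` lies in a set of at most `(5 N^κ)^(2 (m+1)) * (primorial z N^κ) * (C0 (primorial z N^κ)^n)^(m+1) ≤ C N^(κ A)` elements,
`A = 2 (m + 1) + 1 + n (m + 1)` (`Fintype.piFinset` for the function components; `Finset.card_le_mul_card_image` with `Gen.fib` for the fibres: for a fixed parameter the set of the `d` with this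
parameter satisfies the hypotheses; a prime `p ≤ z` divides `primorial z`; a prime `p ≤ T` dividing `d` divides `d.natAbs / q` because `d.natAbs = q * (d.natAbs/q)` and `p ∤ q`, as all prime factors of `rough T d` are `> T`).
`|u_k|, |v_k| ≤ 2 N^κ ≤ N` for large `N` (`κ ≤ 1/2`).
-/

set_option autoImplicit false

namespace Pool.Agent.SQT

open NumberField Pool.Agent.Helper83.TW

variable {f : Polynomial ℤ} {K : Type} [Field K] [NumberField K] {a : 𝓞 K} {M : ℤ}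

private theorem par_det {N : ℕ} {X Y : ℤ × ℤ} (hX : X ∈ box N) (hY : Y ∈ box N) :
    |((dt X Y : ℤ) : ℝ)| ≤ 2 * (N : ℝ) ^ 2 := by
  rw [mem_box] at hX hY
  have h1 : |(X.1 : ℝ)| ≤ N := by exact_mod_cast hX.1.le
  have h2 : |(X.2 : ℝ)| ≤ N := by exact_mod_cast hX.2.le
  have h3 : |(Y.1 : ℝ)| ≤ N := by exact_mod_cast hY.1.le
  have h4 : |(Y.2 : ℝ)| ≤ N := by exact_mod_cast hY.2.le
  have hN : (0 : ℝ) ≤ N := Nat.cast_nonneg N
  unfold dt
  push_cast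
  calc |(X.1 : ℝ) * Y.2 - Y.1 * X.2| ≤ |(X.1 : ℝ) * Y.2| + |(Y.1 : ℝ) * X.2| := abs_sub _ _
    _ = |(X.1 : ℝ)| * |(Y.2 : ℝ)| + |(Y.1 : ℝ)| * |(X.2 : ℝ)| := by rw [abs_mul, abs_mul]
    _ ≤ N * N + N * N := add_le_add (mul_le_mul h1 h4 (abs_nonneg _) hN)
        (mul_le_mul h3 h2 (abs_nonneg _) hN)
    _ = 2 * (N : ℝ) ^ 2 := by ring

private theorem rough_dvd (T : ℕ) (d : ℤ) : rough T d ∣ d.natAbs := by
  unfold rough
  refine (Finset.prod_dvd_prod_of_subset _ _ _ (Finset.filter_subset _ _)).trans ?_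
  exact Nat.prod_primeFactors_dvd _

private theorem not_dvd_rough {T p : ℕ} (hp : p.Prime) (hpT : p ≤ T) (d : ℤ) : ¬ p ∣ rough T d := by
  unfold rough
  intro h
  obtain ⟨r, hr, hpr⟩ := (Prime.dvd_finset_prod_iff hp.prime _).1 h
  rw [Finset.mem_filter] at hr
  have h1 := (Nat.prime_dvd_prime_iff_eq hp (Nat.prime_of_mem_primeFactors hr.1)).1 hpr
  omega

private theorem par_quot {N T : ℕ} {κ : ℝ} (hN : 1 ≤ N) {q : ℕ} (hq : (N : ℝ) ^ (2 - κ) ≤ q) {X Y : ℤ × ℤ}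
    (hX : X ∈ box N) (hY : Y ∈ box N) {t : ℤ} (ht : dt X Y = q * t) :
    |(t : ℝ)| ≤ 2 * (N : ℝ) ^ κ := by
  have hNr : (0 : ℝ) < N := by exact_mod_cast hN
  have h1 := par_det hX hY
  rw [ht] at h1
  push_cast at h1
  rw [abs_mul, abs_of_nonneg (Nat.cast_nonneg q : (0 : ℝ) ≤ q)] at h1
  have h2 : (N : ℝ) ^ 2 = (N : ℝ) ^ (2 - κ) * (N : ℝ) ^ κ := by
    rw [← Real.rpow_natCast (N : ℝ) 2, ← Real.rpow_add hNr]
    congr 1
    push_cast
    ring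
  rw [h2] at h1
  have h3 : (N : ℝ) ^ (2 - κ) * |(t : ℝ)| ≤ (N : ℝ) ^ (2 - κ) * (2 * (N : ℝ) ^ κ) := by
    calc (N : ℝ) ^ (2 - κ) * |(t : ℝ)| ≤ q * |(t : ℝ)| :=
          mul_le_mul_of_nonneg_right hq (abs_nonneg _)
      _ ≤ 2 * ((N : ℝ) ^ (2 - κ) * (N : ℝ) ^ κ) := h1
      _ = _ := by ring
  exact le_of_mul_le_mul_left h3 (Real.rpow_pos_of_pos hNr _)

private theorem par_card (m n U W Γ Z C0 : ℕ) (X : ℝ) (hX : 1 ≤ X) (hU : (U : ℝ) ≤ 2 * X)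
    (hW : (W : ℝ) ≤ Z * X) (hΓ : Γ = C0 * W ^ n) :
    (((Fintype.piFinset (fun _ : Fin (m + 1) => Finset.Icc (-(U : ℤ)) U)) ×ˢ
      ((Fintype.piFinset (fun _ : Fin (m + 1) => Finset.Icc (-(U : ℤ)) U)) ×ˢ
        ((Finset.Icc 1 W) ×ˢ (Fintype.piFinset (fun _ : Fin (m + 1) => Finset.range Γ))))).card : ℝ) ≤
    5 ^ (2 * (m + 1)) * Z * (C0 + 1) ^ (m + 1) * Z ^ (n * (m + 1)) *
      X ^ (2 * (m + 1) + 1 + n * (m + 1)) := by
  have hX0 : 0 < X := by linarith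
  rw [Finset.card_product, Finset.card_product, Finset.card_product, Fintype.card_piFinset,
    Fintype.card_piFinset]
  simp only [Int.card_Icc, Nat.card_Icc, Finset.card_range, Finset.prod_const, Finset.card_univ,
    Fintype.card_fin]
  have h1 : ((((U : ℤ) + 1 - -(U : ℤ)).toNat : ℕ) : ℝ) ≤ 5 * X := by
    have : (((U : ℤ) + 1 - -(U : ℤ)).toNat : ℕ) = 2 * U + 1 := by omega
    rw [this]
    push_cast
    linarith
  have h2 : (((W + 1 - 1 : ℕ)) : ℝ) ≤ Z * X := by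
    rw [Nat.add_sub_cancel]
    exact hW
  have h3 : (Γ : ℝ) ≤ (C0 + 1) * (Z * X) ^ n := by
    rw [hΓ]
    push_cast
    have h4 : (W : ℝ) ^ n ≤ (Z * X) ^ n := pow_le_pow_left₀ (Nat.cast_nonneg _) hW n
    have h5 : (0 : ℝ) ≤ (Z * X) ^ n := le_trans (by positivity) h4
    have h6 : (C0 : ℝ) * (W : ℝ) ^ n ≤ C0 * (Z * X) ^ n :=
      mul_le_mul_of_nonneg_left h4 (Nat.cast_nonneg _)
    linarith
  push_cast
  set V : ℝ := ((((U : ℤ) + 1 - -(U : ℤ)).toNat : ℕ) : ℝ) with hV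
  have hV0 : 0 ≤ V := Nat.cast_nonneg _
  have h7 : V ^ (m + 1) ≤ (5 * X) ^ (m + 1) := pow_le_pow_left₀ hV0 h1 _
  have h8 : (Γ : ℝ) ^ (m + 1) ≤ ((C0 + 1) * (Z * X) ^ n) ^ (m + 1) :=
    pow_le_pow_left₀ (Nat.cast_nonneg _) h3 _
  have hZX : (0 : ℝ) ≤ Z * X := by positivity
  calc V ^ (m + 1) * (V ^ (m + 1) * (((W + 1 - 1 : ℕ) : ℝ) * (Γ : ℝ) ^ (m + 1)))
      ≤ (5 * X) ^ (m + 1) * ((5 * X) ^ (m + 1) * ((Z * X) * ((C0 + 1) * (Z * X) ^ n) ^ (m + 1))) := by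
        refine mul_le_mul h7 ?_ (by positivity) (by positivity)
        refine mul_le_mul h7 ?_ (by positivity) (by positivity)
        exact mul_le_mul h2 h8 (by positivity) hZX
    _ = _ := by
        rw [mul_pow 5 X, mul_pow ((C0 : ℝ) + 1), ← pow_mul, mul_pow (Z : ℝ) X (n * (m + 1)),
          show 2 * (m + 1) = (m + 1) + (m + 1) by ring, pow_add, pow_add, pow_add, pow_add]
        ring

theorem Gen.par (h : Gen f K a M) (hf : 3 ≤ f.natDegree) (he : Even f.natDegree) (m : ℕ)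
    (hm : 24 * f.natDegree ^ 2 ≤ m + 2) :
    ∃ z₁ : ℕ, ∀ z G : ℕ, z₁ ≤ z → Nice f z → 1 ≤ G → G ≤ z → ∀ κ : ℝ, 0 < κ → κ ≤ 1 / 2 →
    ∃ (C : ℝ) (N₀ : ℕ), 0 < C ∧ ∀ N : ℕ, N₀ ≤ N → ∀ T : ℕ, z ≤ T → ∀ D : Finset ℤ,
      (∀ d ∈ D, (N : ℝ) ^ (2 - κ) ≤ (rough T d : ℝ) ∧ |(d : ℝ)| ≤ (N : ℝ) ^ κ * (rough T d : ℝ) ∧
        ∃ P : Fin (m + 2) → ℤ × ℤ, Tup f z G N T (m + 2) d P) →
      (D.card : ℝ) ≤ C * (N : ℝ) ^ (1 + ((2 * (m + 1) + 1 + f.natDegree * (m + 1) : ℕ) : ℝ) * κ) := by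
  classical
  obtain ⟨C0, hC0⟩ := clsB K
  obtain ⟨z₁, hfib⟩ := h.fib hf he m hm
  refine ⟨z₁, fun z G hz hN hG1 hG κ hκ hκ1 => ?_⟩
  obtain ⟨N₁, hN₁⟩ := hfib z G hz hN hG1 hG
  choose! colw hcol1 hcol2 using hC0
  rw [h.deg] at hcol1
  set n : ℕ := f.natDegree with hn
  set Z : ℕ := primorial z with hZ
  have hZ1 : 1 ≤ Z := primorial_pos z
  have hZr : (1 : ℝ) ≤ Z := by exact_mod_cast hZ1
  refine ⟨5 ^ (2 * (m + 1)) * Z * (C0 + 1) ^ (m + 1) * Z ^ (n * (m + 1)), max N₁ 4, by positivity,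
    fun N hNN T hT D hD => ?_⟩
  have hN4 : 4 ≤ N := (le_max_right _ _).trans hNN
  have hN1' : 1 ≤ N := by omega
  have hNr : (4 : ℝ) ≤ N := by exact_mod_cast hN4
  have hNr0 : (0 : ℝ) < N := by linarith
  set X : ℝ := (N : ℝ) ^ κ with hX
  have hX1 : 1 ≤ X := Real.one_le_rpow (by linarith) hκ.le
  have hXN : 2 * X ≤ N := by
    have h1 : X ≤ (N : ℝ) ^ (1 / 2 : ℝ) := Real.rpow_le_rpow_of_exponent_le (by linarith) hκ1
    have h2 : ((N : ℝ) ^ (1 / 2 : ℝ)) ^ 2 = N := by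
      rw [← Real.rpow_natCast, ← Real.rpow_mul hNr0.le]
      norm_num
    have h3 : (0 : ℝ) ≤ (N : ℝ) ^ (1 / 2 : ℝ) := by positivity
    nlinarith
  choose! P hP using fun d hd => (hD d hd).2.2
  set c : ℤ := f.leadingCoeff with hc
  set u : ℤ → Fin (m + 1) → ℤ := fun d k => dt (P d k.succ) (P d (Fin.succ 0)) / rough T d with hu
  set v : ℤ → Fin (m + 1) → ℤ := fun d k => dt (P d 0) (P d k.succ) / rough T d with hv
  set w : ℤ → ℕ := fun d => Z * (d.natAbs / rough T d) with hw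
  set γ : ℤ → Fin (m + 1) → ℕ := fun d k => colw (w d) (lf c a (P d 0) * lf c a (P d k.succ)) with hγ
  set U : ℕ := ⌊2 * X⌋₊ with hU
  set W : ℕ := ⌊Z * X⌋₊ with hW
  have hUle : (U : ℝ) ≤ 2 * X := Nat.floor_le (by positivity)
  have hWle : (W : ℝ) ≤ Z * X := Nat.floor_le (by positivity)
  have hu' : ∀ d ∈ D, ∀ k, dt (P d k.succ) (P d (Fin.succ 0)) = rough T d * u d k := fun d hd k =>
    (Int.mul_ediv_cancel' ((hP d hd).dvd _ _)).symm
  have hv' : ∀ d ∈ D, ∀ k, dt (P d 0) (P d k.succ) = rough T d * v d k := fun d hd k =>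
    (Int.mul_ediv_cancel' ((hP d hd).dvd _ _)).symm
  have hbox : ∀ d ∈ D, ∀ i, P d i ∈ box N := fun d hd i => Reg_sub ((hP d hd).reg i)
  have hub : ∀ d ∈ D, ∀ k, |(u d k : ℝ)| ≤ 2 * X := fun d hd k =>
    par_quot (T := T) hN1' (hD d hd).1 (hbox d hd _) (hbox d hd _) (hu' d hd k)
  have hvb : ∀ d ∈ D, ∀ k, |(v d k : ℝ)| ≤ 2 * X := fun d hd k =>
    par_quot (T := T) hN1' (hD d hd).1 (hbox d hd _) (hbox d hd _) (hv' d hd k)
  have hint : ∀ t : ℤ, |(t : ℝ)| ≤ 2 * X → |t| ≤ (U : ℤ) := by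
    intro t ht
    have h1 : ((t.natAbs : ℕ) : ℝ) ≤ 2 * X := by
      rw [Nat.cast_natAbs]
      push_cast
      exact ht
    have h2 : t.natAbs ≤ U := Nat.le_floor h1
    rw [Int.abs_eq_natAbs]
    exact_mod_cast h2
  have hd0 : ∀ d ∈ D, d ≠ 0 := by
    intro d hd h0
    have h1 := (hP d hd).reg 0
    have h2 := (hP d hd).sf 0
    have h3 : form f (P d 0) ≠ 0 := (Finset.mem_filter.1 h1).2.2.2.1
    exact sfp_ne_zero _ h3 (h2.trans h0)
  have hr1 : ∀ d, 1 ≤ rough T d := fun d => rough_pos T d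
  have hwd : ∀ d ∈ D, 1 ≤ w d ∧ w d ≤ W := by
    intro d hd
    have h1 : rough T d ≤ d.natAbs := Nat.le_of_dvd (Int.natAbs_pos.2 (hd0 d hd)) (rough_dvd T d)
    have h2 : 1 ≤ d.natAbs / rough T d := Nat.div_pos h1 (hr1 d)
    refine ⟨Nat.mul_pos hZ1 h2, Nat.le_floor ?_⟩
    have h3 : ((d.natAbs / rough T d : ℕ) : ℝ) ≤ X := by
      refine Nat.cast_div_le.trans ?_
      rw [div_le_iff₀ (by exact_mod_cast hr1 d), Nat.cast_natAbs]
      push_cast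
      exact (hD d hd).2.1
    simp only [hw]
    push_cast
    exact mul_le_mul_of_nonneg_left h3 (by positivity)
  have hmaps : ∀ d ∈ D, (u d, v d, w d, γ d) ∈
      (Fintype.piFinset (fun _ : Fin (m + 1) => Finset.Icc (-(U : ℤ)) U)) ×ˢ
      ((Fintype.piFinset (fun _ : Fin (m + 1) => Finset.Icc (-(U : ℤ)) U)) ×ˢ
        ((Finset.Icc 1 W) ×ˢ (Fintype.piFinset (fun _ : Fin (m + 1) => Finset.range (C0 * W ^ n))))) := by
    intro d hd
    simp only [Finset.mem_product, Fintype.mem_piFinset, Finset.mem_Icc, Finset.mem_range]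
    refine ⟨fun k => ?_, fun k => ?_, hwd d hd, fun k => ?_⟩
    · exact abs_le.1 (hint _ (hub d hd k))
    · exact abs_le.1 (hint _ (hvb d hd k))
    · refine lt_of_lt_of_le (hcol1 (w d) (hwd d hd).1 _) ?_
      exact Nat.mul_le_mul_left _ (Nat.pow_le_pow_left (hwd d hd).2 _)
  have hfibre : ∀ b ∈ (Fintype.piFinset (fun _ : Fin (m + 1) => Finset.Icc (-(U : ℤ)) U)) ×ˢ
      ((Fintype.piFinset (fun _ : Fin (m + 1) => Finset.Icc (-(U : ℤ)) U)) ×ˢ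
        ((Finset.Icc 1 W) ×ˢ (Fintype.piFinset (fun _ : Fin (m + 1) => Finset.range (C0 * W ^ n))))),
      (D.filter (fun d => (u d, v d, w d, γ d) = b)).card ≤ N := by
    rintro ⟨u₀, v₀, w₀, γ₀⟩ -
    rcases (D.filter (fun d => (u d, v d, w d, γ d) = (u₀, v₀, w₀, γ₀))).eq_empty_or_nonempty with h0 | ⟨d₀, hd₀⟩
    · rw [h0]
      simp
    have hmem : ∀ d ∈ D.filter (fun d => (u d, v d, w d, γ d) = (u₀, v₀, w₀, γ₀)),
        d ∈ D ∧ u d = u₀ ∧ v d = v₀ ∧ w d = w₀ ∧ γ d = γ₀ := by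
      intro d hd
      rw [Finset.mem_filter] at hd
      simp only [Prod.mk.injEq] at hd
      exact hd
    obtain ⟨hD₀, hu₀, hv₀, hw₀, hγ₀⟩ := hmem d₀ hd₀
    have hw1 : 1 ≤ w₀ := hw₀ ▸ (hwd d₀ hD₀).1
    refine hN₁ N ((le_max_left _ _).trans hNN) T _ P u₀ v₀ w₀ (colw w₀) hT ?_ ?_ ?_ ?_ (hcol2 w₀ hw1) ?_
    · intro d hd
      exact hP d (hmem d hd).1
    · intro d hd k
      obtain ⟨e1, e2, e3, e4, e5⟩ := hmem d hd
      rw [← e2, ← e3]
      exact ⟨hu' d e1 k, hv' d e1 k⟩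
    · intro k
      rw [← hu₀, ← hv₀]
      constructor
      · have h1 := (hub d₀ hD₀ k).trans hXN
        exact_mod_cast h1
      · have h1 := (hvb d₀ hD₀ k).trans hXN
        exact_mod_cast h1
    · intro d hd p hp hpz
      obtain ⟨e1, e2, e3, e4, e5⟩ := hmem d hd
      rw [← e4]
      rcases hpz with hpz | ⟨hpT, hpd⟩
      · exact Dvd.dvd.mul_right (hp.dvd_primorial_iff.2 hpz) _
      · refine Dvd.dvd.mul_left ?_ _
        have h1 : p ∣ d.natAbs := Int.natCast_dvd.1 hpd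
        rw [← Nat.mul_div_cancel' (rough_dvd T d)] at h1
        exact (hp.dvd_mul.1 h1).resolve_left (not_dvd_rough hp hpT d)
    · intro d hd d' hd' k
      obtain ⟨e1, e2, e3, e4, e5⟩ := hmem d hd
      obtain ⟨e1', e2', e3', e4', e5'⟩ := hmem d' hd'
      have h1 : γ d k = γ d' k := by rw [e5, e5']
      simp only [hγ, e4, e4'] at h1
      exact h1
  have hcount := Finset.card_le_mul_card_image_of_maps_to hmaps N hfibre
  have hpc := par_card m n U W (C0 * W ^ n) Z C0 X hX1 hUle hWle rfl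
  have h1 : (D.card : ℝ) ≤ N * (5 ^ (2 * (m + 1)) * Z * (C0 + 1) ^ (m + 1) * Z ^ (n * (m + 1)) *
      X ^ (2 * (m + 1) + 1 + n * (m + 1))) := by
    have h2 : (D.card : ℝ) ≤ ((N * ((Fintype.piFinset (fun _ : Fin (m + 1) => Finset.Icc (-(U : ℤ)) U)) ×ˢ
      ((Fintype.piFinset (fun _ : Fin (m + 1) => Finset.Icc (-(U : ℤ)) U)) ×ˢ
        ((Finset.Icc 1 W) ×ˢ (Fintype.piFinset (fun _ : Fin (m + 1) => Finset.range (C0 * W ^ n)))))).card : ℕ) : ℝ) := by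
      exact_mod_cast hcount
    refine h2.trans ?_
    rw [Nat.cast_mul]
    exact mul_le_mul_of_nonneg_left hpc (Nat.cast_nonneg _)
  refine h1.trans (le_of_eq ?_)
  have h3 : (N : ℝ) ^ (1 + ((2 * (m + 1) + 1 + n * (m + 1) : ℕ) : ℝ) * κ) =
      N * X ^ (2 * (m + 1) + 1 + n * (m + 1)) := by
    rw [Real.rpow_add hNr0, Real.rpow_one, hX, ← Real.rpow_natCast ((N : ℝ) ^ κ), ← Real.rpow_mul hNr0.le,
      mul_comm κ]
  rw [h3]
  ring

end Pool.Agent.SQT
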