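import Pool.Agent.SQT.Orth

/-!
# SQT-Rsd: few residue classes

PLAN.  `col i = 0` if `A i = 0` and `B i = 0`, `1` if `A i = 0`, `B i ≠ 0`, and `2 + (B i / A i).val` if `A i ≠ 0`.  Equal colours imply
`B i * A j = A i * B j` (`ZMod.val_injective`).  Let `lam k = u k / v k` (injective by `huv`).  Let `R` be the set of `B i / A i`, `i ∈ S`, `A i ≠ 0`, with `B i / A i + lam k ≠ 0` for all `k`.  For such
`i, j`: `(B i/A i + lam k) (B j/A j + lam k) = [A i (u A i + v B i)] [A j (u A j + v B j)] / (v A i A j)^2` is a square, so `orth` gives `(m + 1) |R| ≤ p`.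
The image of `S` under `col` is contained in `{0, 1} ∪ {2 + (- lam k).val} ∪ {2 + ρ.val : ρ ∈ R}`, so it has at most `2 + m + |R|` elements.
-/

set_option autoImplicit false

namespace Pool.Agent.SQT

theorem rsd {p : ℕ} [Fact p.Prime] (hp : p ≠ 2) {ι : Type} (S : Finset ι) (A B : ι → ZMod p)
    (m : ℕ) (u v : Fin m → ZMod p) (hv : ∀ k, v k ≠ 0)
    (huv : ∀ k l, k ≠ l → u k * v l ≠ u l * v k)
    (hsq : ∀ i ∈ S, ∀ j ∈ S, ∀ k,
      IsSquare (A i * (u k * A i + v k * B i) * (A j * (u k * A j + v k * B j)))) :
    ∃ col : ι → ℕ, (m + 1) * (S.image col).card ≤ p + (m + 1) * (m + 2) ∧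
      ∀ i ∈ S, ∀ j ∈ S, col i = col j → B i * A j = A i * B j := by
  classical
  set lam : Fin m → ZMod p := fun k => u k / v k with hlam
  have hinj : Function.Injective lam := by
    intro k l hkl
    by_contra hne
    have h1 : u k / v k = u l / v l := hkl
    rw [div_eq_div_iff (hv k) (hv l)] at h1
    exact huv k l hne h1
  set col : ι → ℕ := fun i => if A i = 0 then (if B i = 0 then 0 else 1) else
    2 + (B i / A i).val with hcol
  set R : Finset (ZMod p) := (S.filter (fun i => A i ≠ 0 ∧ ∀ k, B i / A i + lam k ≠ 0)).image
    (fun i => B i / A i) with hRdef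
  have hRc : (m + 1) * R.card ≤ p := by
    refine orth hp m lam hinj R ?_ ?_
    · intro k x hx y hy
      rw [hRdef, Finset.mem_image] at hx hy
      obtain ⟨i, hi, rfl⟩ := hx
      obtain ⟨j, hj, rfl⟩ := hy
      rw [Finset.mem_filter] at hi hj
      obtain ⟨hiS, hAi, -⟩ := hi
      obtain ⟨hjS, hAj, -⟩ := hj
      obtain ⟨w, hw⟩ := hsq i hiS j hjS k
      refine ⟨w / (v k * A i * A j), ?_⟩
      have hvk := hv k
      have h1 : w / (v k * A i * A j) * (w / (v k * A i * A j)) =
          (w * w) / ((v k * A i * A j) * (v k * A i * A j)) := by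
        rw [div_mul_div_comm]
      rw [h1, ← hw]
      simp only [hlam]
      field_simp
      ring
    · intro k x hx
      rw [hRdef, Finset.mem_image] at hx
      obtain ⟨i, hi, rfl⟩ := hx
      rw [Finset.mem_filter] at hi
      exact hi.2.2 k
  refine ⟨col, ?_, ?_⟩
  · have hsub : S.image col ⊆ ({0, 1} : Finset ℕ) ∪
        ((Finset.univ.image (fun k : Fin m => 2 + (-lam k).val)) ∪
          R.image (fun ρ => 2 + ρ.val)) := by
      intro c hc
      rw [Finset.mem_image] at hc
      obtain ⟨i, hi, rfl⟩ := hc
      by_cases hA : A i = 0
      · apply Finset.mem_union_left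
        by_cases hB : B i = 0
        · have : col i = 0 := by simp only [hcol, hA, hB, if_true]
          rw [this]; simp
        · have : col i = 1 := by simp only [hcol, hA, hB, if_true, if_false]
          rw [this]; simp
      · apply Finset.mem_union_right
        have hci : col i = 2 + (B i / A i).val := by simp only [hcol, hA, if_false]
        by_cases hk : ∃ k, B i / A i + lam k = 0
        · obtain ⟨k, hk⟩ := hk
          apply Finset.mem_union_left
          rw [Finset.mem_image]
          refine ⟨k, Finset.mem_univ _, ?_⟩
          rw [hci]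
          have : B i / A i = -lam k := eq_neg_of_add_eq_zero_left hk
          rw [this]
        · push Not at hk
          apply Finset.mem_union_right
          rw [Finset.mem_image]
          refine ⟨B i / A i, ?_, hci.symm⟩
          rw [hRdef, Finset.mem_image]
          exact ⟨i, Finset.mem_filter.2 ⟨hi, hA, hk⟩, rfl⟩
    have hcard : (S.image col).card ≤ 2 + (m + R.card) := by
      refine le_trans (Finset.card_le_card hsub) ?_
      refine le_trans (Finset.card_union_le _ _) ?_
      refine Nat.add_le_add ?_ ?_
      · exact (Finset.card_insert_le _ _).trans (by simp)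
      · refine le_trans (Finset.card_union_le _ _) ?_
        refine Nat.add_le_add ?_ Finset.card_image_le
        refine le_trans Finset.card_image_le ?_
        simp
    calc (m + 1) * (S.image col).card ≤ (m + 1) * (2 + (m + R.card)) :=
          Nat.mul_le_mul_left _ hcard
      _ = (m + 1) * R.card + (m + 1) * (m + 2) := by ring
      _ ≤ p + (m + 1) * (m + 2) := Nat.add_le_add_right hRc _
  · intro i hi j hj hij
    by_cases hA : A i = 0
    · by_cases hA' : A j = 0
      · rw [hA, hA']; ring
      · exfalso
        have h2 : col j = 2 + (B j / A j).val := by simp only [hcol, hA', if_false]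
        have h1 : col i ≤ 1 := by
          simp only [hcol, hA, if_true]
          split_ifs <;> omega
        omega
    · by_cases hA' : A j = 0
      · exfalso
        have h2 : col i = 2 + (B i / A i).val := by simp only [hcol, hA, if_false]
        have h1 : col j ≤ 1 := by
          simp only [hcol, hA', if_true]
          split_ifs <;> omega
        omega
      · have h1 : col i = 2 + (B i / A i).val := by simp only [hcol, hA, if_false]
        have h2 : col j = 2 + (B j / A j).val := by simp only [hcol, hA', if_false]
        have h3 : (B i / A i).val = (B j / A j).val := by omega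
        have h4 : B i / A i = B j / A j := ZMod.val_injective p h3
        rw [div_eq_div_iff hA hA'] at h4
        rw [h4]; ring

end Pool.Agent.SQT
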