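import Pool.Agent.SQT.Mom

/-!
The step: from `κ` vanishing power sums to `m`, using functions of `m * m - κ - 1` variables.
-/

namespace Pool.Agent.SQT

open Pool.Agent.Helper85.SC IntermediateField

variable {k : Type*} {K : Type*} [Field k] [Field K] [Algebra k K]

theorem isAlgClosed_br [IsAlgClosed K] {r : ℕ} (t : Fin r → K) : IsAlgClosed (br k t) :=
  IsAlgClosure.isAlgClosed (R := adjoin k (Set.range t))
    (K := algebraicClosure (adjoin k (Set.range t)) K)

theorem mem_br_of_pow {r N : ℕ} {t : Fin r → K} {z : K} (hN : 0 < N) (h : z ^ N ∈ br k t) :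
    z ∈ br k t := by
  rw [mem_br] at h ⊢
  exact h.of_pow hN

/-- the scaling factor -/
theorem exists_scale [IsAlgClosed K] {E : IntermediateField k K} {κ r N : ℕ}
    (hr1 : 1 ≤ r) (hr : N ≤ r + κ + 1) (s : ℕ → K) (hs0 : s 0 ∈ (⊥ : IntermediateField k K))
    (hE : ∀ l, s l ∈ E) (hp : ∀ l, 1 ≤ l → l ≤ κ → s l = 0) :
    ∃ (a : K) (t : Fin r → K), a ≠ 0 ∧ a ∈ next k r E ∧ (∀ i, t i ∈ E) ∧
      ∀ l, l ≤ N → a ^ l * s l ∈ br k t := by
  by_cases h0 : s (κ + 1) = 0
  · refine ⟨1, fun j => s (κ + 2 + j), one_ne_zero, one_mem _, fun j => hE _, fun l hl => ?_⟩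
    rw [one_pow, one_mul]
    rcases Nat.eq_zero_or_pos l with rfl | hl0
    · exact (bot_le : (⊥ : IntermediateField k K) ≤ br k _) hs0
    · rcases lt_trichotomy l (κ + 1) with h | h | h
      · rw [hp l hl0 (by omega)]
        exact zero_mem _
      · rw [h, h0]
        exact zero_mem _
      · have h1 := subset_br (k := k) (fun j : Fin r => s (κ + 2 + j)) ⟨l - (κ + 2), by omega⟩
        have h2 : κ + 2 + (l - (κ + 2)) = l := by omega
        simpa only [h2] using h1
  · obtain ⟨a, ha⟩ := IsAlgClosed.exists_pow_nat_eq ((s (κ + 1))⁻¹) (Nat.succ_pos κ)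
    have ha0 : a ≠ 0 := by
      rintro rfl
      rw [zero_pow (Nat.succ_ne_zero κ)] at ha
      exact inv_ne_zero h0 ha.symm
    refine ⟨a, fun j => s (κ + 2 + j) ^ (κ + 1) / s (κ + 1) ^ (κ + 2 + (j : ℕ)), ha0, ?_,
      fun j => div_mem (pow_mem (hE _) _) (pow_mem (hE _) _), fun l hl => ?_⟩
    · refine mem_next_of_algebraic hr1 (hE (κ + 1)) ?_
      refine IsAlgebraic.of_pow (Nat.succ_pos κ) ?_
      rw [ha]
      exact isAlgebraic_algebraMap (⟨_, inv_mem (subset_adjoin k _ (Set.mem_singleton _))⟩ :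
        adjoin k {s (κ + 1)})
    · rcases Nat.eq_zero_or_pos l with rfl | hl0
      · rw [pow_zero, one_mul]
        exact (bot_le : (⊥ : IntermediateField k K) ≤ br k _) hs0
      · rcases lt_trichotomy l (κ + 1) with h | h | h
        · rw [hp l hl0 (by omega), mul_zero]
          exact zero_mem _
        · rw [h]
          have h3 : a ^ (κ + 1) = (s (κ + 1))⁻¹ := ha
          rw [h3, inv_mul_cancel₀ h0]
          exact one_mem _
        · refine mem_br_of_pow (N := κ + 1) (Nat.succ_pos κ) ?_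
          have h1 := subset_br (k := k) (fun j : Fin r =>
            s (κ + 2 + j) ^ (κ + 1) / s (κ + 1) ^ (κ + 2 + (j : ℕ))) ⟨l - (κ + 2), by omega⟩
          have h2 : κ + 2 + (l - (κ + 2)) = l := by omega
          simp only [h2] at h1
          have h3 : (a ^ l * s l) ^ (κ + 1) = s l ^ (κ + 1) / s (κ + 1) ^ l := by
            have h4 : a ^ (κ + 1) = (s (κ + 1))⁻¹ := ha
            rw [mul_pow, ← pow_mul, mul_comm l (κ + 1), pow_mul, h4, inv_pow, mul_comm,
              div_eq_mul_inv]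
          rw [h3]
          exact h1

/-- The step. -/
theorem step [IsAlgClosed K] {E : IntermediateField k K} {n κ m r : ℕ}
    (hr1 : 1 ≤ r) (hr : m * m ≤ r + κ + 1) (z : Fin n → K)
    (hE : ∀ l, ∑ i, z i ^ l ∈ E) (hp : ∀ l, 1 ≤ l → l ≤ κ → ∑ i, z i ^ l = 0) :
    ∃ c : Fin (m + 1) → K, c ≠ 0 ∧ (∀ j, c j ∈ next k r E) ∧
      ∀ l, 1 ≤ l → l ≤ m → ∑ i, (∑ j, c j * z i ^ (j : ℕ)) ^ l = 0 := by
  obtain ⟨a, t, ha0, ha, ht, hat⟩ := exists_scale (κ := κ) hr1 hr (fun l => ∑ i, z i ^ l)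
    (by
      simp only [pow_zero, Finset.sum_const, Finset.card_univ, Fintype.card_fin, nsmul_eq_mul,
        mul_one]
      exact _root_.natCast_mem _ n) hE hp
  have : IsAlgClosed (br k t) := isAlgClosed_br t
  obtain ⟨c, hc0, hcF, hc⟩ := zero_of_moments (m := m) (br k t) (fun i => a * z i)
    (fun l hl => by
      have h1 : ∑ i, (a * z i) ^ l = a ^ l * ∑ i, z i ^ l := by
        rw [Finset.mul_sum]
        exact Finset.sum_congr rfl fun i _ => mul_pow _ _ _
      rw [h1]
      exact hat l hl)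
  refine ⟨fun j => c j * a ^ (j : ℕ), ?_, fun j => ?_, fun l hl1 hl2 => ?_⟩
  · intro h
    apply hc0
    funext j
    have h1 := congrFun h j
    exact (mul_eq_zero.1 h1).resolve_right (pow_ne_zero _ ha0)
  · exact mul_mem (br_le_next t ht (hcF j)) (pow_mem ha _)
  · rw [← hc l hl1 hl2]
    refine Finset.sum_congr rfl fun i _ => ?_
    congr 1
    refine Finset.sum_congr rfl fun j _ => ?_
    rw [mul_pow, mul_assoc]

end Pool.Agent.SQT
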