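import Pool.Agent.SQT.Defs

/-!
# SQT-Uni: prime ideals over a good prime `p` containing `a - t`

PLAN.  Let `J = (p, a - t)`.  Every element of `ℤ[a]` is congruent to an integer modulo `J` (`Algebra.adjoin_induction` or write it as `aeval a g` and
`(a - t) ∣ aeval a g - g(t)`), and `M x ∈ ℤ[a]` with `M` invertible modulo `p`, so every `x : 𝓞 K` is congruent to an integer modulo `J`:
`ℤ → 𝓞 K / J` is surjective and kills `p`.  So for every ideal `I ⊇ J`, `I ≠ ⊤`, the ring `𝓞 K / I` is the quotient of `ZMod p` by a proper ideal, i.e. it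
has exactly `p` elements: `absNorm I = p`.  For `I = q` and `I = J` (`J ≤ q ≠ ⊤`) this gives `absNorm q = absNorm J = p`, and `J ≤ q` with equal
norms (or: `J` is maximal because the quotient has `p` elements) gives `J = q`.
-/

set_option autoImplicit false

namespace Pool.Agent.SQT

open NumberField Pool.Agent.Helper83.TW

variable {f : Polynomial ℤ} {K : Type} [Field K] [NumberField K] {a : 𝓞 K} {M : ℤ}

private theorem uni_int (h : Gen f K a M) {p : ℕ} (hp : p.Prime) (hM : M.natAbs < p) (t : ℤ)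
    {I : Ideal (𝓞 K)} (h1 : (p : 𝓞 K) ∈ I) (h2 : a - (t : 𝓞 K) ∈ I) (x : 𝓞 K) :
    ∃ m : ℤ, x - (m : 𝓞 K) ∈ I := by
  have key : ∀ y ∈ Algebra.adjoin ℤ {a}, ∃ m : ℤ, y - (m : 𝓞 K) ∈ I := by
    intro y hy
    induction hy using Algebra.adjoin_induction with
    | mem y hy =>
      rw [Set.mem_singleton_iff] at hy
      rw [hy]
      exact ⟨t, h2⟩
    | algebraMap r =>
      refine ⟨r, ?_⟩
      have h3 : (algebraMap ℤ (𝓞 K)) r - (r : 𝓞 K) = 0 := by
        rw [eq_intCast, sub_self]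
      rw [h3]
      exact I.zero_mem
    | add y z _ _ hy hz =>
      obtain ⟨m, hm⟩ := hy
      obtain ⟨m', hm'⟩ := hz
      refine ⟨m + m', ?_⟩
      have h3 : y + z - ((m + m' : ℤ) : 𝓞 K) = (y - (m : 𝓞 K)) + (z - (m' : 𝓞 K)) := by
        push_cast
        ring
      rw [h3]
      exact I.add_mem hm hm'
    | mul y z _ _ hy hz =>
      obtain ⟨m, hm⟩ := hy
      obtain ⟨m', hm'⟩ := hz
      refine ⟨m * m', ?_⟩
      have h3 : y * z - ((m * m' : ℤ) : 𝓞 K) =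
          y * (z - (m' : 𝓞 K)) + (m' : 𝓞 K) * (y - (m : 𝓞 K)) := by
        push_cast
        ring
      rw [h3]
      exact I.add_mem (I.mul_mem_left _ hm') (I.mul_mem_left _ hm)
  have hc : IsCoprime M (p : ℤ) := by
    rw [isCoprime_comm, Int.isCoprime_iff_gcd_eq_one]
    have h3 : Nat.Coprime p M.natAbs := by
      rw [hp.coprime_iff_not_dvd]
      intro hd
      have h4 := Nat.le_of_dvd (Int.natAbs_pos.2 h.M0) hd
      omega
    exact h3
  obtain ⟨u, v, huv⟩ := hc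
  obtain ⟨m, hm⟩ := key _ (h.mem x)
  refine ⟨u * m, ?_⟩
  have h3 : x - ((u * m : ℤ) : 𝓞 K) =
      (u : 𝓞 K) * ((M : 𝓞 K) * x - (m : 𝓞 K)) + ((v : 𝓞 K) * x) * (p : 𝓞 K) := by
    have h4 : (u : 𝓞 K) * (M : 𝓞 K) + (v : 𝓞 K) * (p : 𝓞 K) = 1 := by
      have h5 := congrArg (fun z : ℤ => (z : 𝓞 K)) huv
      push_cast at h5
      exact h5
    push_cast
    linear_combination (-x) * h4
  rw [h3]
  exact I.add_mem (I.mul_mem_left _ hm) (I.mul_mem_left _ h1)

private theorem uni_norm (h : Gen f K a M) {p : ℕ} (hp : p.Prime) (hM : M.natAbs < p) (t : ℤ)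
    {I : Ideal (𝓞 K)} (hI : I ≠ ⊤) (h1 : (p : 𝓞 K) ∈ I) (h2 : a - (t : 𝓞 K) ∈ I) :
    Ideal.absNorm I = p := by
  have : Fact p.Prime := ⟨hp⟩
  have : Nontrivial (𝓞 K ⧸ I) := Ideal.Quotient.nontrivial_iff.2 hI
  have hsurj : Function.Surjective (Int.castRingHom (𝓞 K ⧸ I)) := by
    intro y
    obtain ⟨x, rfl⟩ := Ideal.Quotient.mk_surjective y
    obtain ⟨m, hm⟩ := uni_int h hp hM t h1 h2 x
    refine ⟨m, ?_⟩
    rw [eq_comm, eq_intCast, ← map_intCast (Ideal.Quotient.mk I), Ideal.Quotient.eq]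
    exact hm
  have hmax : (Ideal.span {(p : ℤ)}).IsMaximal :=
    PrincipalIdealRing.isMaximal_of_irreducible (Nat.prime_iff_prime_int.1 hp).irreducible
  have hker : RingHom.ker (Int.castRingHom (𝓞 K ⧸ I)) = Ideal.span {(p : ℤ)} := by
    refine (hmax.eq_of_le (RingHom.ker_ne_top _) ?_).symm
    rw [Ideal.span_singleton_le_iff_mem, RingHom.mem_ker, eq_intCast, Int.cast_natCast,
      ← map_natCast (Ideal.Quotient.mk I), Ideal.Quotient.eq_zero_iff_mem]
    exact h1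
  have e1 : (𝓞 K ⧸ I) ≃+* ZMod p :=
    ((RingHom.quotientKerEquivOfSurjective hsurj).symm.trans (Ideal.quotEquivOfEq hker)).trans
      (Int.quotientSpanNatEquivZMod p)
  rw [Ideal.absNorm_apply, Submodule.cardQuot_apply]
  exact (Nat.card_congr e1.toEquiv).trans (Nat.card_zmod p)

theorem Gen.uni (h : Gen f K a M) {p : ℕ} (hp : p.Prime) (hM : M.natAbs < p) (t : ℤ)
    (q : Ideal (𝓞 K)) (hq : q ≠ ⊤) (h1 : (p : 𝓞 K) ∈ q) (h2 : a - (t : 𝓞 K) ∈ q) :
    Ideal.absNorm q = p ∧ q = Ideal.span {(p : 𝓞 K), a - (t : 𝓞 K)} := by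
  have hle : Ideal.span {(p : 𝓞 K), a - (t : 𝓞 K)} ≤ q := by
    rw [Ideal.span_le]
    rintro x (rfl | rfl)
    · exact h1
    · exact h2
  have hJ : Ideal.span {(p : 𝓞 K), a - (t : 𝓞 K)} ≠ ⊤ := fun h3 => hq (top_le_iff.1 (h3 ▸ hle))
  have hJ1 : (p : 𝓞 K) ∈ Ideal.span {(p : 𝓞 K), a - (t : 𝓞 K)} :=
    Ideal.subset_span (Set.mem_insert _ _)
  have hJ2 : a - (t : 𝓞 K) ∈ Ideal.span {(p : 𝓞 K), a - (t : 𝓞 K)} :=
    Ideal.subset_span (Set.mem_insert_of_mem _ rfl)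
  have hN := uni_norm h hp hM t hJ hJ1 hJ2
  refine ⟨uni_norm h hp hM t hq h1 h2, ?_⟩
  have hprime : (Ideal.span {(p : 𝓞 K), a - (t : 𝓞 K)}).IsPrime := by
    refine Ideal.isPrime_of_irreducible_absNorm ?_
    rw [hN]
    exact hp
  have hbot : Ideal.span {(p : 𝓞 K), a - (t : 𝓞 K)} ≠ ⊥ := by
    intro h3
    rw [h3, Ideal.mem_bot] at hJ1
    exact hp.ne_zero (by exact_mod_cast hJ1)
  exact ((hprime.isMaximal hbot).eq_of_le hq hle).symm

end Pool.Agent.SQT
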