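import Pool.Agent.SQT.Uni
import Pool.Agent.SQT.NormF
import Pool.Agent.SQT.Mu

/-!
# SQT-Val: the multiplicity of a prime ideal over a good prime in `lf P`

PLAN.  Let `c = f.leadingCoeff`, `P = (x, y)`.  If `p ∣ y` then `p ∤ x` and `lf P ≡ c x` modulo `p`, so `lf P ∈ q` would give `1 ∈ q` (`p ∤ c x`): impossible.
So `p ∤ y`; choose an integer `t` with `y t ≡ c x (mod p)`; then `y (t - a) ≡ lf P ∈ q` modulo `p`, so `a - t ∈ q`, and `Gen.uni` gives
`absNorm q = p` and `q = (p, a - t)`: `q` is the only prime ideal containing `p` and `lf P`.  Write `(lf P) = q^v r` with `v = mu q (lf P)` and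
`q ∤ r` (`lf P ≠ 0` because its norm is not zero, `Gen.norm_lf`).  Then `absNorm (lf P) = p^v absNorm r`, and `p ∤ absNorm r`: otherwise some prime factor `q'` of
`r` has `p ∣ absNorm q'`, so `p ∈ q'`, `lf P ∈ q'` and `q' = q`.  As `absNorm (lf P) = |c|^(n-1) |form f P|` (`Ideal.absNorm_span_singleton`) and `p ∤ c`,
`v` is the exponent of `p` in `|form f P|`.
-/

set_option autoImplicit false

namespace Pool.Agent.SQT

open NumberField Pool.Agent.Helper83.TW

variable {f : Polynomial ℤ} {K : Type} [Field K] [NumberField K] {a : 𝓞 K} {M : ℤ}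

private theorem val_fac {L : Type*} [CommRing L] [IsDedekindDomain L] [Module.Free ℤ L]
    [Module.Finite ℤ L] (q : Ideal L) {p : ℕ} (hp : p.Prime) (F : Multiset (Ideal L))
    (hF : ∀ J ∈ F, (J = q → Ideal.absNorm J = p) ∧ (J ≠ q → ¬ p ∣ Ideal.absNorm J) ∧
      Ideal.absNorm J ≠ 0) [DecidableEq (Ideal L)] :
    (F.map Ideal.absNorm).prod ≠ 0 ∧
      (F.map Ideal.absNorm).prod.factorization p = F.count q := by
  induction F using Multiset.induction_on with
  | empty => simp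
  | cons J F ih =>
    obtain ⟨i1, i2⟩ := ih (fun J' hJ' => hF J' (Multiset.mem_cons_of_mem hJ'))
    obtain ⟨j1, j2, j3⟩ := hF J (Multiset.mem_cons_self J F)
    rw [Multiset.map_cons, Multiset.prod_cons]
    refine ⟨mul_ne_zero j3 i1, ?_⟩
    rw [Nat.factorization_mul j3 i1, Finsupp.add_apply, i2, Multiset.count_cons]
    by_cases hJ : J = q
    · rw [j1 hJ, if_pos hJ.symm, hp.factorization_self, Nat.add_comm]
    · rw [if_neg (fun h => hJ h.symm), Nat.factorization_eq_zero_of_not_dvd (j2 hJ), Nat.zero_add,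
        Nat.add_zero]

private theorem val_mem {p : ℕ} (hp : p.Prime) {J : Ideal (𝓞 K)} (hJ : J.IsPrime)
    (h0 : Ideal.absNorm J ≠ 0) (h : p ∣ Ideal.absNorm J) : (p : 𝓞 K) ∈ J := by
  have : Fact p.Prime := ⟨hp⟩
  rw [Ideal.absNorm_apply, Submodule.cardQuot_apply] at h h0
  have : Finite (𝓞 K ⧸ J) := Nat.finite_of_card_ne_zero h0
  obtain ⟨z, hz⟩ := exists_prime_addOrderOf_dvd_card' (G := 𝓞 K ⧸ J) p h
  obtain ⟨w, rfl⟩ := Ideal.Quotient.mk_surjective z
  have h1 : p • (Ideal.Quotient.mk J w) = 0 := by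
    rw [← hz]
    exact addOrderOf_nsmul_eq_zero _
  rw [nsmul_eq_mul, ← map_natCast (Ideal.Quotient.mk J), ← map_mul,
    Ideal.Quotient.eq_zero_iff_mem] at h1
  rcases hJ.mem_or_mem h1 with h2 | h2
  · exact h2
  · exfalso
    rw [Ideal.Quotient.eq_zero_iff_mem.2 h2, addOrderOf_zero] at hz
    exact hp.one_lt.ne hz

theorem Gen.val (h : Gen f K a M) (hf : 1 ≤ f.natDegree) {p : ℕ} (hp : p.Prime)
    (hc : f.leadingCoeff.natAbs < p) (hM : M.natAbs < p) {P : ℤ × ℤ}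
    (hP : ¬ ((p : ℤ) ∣ P.1 ∧ (p : ℤ) ∣ P.2)) (h0 : form f P ≠ 0) {q : Ideal (𝓞 K)}
    (hq : q.IsPrime) (hpq : (p : 𝓞 K) ∈ q) (hl : lf f.leadingCoeff a P ∈ q) :
    mu q (lf f.leadingCoeff a P) = (form f P).natAbs.factorization p := by
  classical
  have hpi : Prime (p : ℤ) := Nat.prime_iff_prime_int.1 hp
  have hpc : ¬ (p : ℤ) ∣ f.leadingCoeff := by
    intro hd
    have h1 : p ∣ f.leadingCoeff.natAbs := Int.natCast_dvd.1 hd
    have h2 := Nat.le_of_dvd (Int.natAbs_pos.2 h.lc) h1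
    omega
  have hcop : ∀ z : ℤ, ¬ (p : ℤ) ∣ z → ∃ u v : ℤ, u * z + v * (p : ℤ) = 1 := by
    intro z hz
    have h1 : IsCoprime z (p : ℤ) := (isCoprime_comm.1 ((Prime.coprime_iff_not_dvd hpi).2 hz))
    obtain ⟨u, v, h2⟩ := h1
    exact ⟨u, v, h2⟩
  have hnot : ∀ z : ℤ, ¬ (p : ℤ) ∣ z → (z : 𝓞 K) ∉ q := by
    intro z hz hzq
    obtain ⟨u, v, h1⟩ := hcop z hz
    refine hq.ne_top ((Ideal.eq_top_iff_one q).2 ?_)
    have h2 := congrArg (fun w : ℤ => (w : 𝓞 K)) h1
    push_cast at h2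
    rw [← h2]
    exact q.add_mem (q.mul_mem_left _ hzq) (q.mul_mem_left _ hpq)
  have hy : ¬ (p : ℤ) ∣ P.2 := by
    intro hd
    have hx : ¬ (p : ℤ) ∣ P.1 := fun h1 => hP ⟨h1, hd⟩
    have hcx : ¬ (p : ℤ) ∣ f.leadingCoeff * P.1 := by
      intro h1
      rcases hpi.dvd_or_dvd h1 with h2 | h2
      · exact hpc h2
      · exact hx h2
    apply hnot _ hcx
    obtain ⟨w, hw⟩ := hd
    have h2 : ((f.leadingCoeff * P.1 : ℤ) : 𝓞 K) =
        lf f.leadingCoeff a P + ((w : 𝓞 K) * a) * (p : 𝓞 K) := by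
      unfold lf
      rw [hw]
      push_cast
      ring
    rw [h2]
    exact q.add_mem hl (q.mul_mem_left _ hpq)
  obtain ⟨u, v, huv⟩ := hcop _ hy
  have hat : ∀ J : Ideal (𝓞 K), (p : 𝓞 K) ∈ J → lf f.leadingCoeff a P ∈ J →
      a - ((u * (f.leadingCoeff * P.1) : ℤ) : 𝓞 K) ∈ J := by
    intro J hJ1 hJ2
    have h2 := congrArg (fun w : ℤ => (w : 𝓞 K)) huv
    push_cast at h2
    have h3 : a - ((u * (f.leadingCoeff * P.1) : ℤ) : 𝓞 K) =
        (-(u : 𝓞 K)) * lf f.leadingCoeff a P + ((v : 𝓞 K) * a) * (p : 𝓞 K) := by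
      unfold lf
      push_cast
      linear_combination (-a) * h2
    rw [h3]
    exact J.add_mem (J.mul_mem_left _ hJ2) (J.mul_mem_left _ hJ1)
  have hqq := h.uni hp hM (u * (f.leadingCoeff * P.1)) q hq.ne_top hpq (hat q hpq hl)
  have hnorm : Ideal.absNorm (Ideal.span {lf f.leadingCoeff a P}) =
      f.leadingCoeff.natAbs ^ (f.natDegree - 1) * (form f P).natAbs := by
    rw [Ideal.absNorm_span_singleton, h.norm_lf hf P, Int.natAbs_mul, Int.natAbs_pow]
  have hc0 : f.leadingCoeff.natAbs ^ (f.natDegree - 1) ≠ 0 :=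
    pow_ne_zero _ (Int.natAbs_ne_zero.2 h.lc)
  have hf0 : (form f P).natAbs ≠ 0 := Int.natAbs_ne_zero.2 h0
  have hN0 : Ideal.absNorm (Ideal.span {lf f.leadingCoeff a P}) ≠ 0 := by
    rw [hnorm]
    exact mul_ne_zero hc0 hf0
  have hbot : Ideal.span {lf f.leadingCoeff a P} ≠ ⊥ := by
    intro h1
    rw [h1, Ideal.absNorm_bot] at hN0
    exact hN0 rfl
  have hFm : ∀ J ∈ UniqueFactorizationMonoid.normalizedFactors (Ideal.span {lf f.leadingCoeff a P}),
      (J = q → Ideal.absNorm J = p) ∧ (J ≠ q → ¬ p ∣ Ideal.absNorm J) ∧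
      Ideal.absNorm J ≠ 0 := by
    intro J hJ
    have hJp : Prime J := UniqueFactorizationMonoid.prime_of_normalized_factor J hJ
    have hJd : J ∣ Ideal.span {lf f.leadingCoeff a P} :=
      UniqueFactorizationMonoid.dvd_of_mem_normalizedFactors hJ
    have hJl : lf f.leadingCoeff a P ∈ J := (Ideal.dvd_span_singleton).1 hJd
    have hJprime : J.IsPrime := Ideal.isPrime_of_prime hJp
    have hJ0 : Ideal.absNorm J ≠ 0 := by
      intro h1
      exact hJp.ne_zero (Ideal.absNorm_eq_zero_iff.1 h1)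
    refine ⟨fun h1 => ?_, fun h1 h2 => ?_, hJ0⟩
    · rw [h1]
      exact hqq.1
    · have h3 := val_mem hp hJprime hJ0 h2
      have h4 := h.uni hp hM (u * (f.leadingCoeff * P.1)) J hJprime.ne_top h3 (hat J h3 hJl)
      exact h1 (h4.2.trans hqq.2.symm)
  obtain ⟨-, g2⟩ := val_fac q hp _ hFm
  have hprod : ((UniqueFactorizationMonoid.normalizedFactors
      (Ideal.span {lf f.leadingCoeff a P})).map Ideal.absNorm).prod =
      Ideal.absNorm (Ideal.span {lf f.leadingCoeff a P}) := by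
    rw [← map_multiset_prod, Ideal.prod_normalizedFactors_eq_self hbot]
  rw [hprod, hnorm, Nat.factorization_mul hc0 hf0, Finsupp.add_apply, Nat.factorization_pow,
    Finsupp.smul_apply, Nat.factorization_eq_zero_of_not_dvd
      (fun h1 => hpc (Int.natCast_dvd.2 h1)), smul_zero, Nat.zero_add] at g2
  unfold mu
  exact g2.symm

end Pool.Agent.SQT
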